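import Mathlib

set_option autoImplicit false

open Finset

namespace E3R8

/-- a rational-valued additive map close to the identity on a finite set -/
theorem ratmap (S : Finset ℝ) (ε : ℝ) (hε : 0 < ε) :
    ∃ φ : ℝ →ₗ[ℚ] ℚ, ∀ x ∈ S, |(φ x : ℝ) - x| < ε := by
  classical
  let B := Module.Basis.ofVectorSpace ℚ ℝ
  set K : ℝ := ∑ x ∈ S, ∑ i ∈ (B.repr x).support, |((B.repr x i : ℚ) : ℝ)| with hK
  have hK0 : 0 ≤ K := sum_nonneg fun x _ => sum_nonneg fun i _ => abs_nonneg _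
  have hδ : 0 < ε / (K + 1) := by positivity
  choose q hq using fun i => exists_rat_near (B i) hδ
  refine ⟨B.constr ℚ q, fun x hx => ?_⟩
  have h1 : ((B.constr ℚ q x : ℚ) : ℝ) = ∑ i ∈ (B.repr x).support, ((B.repr x i : ℚ) : ℝ) * q i := by
    rw [Module.Basis.constr_apply, Finsupp.sum]
    push_cast [smul_eq_mul]
    rfl
  have h2 : x = ∑ i ∈ (B.repr x).support, ((B.repr x i : ℚ) : ℝ) * B i := by
    conv_lhs => rw [← B.linearCombination_repr x]
    rw [Finsupp.linearCombination_apply, Finsupp.sum]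
    simp only [Rat.smul_def]
  have h3 : ((B.constr ℚ q x : ℚ) : ℝ) - x
      = ∑ i ∈ (B.repr x).support, ((B.repr x i : ℚ) : ℝ) * (q i - B i) := by
    rw [h1]; conv_lhs => rw [h2]
    simp only [mul_sub, sum_sub_distrib]
    rw [← h2]
  have h4 : ∑ i ∈ (B.repr x).support, |((B.repr x i : ℚ) : ℝ)| ≤ K :=
    single_le_sum (f := fun x => ∑ i ∈ (B.repr x).support, |((B.repr x i : ℚ) : ℝ)|)
      (fun y _ => sum_nonneg fun i _ => abs_nonneg _) hx
  rw [h3]
  calc |∑ i ∈ (B.repr x).support, ((B.repr x i : ℚ) : ℝ) * (q i - B i)|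
      ≤ ∑ i ∈ (B.repr x).support, |((B.repr x i : ℚ) : ℝ)| * (ε / (K + 1)) := by
        refine (abs_sum_le_sum_abs _ _).trans (sum_le_sum fun i _ => ?_)
        rw [abs_mul]
        refine mul_le_mul_of_nonneg_left ?_ (abs_nonneg _)
        rw [abs_sub_comm]; exact (hq i).le
    _ ≤ K * (ε / (K + 1)) := by
        rw [← sum_mul]; exact mul_le_mul_of_nonneg_right h4 hδ.le
    _ < ε := by
        rw [mul_div_assoc', div_lt_iff₀ (by positivity)]; nlinarith

/-- every point has a strictly supporting non-vertical line, from below or from above -/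
def Sup (A : Finset (ℝ × ℝ)) : Prop :=
  ∀ a ∈ A, ∃ t : ℝ, (∀ b ∈ A, b ≠ a → t * (b.1 - a.1) < b.2 - a.2) ∨
    (∀ b ∈ A, b ≠ a → t * (b.1 - a.1) < a.2 - b.2)

/-- the same for integer points and rational slopes -/
def SupZ (X : Finset (ℤ × ℤ)) : Prop :=
  ∀ a ∈ X, ∃ t : ℚ, (∀ b ∈ X, b ≠ a → t * ((b.1 : ℚ) - a.1) < (b.2 : ℚ) - a.2) ∨
    (∀ b ∈ X, b ≠ a → t * ((b.1 : ℚ) - a.1) < (a.2 : ℚ) - b.2)

theorem sup_of_fun (A : Finset (ℝ × ℝ))
    (h : ∀ a ∈ A, ∃ u v : ℝ, ∀ b ∈ A, b ≠ a → u * (b.1 - a.1) + v * (b.2 - a.2) < 0) : Sup A := by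
  intro a ha
  obtain ⟨u, v, huv⟩ := h a ha
  have key : ∃ w : ℝ, w ≠ 0 ∧ ∀ b ∈ A, b ≠ a → u * (b.1 - a.1) + w * (b.2 - a.2) < 0 := by
    have h1 : ∀ᶠ w in nhds v, ∀ b ∈ A, b ≠ a → u * (b.1 - a.1) + w * (b.2 - a.2) < 0 := by
      rw [Filter.eventually_all_finset]
      intro b hb
      by_cases hba : b = a
      · exact Filter.Eventually.of_forall fun _ h => absurd hba h
      · have hc : Continuous fun w : ℝ => u * (b.1 - a.1) + w * (b.2 - a.2) := by fun_prop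
        exact (hc.continuousAt.eventually_lt continuousAt_const (huv b hb hba)).mono fun _ h _ => h
    have h2 : ∃ᶠ w in nhds v, w ≠ 0 := by
      by_cases hv : v = 0
      · subst hv
        have := (inferInstance : (nhdsWithin (0 : ℝ) {0}ᶜ).NeBot)
        exact (frequently_nhdsWithin_iff.1 (Filter.Eventually.frequently
          (self_mem_nhdsWithin : ∀ᶠ w in nhdsWithin (0 : ℝ) {0}ᶜ, w ∈ ({0}ᶜ : Set ℝ)))).mono
          fun _ h => h.2
      · exact (eventually_ne_nhds hv).frequently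
    obtain ⟨w, hw1, hw2⟩ := (h2.and_eventually h1).exists
    exact ⟨w, hw1, hw2⟩
  obtain ⟨w, hw, hb⟩ := key
  rcases lt_or_gt_of_ne hw with hw | hw
  · refine ⟨u / (-w), Or.inl fun b hbA hba => ?_⟩
    have := hb b hbA hba
    rw [div_mul_eq_mul_div, div_lt_iff₀ (by linarith)]; linarith
  · refine ⟨u / w, Or.inr fun b hbA hba => ?_⟩
    have := hb b hbA hba
    rw [div_mul_eq_mul_div, div_lt_iff₀ hw]; linarith

theorem sup_of_convex (A : Finset (ℝ × ℝ))
    (h : ∀ a ∈ A, a ∉ convexHull ℝ ((A : Set (ℝ × ℝ)) \ {a})) : Sup A := by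
  refine sup_of_fun A fun a ha => ?_
  have hfin : ((A : Set (ℝ × ℝ)) \ {a}).Finite := A.finite_toSet.subset Set.sdiff_subset
  obtain ⟨f, r, h1, h2⟩ := geometric_hahn_banach_closed_point (convex_convexHull ℝ _)
    (hfin.isClosed_convexHull (𝕜 := ℝ)) (h a ha)
  refine ⟨f (1, 0), f (0, 1), fun b hb hba => ?_⟩
  have h3 := h1 b (subset_convexHull ℝ _ ⟨hb, hba⟩)
  have h4 : f (b - a) = f (1, 0) * (b.1 - a.1) + f (0, 1) * (b.2 - a.2) := by
    have : b - a = (b.1 - a.1) • ((1, 0) : ℝ × ℝ) + (b.2 - a.2) • ((0, 1) : ℝ × ℝ) := by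
      ext <;> simp
    rw [this, map_add, map_smul, map_smul]; simp only [smul_eq_mul]; ring
  rw [← h4, map_sub]; linarith

theorem sup_of_circle (A : Finset (ℝ × ℝ)) (h : ∀ a ∈ A, a.1 ^ 2 + a.2 ^ 2 = 1) : Sup A := by
  refine sup_of_fun A fun a ha => ⟨a.1, a.2, fun b hb hba => ?_⟩
  have h1 := h a ha
  have h2 := h b hb
  have h3 : 0 < (b.1 - a.1) ^ 2 + (b.2 - a.2) ^ 2 := by
    by_contra hc
    have e1 : b.1 - a.1 = 0 := by nlinarith [sq_nonneg (b.1 - a.1), sq_nonneg (b.2 - a.2)]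
    have e2 : b.2 - a.2 = 0 := by nlinarith [sq_nonneg (b.1 - a.1), sq_nonneg (b.2 - a.2)]
    exact hba (Prod.ext (by linarith) (by linarith))
  nlinarith

theorem sup_of_parabola (A : Finset (ℝ × ℝ)) (h : ∀ a ∈ A, a.2 = a.1 ^ 2) : Sup A := by
  intro a ha
  refine ⟨2 * a.1, Or.inl fun b hb hba => ?_⟩
  have h1 := h a ha
  have h2 := h b hb
  have h3 : b.1 - a.1 ≠ 0 := fun e => hba (Prod.ext (by linarith) (by
    rw [h1, h2, show b.1 = a.1 by linarith]))
  have := sq_pos_of_ne_zero h3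
  nlinarith

theorem intmap (S : Finset ℝ) (φ : ℝ →ₗ[ℚ] ℚ) :
    ∃ (L : ℚ) (z : ℝ → ℤ), 0 < L ∧ ∀ x ∈ S, (z x : ℚ) = L * φ x := by
  classical
  refine ⟨((∏ x ∈ S, (φ x).den : ℕ) : ℚ), fun x => ⌊((∏ x ∈ S, (φ x).den : ℕ) : ℚ) * φ x⌋, ?_,
    fun x hx => ?_⟩
  · exact_mod_cast prod_pos fun x _ => (φ x).den_pos
  · obtain ⟨k, hk⟩ := dvd_prod_of_mem (fun x => (φ x).den) hx
    have : ((∏ x ∈ S, (φ x).den : ℕ) : ℚ) * φ x = ((k * (φ x).num : ℤ) : ℚ) := by
      rw [hk]; push_cast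
      rw [← Rat.mul_den_eq_num]; ring
    simp only [this, Int.floor_intCast]

/-- real sets with supporting lines have integer models -/
theorem toZ (A : Finset (ℝ × ℝ)) (h : Sup A) :
    ∃ p : ℝ × ℝ → ℤ × ℤ, Set.InjOn p A ∧ SupZ (A.image p) ∧
      ∀ a : Fin 6 → ℝ × ℝ, (∀ i, a i ∈ A) → a 0 + a 1 + a 2 = a 3 + a 4 + a 5 →
        p (a 0) + p (a 1) + p (a 2) = p (a 3) + p (a 4) + p (a 5) := by
  classical
  have h' : ∀ a : ℝ × ℝ, ∃ (t σ : ℝ), (σ = 1 ∨ σ = -1) ∧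
      (a ∈ A → ∀ b ∈ A, b ≠ a → t * (b.1 - a.1) < σ * (b.2 - a.2)) := by
    intro a
    by_cases ha : a ∈ A
    · obtain ⟨t, ht | ht⟩ := h a ha
      · exact ⟨t, 1, Or.inl rfl, fun _ b hb hba => by have := ht b hb hba; linarith⟩
      · exact ⟨t, -1, Or.inr rfl, fun _ b hb hba => by have := ht b hb hba; linarith⟩
    · exact ⟨0, 1, Or.inl rfl, fun h => absurd h ha⟩
  choose t σ hσ ht using h'
  have hev : ∀ᶠ η in nhdsWithin (0 : ℝ) (Set.Ioi 0), η < 1 ∧ ∀ a ∈ A, ∀ b ∈ A, b ≠ a →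
      η * (2 * |t a| + |b.1 - a.1| + 4) < σ a * (b.2 - a.2) - t a * (b.1 - a.1) := by
    refine Filter.Eventually.filter_mono nhdsWithin_le_nhds ((eventually_lt_nhds one_pos).and ?_)
    rw [Filter.eventually_all_finset]
    intro a ha
    rw [Filter.eventually_all_finset]
    intro b hb
    by_cases hba : b = a
    · exact Filter.Eventually.of_forall fun _ h => absurd hba h
    · have hc : Continuous fun η : ℝ => η * (2 * |t a| + |b.1 - a.1| + 4) := by fun_prop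
      have := ht a ha b hb hba
      exact (hc.continuousAt.eventually_lt continuousAt_const (by simpa using this)).mono
        fun _ h _ => h
  obtain ⟨η, ⟨hη1, hη⟩, hη0⟩ := (hev.and self_mem_nhdsWithin).exists
  have hη0 : 0 < η := hη0
  obtain ⟨φ, hφ⟩ := ratmap (A.image Prod.fst ∪ A.image Prod.snd) η hη0
  obtain ⟨L, z, hL, hz⟩ := intmap (A.image Prod.fst ∪ A.image Prod.snd) φ
  have m1 : ∀ a ∈ A, a.1 ∈ A.image Prod.fst ∪ A.image Prod.snd := fun a ha =>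
    mem_union_left _ (mem_image_of_mem _ ha)
  have m2 : ∀ a ∈ A, a.2 ∈ A.image Prod.fst ∪ A.image Prod.snd := fun a ha =>
    mem_union_right _ (mem_image_of_mem _ ha)
  choose q hq using fun a => exists_rat_near (t a) hη0
  have main : ∀ a ∈ A, ∀ b ∈ A, b ≠ a →
      (q a : ℝ) * ((z b.1 : ℝ) - z a.1) < σ a * ((z b.2 : ℝ) - z a.2) := by
    intro a ha b hb hba
    have c : ∀ x ∈ A.image Prod.fst ∪ A.image Prod.snd, (z x : ℝ) = (L : ℝ) * (φ x : ℝ) := by
      intro x hx; exact_mod_cast congrArg (fun r : ℚ => (r : ℝ)) (hz x hx)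
    rw [c _ (m1 a ha), c _ (m1 b hb), c _ (m2 a ha), c _ (m2 b hb)]
    have hL' : (0 : ℝ) < L := by exact_mod_cast hL
    have g := hη a ha b hb hba
    have a1 := abs_lt.1 (hφ _ (m1 a ha))
    have b1 := abs_lt.1 (hφ _ (m1 b hb))
    have a2 := abs_lt.1 (hφ _ (m2 a ha))
    have b2 := abs_lt.1 (hφ _ (m2 b hb))
    have e1 : |(q a : ℝ) * (((φ b.1 : ℝ) - b.1) - ((φ a.1 : ℝ) - a.1))| ≤ (|t a| + 1) * (2 * η) := by
      rw [abs_mul]
      refine mul_le_mul ?_ (abs_le.2 ⟨by linarith, by linarith⟩) (abs_nonneg _) (by positivity)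
      have := abs_sub_abs_le_abs_sub (q a : ℝ) (t a)
      rw [abs_sub_comm] at this
      linarith [hq a]
    have e2 : |((q a : ℝ) - t a) * (b.1 - a.1)| ≤ η * |b.1 - a.1| := by
      rw [abs_mul, abs_sub_comm]
      exact mul_le_mul_of_nonneg_right (hq a).le (abs_nonneg _)
    have e3 := le_abs_self ((q a : ℝ) * (((φ b.1 : ℝ) - b.1) - ((φ a.1 : ℝ) - a.1)))
    have e4 := le_abs_self (((q a : ℝ) - t a) * (b.1 - a.1))
    have key : (q a : ℝ) * ((φ b.1 : ℝ) - φ a.1) < σ a * ((φ b.2 : ℝ) - φ a.2) := by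
      rcases hσ a with hs | hs <;> rw [hs] at g ⊢ <;> nlinarith
    nlinarith [mul_lt_mul_of_pos_left key hL']
  refine ⟨fun a => (z a.1, z a.2), fun a ha b hb hab => ?_, fun x hx => ?_, fun a ha hr => ?_⟩
  · by_contra hne
    have := main b hb a ha hne
    obtain ⟨e1, e2⟩ := Prod.mk.inj hab
    rw [e1, e2] at this
    simp at this
  · obtain ⟨a, ha, rfl⟩ := mem_image.1 hx
    refine ⟨q a, ?_⟩
    rcases hσ a with hs | hs
    · refine Or.inl fun y hy hya => ?_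
      obtain ⟨b, hb, rfl⟩ := mem_image.1 hy
      have := main a ha b hb fun e => hya (by rw [e])
      rw [hs, one_mul] at this
      exact_mod_cast this
    · refine Or.inr fun y hy hya => ?_
      obtain ⟨b, hb, rfl⟩ := mem_image.1 hy
      have := main a ha b hb fun e => hya (by rw [e])
      rw [hs, neg_one_mul, neg_sub] at this
      exact_mod_cast this
  · have r1 := congrArg (fun x : ℝ × ℝ => L * φ x.1) hr
    have r2 := congrArg (fun x : ℝ × ℝ => L * φ x.2) hr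
    simp only [Prod.fst_add, Prod.snd_add, map_add, mul_add] at r1 r2
    simp only [← hz _ (m1 _ (ha _)), ← hz _ (m2 _ (ha _))] at r1 r2
    refine Prod.ext ?_ ?_
    · simp only [Prod.fst_add]; exact_mod_cast r1
    · simp only [Prod.snd_add]; exact_mod_cast r2

/-- weighted number of solutions of a0 + a1 + a2 = a3 + a4 + a5 in X -/
noncomputable def W {G : Type} [AddCommGroup G] [DecidableEq G] (X : Finset G) (c : G → ℝ) : ℝ :=
  ∑ a ∈ (Fintype.piFinset fun _ : Fin 6 => X).filter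
    (fun a => a 0 + a 1 + a 2 = a 3 + a 4 + a 5), ∏ i, c (a i)

theorem red (C : ℝ)
    (H : ∀ (X : Finset (ℤ × ℤ)) (c : ℤ × ℤ → ℝ), (∀ a, 0 ≤ c a) → SupZ X → 2 ≤ X.card →
      W X c ≤ C * Real.log X.card * (∑ a ∈ X, c a ^ 2) ^ 3)
    (A : Finset (ℝ × ℝ)) (c : ℝ × ℝ → ℝ) (hc : ∀ a, 0 ≤ c a) (hA : Sup A) (h2 : 2 ≤ A.card) :
    W A c ≤ C * Real.log A.card * (∑ a ∈ A, c a ^ 2) ^ 3 := by
  classical
  obtain ⟨p, hp, hS, hr⟩ := toZ A hA
  have hne : Nonempty (ℝ × ℝ) := inferInstance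
  set r := Function.invFunOn p (A : Set (ℝ × ℝ)) with hrdef
  have hl : ∀ a ∈ A, r (p a) = a := fun a ha => hp.leftInvOn_invFunOn ha
  have hcard : (A.image p).card = A.card := card_image_of_injOn hp
  have h := H (A.image p) (fun x => c (r x)) (fun _ => hc _) hS (hcard ▸ h2)
  rw [hcard, sum_image hp, sum_congr rfl fun a ha => by rw [hl a ha]] at h
  refine le_trans ?_ h
  unfold W
  set T := (Fintype.piFinset fun _ : Fin 6 => A).filter
    (fun a => a 0 + a 1 + a 2 = a 3 + a 4 + a 5) with hT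
  have hm : ∀ a ∈ T, (∀ i, a i ∈ A) ∧ a 0 + a 1 + a 2 = a 3 + a 4 + a 5 := fun a ha => by
    simpa [hT, Fintype.mem_piFinset] using ha
  have hinj : Set.InjOn (fun (a : Fin 6 → ℝ × ℝ) i => p (a i)) T := fun a ha b hb e =>
    funext fun i => hp ((hm a ha).1 i) ((hm b hb).1 i) (congrFun e i)
  calc ∑ a ∈ T, ∏ i, c (a i) = ∑ a ∈ T, ∏ i, c (r (p (a i))) :=
        sum_congr rfl fun a ha => prod_congr rfl fun i _ => by rw [hl _ ((hm a ha).1 i)]
    _ = ∑ x ∈ T.image (fun (a : Fin 6 → ℝ × ℝ) i => p (a i)), ∏ i, c (r (x i)) := by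
        rw [sum_image hinj]
    _ ≤ _ := by
        refine sum_le_sum_of_subset_of_nonneg (fun x hx => ?_) fun _ _ _ => prod_nonneg fun _ _ => hc _
        obtain ⟨a, ha, rfl⟩ := mem_image.1 hx
        simp only [mem_filter, Fintype.mem_piFinset]
        exact ⟨fun i => mem_image_of_mem _ ((hm a ha).1 i), hr a (hm a ha).1 (hm a ha).2⟩

end E3R8
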