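import Mathlib

set_option autoImplicit false

namespace E3L
open Finset
open scoped ComplexConjugate

abbrev G (P : ℕ) := ZMod P × ZMod P

variable {P : ℕ} [NeZero P]

/-- the character of `G P` with integer frequency `a` -/
noncomputable def e (a : ℤ × ℤ) (x : G P) : ℂ :=
  ZMod.stdAddChar ((a.1 : ZMod P) * x.1 + (a.2 : ZMod P) * x.2)

lemma e_add (a b : ℤ × ℤ) (x : G P) : e (a + b) x = e a x * e b x := by
  unfold e
  rw [← AddChar.map_add_eq_mul]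
  congr 1
  simp only [Prod.fst_add, Prod.snd_add]
  push_cast
  ring

lemma norm_e (a : ℤ × ℤ) (x : G P) : ‖e a x‖ = 1 := by
  unfold e
  exact AddChar.norm_apply _ _

lemma e_neg (a : ℤ × ℤ) (x : G P) : e (-a) x = conj (e a x) := by
  unfold e
  rw [← AddChar.map_neg_eq_conj]
  congr 1
  simp only [Prod.fst_neg, Prod.snd_neg]
  push_cast
  ring

lemma e_zero (x : G P) : e 0 x = 1 := by
  simp [e]

lemma sum_e (a : ℤ × ℤ) : ∑ x : G P, e a x =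
    if (a.1 : ZMod P) = 0 ∧ (a.2 : ZMod P) = 0 then (P : ℂ) ^ 2 else 0 := by
  have h1 := AddChar.sum_mulShift (a.1 : ZMod P) (ZMod.isPrimitive_stdAddChar P)
  have h2 := AddChar.sum_mulShift (a.2 : ZMod P) (ZMod.isPrimitive_stdAddChar P)
  have : ∑ x : G P, e a x = (∑ s : ZMod P, ZMod.stdAddChar (s * (a.1 : ZMod P))) *
      ∑ t : ZMod P, ZMod.stdAddChar (t * (a.2 : ZMod P)) := by
    rw [Finset.sum_mul_sum, Fintype.sum_prod_type]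
    refine sum_congr rfl fun s _ => sum_congr rfl fun t _ => ?_
    unfold e
    rw [← AddChar.map_add_eq_mul]
    congr 1
    ring
  rw [this, h1, h2]
  by_cases ha : (a.1 : ZMod P) = 0 <;> by_cases hb : (a.2 : ZMod P) = 0 <;>
    simp [ha, hb, ZMod.card, sq]

/-- no wrap-around -/
def Nw (P : ℕ) (a : ℤ × ℤ) : Prop := |a.1| < P ∧ |a.2| < P

lemma sum_e_of_Nw (a : ℤ × ℤ) (h : Nw P a) :
    ∑ x : G P, e a x = if a = 0 then (P : ℂ) ^ 2 else 0 := by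
  rw [sum_e]
  have k : ∀ z : ℤ, |z| < P → ((z : ZMod P) = 0 ↔ z = 0) := by
    intro z hz
    constructor
    · intro h0
      rw [ZMod.intCast_zmod_eq_zero_iff_dvd] at h0
      exact Int.eq_zero_of_abs_lt_dvd h0 hz
    · rintro rfl
      simp
  simp only [k _ h.1, k _ h.2, Prod.ext_iff, Prod.fst_zero, Prod.snd_zero]

lemma sq_expand {ι : Type*} (S : Finset ι) (ν : ι → ℤ × ℤ) (c : ι → ℂ)
    (h : ∀ i ∈ S, ∀ j ∈ S, Nw P (ν i - ν j)) :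
    ((∑ x : G P, ‖∑ i ∈ S, c i * e (ν i) x‖ ^ 2 : ℝ) : ℂ) =
      (P : ℂ) ^ 2 * ∑ i ∈ S, ∑ j ∈ S, if ν i = ν j then c i * conj (c j) else 0 := by
  have h1 : ∀ x : G P, ((‖∑ i ∈ S, c i * e (ν i) x‖ ^ 2 : ℝ) : ℂ) =
      ∑ i ∈ S, ∑ j ∈ S, c i * conj (c j) * e (ν i - ν j) x := by
    intro x
    push_cast
    rw [← Complex.mul_conj', map_sum, Finset.sum_mul_sum]
    refine sum_congr rfl fun i _ => sum_congr rfl fun j _ => ?_
    rw [sub_eq_add_neg, e_add, e_neg, map_mul]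
    ring
  rw [Complex.ofReal_sum]
  simp_rw [h1]
  rw [Finset.sum_comm, Finset.mul_sum]
  refine sum_congr rfl fun i hi => ?_
  rw [Finset.sum_comm, Finset.mul_sum]
  refine sum_congr rfl fun j hj => ?_
  rw [← Finset.mul_sum, sum_e_of_Nw _ (h i hi j hj)]
  simp only [sub_eq_zero]
  split_ifs <;> ring

lemma L2_eq {ι : Type*} (S : Finset ι) (ν : ι → ℤ × ℤ) (c : ι → ℂ)
    (h : ∀ i ∈ S, ∀ j ∈ S, Nw P (ν i - ν j)) (hinj : ∀ i ∈ S, ∀ j ∈ S, ν i = ν j → i = j) :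
    ∑ x : G P, ‖∑ i ∈ S, c i * e (ν i) x‖ ^ 2 = (P : ℝ) ^ 2 * ∑ i ∈ S, ‖c i‖ ^ 2 := by
  classical
  have h1 := sq_expand S ν c h
  have h2 : ∀ i ∈ S, (∑ j ∈ S, if ν i = ν j then c i * conj (c j) else 0) =
      ((‖c i‖ ^ 2 : ℝ) : ℂ) := by
    intro i hi
    rw [Finset.sum_eq_single i]
    · simp [Complex.mul_conj']
    · intro j hj hji
      rw [if_neg]
      intro hh
      exact hji (hinj i hi j hj hh).symm
    · intro hh
      exact absurd hi hh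
  rw [sum_congr rfl h2] at h1
  exact_mod_cast h1

lemma L2_le {ι : Type*} (S : Finset ι) (ν : ι → ℤ × ℤ) (c : ι → ℂ) (μ : ℝ)
    (h : ∀ i ∈ S, ∀ j ∈ S, Nw P (ν i - ν j))
    (hμ : ∀ i ∈ S, (((S.filter fun j => ν j = ν i).card : ℕ) : ℝ) ≤ μ) :
    ∑ x : G P, ‖∑ i ∈ S, c i * e (ν i) x‖ ^ 2 ≤ μ * (P : ℝ) ^ 2 * ∑ i ∈ S, ‖c i‖ ^ 2 := by
  have h1 := sq_expand S ν c h
  have h0 : (0 : ℝ) ≤ ∑ x : G P, ‖∑ i ∈ S, c i * e (ν i) x‖ ^ 2 := by positivity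
  have h2 := congrArg (fun z : ℂ => ‖z‖) h1
  simp only [Complex.norm_real, Real.norm_of_nonneg h0, norm_mul, norm_pow,
    Complex.norm_natCast] at h2
  rw [h2, mul_comm μ, mul_assoc]
  refine mul_le_mul_of_nonneg_left ?_ (by positivity)
  have h3 : ‖∑ i ∈ S, ∑ j ∈ S, if ν i = ν j then c i * conj (c j) else 0‖ ≤
      ∑ i ∈ S, ∑ j ∈ S, ((if ν j = ν i then ‖c i‖ ^ 2 / 2 else 0) +
        (if ν i = ν j then ‖c j‖ ^ 2 / 2 else 0)) := by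
    refine (norm_sum_le _ _).trans (sum_le_sum fun i _ => ?_)
    refine (norm_sum_le _ _).trans (sum_le_sum fun j _ => ?_)
    by_cases hij : ν i = ν j
    · simp only [hij, if_true, norm_mul, Complex.norm_conj]
      nlinarith [sq_nonneg (‖c i‖ - ‖c j‖)]
    · have : ¬ ν j = ν i := fun hh => hij hh.symm
      simp [hij, this]
  refine h3.trans ?_
  simp_rw [sum_add_distrib]
  rw [Finset.sum_comm (s := S) (t := S) (f := fun i j => if ν i = ν j then ‖c j‖ ^ 2 / 2 else 0),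
    ← sum_add_distrib, Finset.mul_sum]
  refine sum_le_sum fun i hi => ?_
  rw [← Finset.sum_filter, sum_const, nsmul_eq_mul]
  have := hμ i hi
  nlinarith [sq_nonneg ‖c i‖]

/-- `F` is a trigonometric polynomial with frequencies in `Λ` -/
def Sp (F : G P → ℂ) (Λ : Finset (ℤ × ℤ)) : Prop :=
  ∃ c : ℤ × ℤ → ℂ, ∀ x, F x = ∑ a ∈ Λ, c a * e a x

lemma Sp_of_sum {ι : Type*} (S : Finset ι) (ν : ι → ℤ × ℤ) (c : ι → ℂ) (Λ : Finset (ℤ × ℤ))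
    (h : ∀ i ∈ S, ν i ∈ Λ) : Sp (fun x : G P => ∑ i ∈ S, c i * e (ν i) x) Λ := by
  refine ⟨fun a => ∑ i ∈ S.filter (fun i => ν i = a), c i, fun x => ?_⟩
  beta_reduce
  rw [← Finset.sum_fiberwise_of_maps_to h]
  refine sum_congr rfl fun a _ => ?_
  rw [Finset.sum_mul]
  refine sum_congr rfl fun i hi => ?_
  rw [(mem_filter.1 hi).2]

lemma Sp.mul {F F' : G P → ℂ} {Λ Λ' : Finset (ℤ × ℤ)} (h : Sp F Λ) (h' : Sp F' Λ')
    (Λ'' : Finset (ℤ × ℤ)) (hs : ∀ a ∈ Λ, ∀ b ∈ Λ', a + b ∈ Λ'') :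
    Sp (fun x => F x * F' x) Λ'' := by
  obtain ⟨c, hc⟩ := h
  obtain ⟨c', hc'⟩ := h'
  have := Sp_of_sum (P := P) (Λ ×ˢ Λ') (fun p => p.1 + p.2) (fun p => c p.1 * c' p.2) Λ''
    (fun p hp => hs _ (mem_product.1 hp).1 _ (mem_product.1 hp).2)
  convert this using 2 with x
  rw [hc, hc', Finset.sum_mul_sum, Finset.sum_product]
  refine sum_congr rfl fun a _ => sum_congr rfl fun b _ => ?_
  rw [e_add]
  ring

/-- small frequencies -/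
def Sm (P : ℕ) (Λ : Finset (ℤ × ℤ)) : Prop := ∀ a ∈ Λ, 4 * |a.1| < P ∧ 4 * |a.2| < P

omit [NeZero P] in
lemma Sm.nw {Λ : Finset (ℤ × ℤ)} (h : Sm P Λ) {a b : ℤ × ℤ} (ha : a ∈ Λ) (hb : b ∈ Λ) :
    Nw P (a - b) := by
  obtain ⟨h1, h2⟩ := h a ha
  obtain ⟨h3, h4⟩ := h b hb
  have k1 := abs_sub a.1 b.1
  have k2 := abs_sub a.2 b.2
  have := abs_nonneg a.1
  have := abs_nonneg b.1
  have := abs_nonneg a.2
  have := abs_nonneg b.2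
  constructor <;> simp only [Prod.fst_sub, Prod.snd_sub] <;> linarith

lemma Sp.nik {F : G P → ℂ} {Λ : Finset (ℤ × ℤ)} (h : Sp F Λ) (hs : Sm P Λ) (x : G P) :
    (P : ℝ) ^ 2 * ‖F x‖ ^ 2 ≤ Λ.card * ∑ y, ‖F y‖ ^ 2 := by
  obtain ⟨c, hc⟩ := h
  simp_rw [hc]
  rw [L2_eq Λ (fun a => a) c (fun i hi j hj => hs.nw hi hj) (fun i _ j _ h => h)]
  have h1 : ‖∑ a ∈ Λ, c a * e a x‖ ≤ ∑ a ∈ Λ, ‖c a‖ := by
    refine (norm_sum_le _ _).trans (sum_le_sum fun a _ => ?_)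
    rw [norm_mul, norm_e, mul_one]
  have h2 : ‖∑ a ∈ Λ, c a * e a x‖ ^ 2 ≤ Λ.card * ∑ a ∈ Λ, ‖c a‖ ^ 2 :=
    (pow_le_pow_left₀ (norm_nonneg _) h1 2).trans sq_sum_le_card_mul_sum_sq
  nlinarith [sq_nonneg (P : ℝ)]

lemma Sp_overlap {κ : Type*} (S : Finset κ) (F : κ → G P → ℂ) (Λ : κ → Finset (ℤ × ℤ))
    (Λ₀ : Finset (ℤ × ℤ)) (μ : ℝ) (h : ∀ s ∈ S, Sp (F s) (Λ s)) (hsub : ∀ s ∈ S, Λ s ⊆ Λ₀)
    (hs : Sm P Λ₀) (hμ : ∀ a, (((S.filter fun s => a ∈ Λ s).card : ℕ) : ℝ) ≤ μ) :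
    ∑ x, ‖∑ s ∈ S, F s x‖ ^ 2 ≤ μ * ∑ s ∈ S, ∑ x, ‖F s x‖ ^ 2 := by
  classical
  choose! c hc using h
  have h1 : ∀ x, ∑ s ∈ S, F s x = ∑ p ∈ S.sigma Λ, c p.1 p.2 * e p.2 x := by
    intro x
    rw [Finset.sum_sigma]
    exact sum_congr rfl fun s hs => hc s hs x
  have h2 : ∀ s ∈ S, ∑ x, ‖F s x‖ ^ 2 = (P : ℝ) ^ 2 * ∑ a ∈ Λ s, ‖c s a‖ ^ 2 := by
    intro s hs'
    simp_rw [hc s hs']
    exact L2_eq (Λ s) (fun a => a) (c s)
      (fun i hi j hj => hs.nw (hsub s hs' hi) (hsub s hs' hj)) (fun i _ j _ h => h)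
  simp_rw [h1]
  rw [sum_congr rfl h2, ← Finset.mul_sum, ← mul_assoc,
    ← Finset.sum_sigma (s := S) (t := Λ) (f := fun p => ‖c p.1 p.2‖ ^ 2)]
  refine L2_le (S.sigma Λ) (fun p => p.2) (fun p => c p.1 p.2) μ (fun i hi j hj => ?_)
    (fun i _ => ?_)
  · exact hs.nw (hsub _ (mem_sigma.1 hi).1 (mem_sigma.1 hi).2)
      (hsub _ (mem_sigma.1 hj).1 (mem_sigma.1 hj).2)
  · refine le_trans ?_ (hμ i.2)
    norm_cast
    refine Finset.card_le_card_of_injOn (fun p => p.1) (fun p hp => ?_) (fun p hp q hq hpq => ?_)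
    · simp only [coe_filter, mem_sigma, Set.mem_ofPred_eq] at hp ⊢
      exact ⟨hp.1.1, hp.2 ▸ hp.1.2⟩
    · simp only [coe_filter, mem_sigma, Set.mem_ofPred_eq] at hp hq
      obtain ⟨p1, p2⟩ := p
      obtain ⟨q1, q2⟩ := q
      simp only at hpq hp hq
      subst hpq
      rw [hp.2, hq.2]

lemma Sp.bilin {F F' : G P → ℂ} {Λ Λ' : Finset (ℤ × ℤ)} (h : Sp F Λ) (h' : Sp F' Λ')
    (hs : Sm P Λ) (hs' : Sm P Λ') (μ : ℝ)
    (hμ : ∀ p ∈ Λ ×ˢ Λ', ((((Λ ×ˢ Λ').filter fun q => q.1 + q.2 = p.1 + p.2).card : ℕ) : ℝ) ≤ μ) :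
    (P : ℝ) ^ 2 * ∑ x, ‖F x * F' x‖ ^ 2 ≤ μ * ((∑ x, ‖F x‖ ^ 2) * ∑ x, ‖F' x‖ ^ 2) := by
  obtain ⟨c, hc⟩ := h
  obtain ⟨c', hc'⟩ := h'
  have h1 : ∀ x, F x * F' x = ∑ p ∈ Λ ×ˢ Λ', (c p.1 * c' p.2) * e (p.1 + p.2) x := by
    intro x
    rw [hc, hc', Finset.sum_mul_sum, Finset.sum_product]
    refine sum_congr rfl fun a _ => sum_congr rfl fun b _ => ?_
    rw [e_add]
    ring
  simp_rw [h1, hc, hc']
  rw [L2_eq Λ (fun a => a) c (fun i hi j hj => hs.nw hi hj) (fun i _ j _ h => h),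
    L2_eq Λ' (fun a => a) c' (fun i hi j hj => hs'.nw hi hj) (fun i _ j _ h => h)]
  have h2 := L2_le (P := P) (Λ ×ˢ Λ') (fun p => p.1 + p.2) (fun p => c p.1 * c' p.2) μ
    (fun i hi j hj => by
      obtain ⟨a1, a2⟩ := hs _ (mem_product.1 hi).1
      obtain ⟨a3, a4⟩ := hs' _ (mem_product.1 hi).2
      obtain ⟨a5, a6⟩ := hs _ (mem_product.1 hj).1
      obtain ⟨a7, a8⟩ := hs' _ (mem_product.1 hj).2
      constructor <;> simp only [Prod.fst_sub, Prod.snd_sub, Prod.fst_add, Prod.snd_add] <;>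
        rw [abs_lt] <;> constructor <;>
        linarith [le_abs_self i.1.1, le_abs_self i.2.1, le_abs_self j.1.1, le_abs_self j.2.1,
          neg_abs_le i.1.1, neg_abs_le i.2.1, neg_abs_le j.1.1, neg_abs_le j.2.1,
          le_abs_self i.1.2, le_abs_self i.2.2, le_abs_self j.1.2, le_abs_self j.2.2,
          neg_abs_le i.1.2, neg_abs_le i.2.2, neg_abs_le j.1.2, neg_abs_le j.2.2]) hμ
  have h3 : ∑ i ∈ Λ ×ˢ Λ', ‖c i.1 * c' i.2‖ ^ 2 = (∑ a ∈ Λ, ‖c a‖ ^ 2) * ∑ a ∈ Λ', ‖c' a‖ ^ 2 := by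
    rw [Finset.sum_mul_sum, Finset.sum_product]
    refine sum_congr rfl fun a _ => sum_congr rfl fun b _ => ?_
    rw [norm_mul, mul_pow]
  rw [h3] at h2
  have := mul_le_mul_of_nonneg_left h2 (sq_nonneg (P : ℝ))
  refine this.trans (le_of_eq ?_)
  ring

end E3L
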