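import Pool.Agent.Lib.MP_4d4569_co.E3Core

set_option autoImplicit false

namespace E3L
open Finset Filter

variable {ι : Type*}

/-- `t a` is the slope of a strict lower support line at `a` -/
def Tang (γ : ι → ℤ × ℤ) (t : ι → ℤ) (X : Finset ι) : Prop :=
  ∀ a ∈ X, ∀ b ∈ X, a ≠ b → t a * ((γ b).1 - (γ a).1) < (γ b).2 - (γ a).2

lemma Tang.mono {γ : ι → ℤ × ℤ} {t : ι → ℤ} {X Y : Finset ι} (h : Tang γ t X) (hY : Y ⊆ X) :
    Tang γ t Y := fun a ha b hb => h a (hY ha) b (hY hb)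

lemma Tang.inj {γ : ι → ℤ × ℤ} {t : ι → ℤ} {X : Finset ι} (h : Tang γ t X) {a b : ι} (ha : a ∈ X)
    (hb : b ∈ X) (hab : (γ a).1 = (γ b).1) : a = b := by
  by_contra hh
  have h1 := h a ha b hb hh
  have h2 := h b hb a ha (Ne.symm hh)
  rw [hab, sub_self, mul_zero] at h1 h2
  linarith

lemma Tang.lt {γ : ι → ℤ × ℤ} {t : ι → ℤ} {X : Finset ι} (h : Tang γ t X) {a b : ι} (ha : a ∈ X)
    (hb : b ∈ X) (hab : (γ a).1 < (γ b).1) : t a < t b := by
  have hh : a ≠ b := by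
    rintro rfl
    exact lt_irrefl _ hab
  have h1 := h a ha b hb hh
  have h2 := h b hb a ha (Ne.symm hh)
  nlinarith

lemma Tang.le {γ : ι → ℤ × ℤ} {t : ι → ℤ} {X : Finset ι} (h : Tang γ t X) {a b : ι} (ha : a ∈ X)
    (hb : b ∈ X) (hab : (γ a).1 ≤ (γ b).1) : t a ≤ t b := by
  rcases hab.eq_or_lt with h1 | h1
  · rw [h.inj ha hb h1]
  · exact (h.lt ha hb h1).le

lemma Tang.chord {γ : ι → ℤ × ℤ} {t : ι → ℤ} {X : Finset ι} (h : Tang γ t X) {a b u v : ι}
    (ha : a ∈ X) (hb : b ∈ X) (hu : u ∈ X) (hv : v ∈ X) (h1 : (γ b).1 < (γ a).1)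
    (h2 : (γ a).1 ≤ (γ v).1) (h3 : (γ a).1 - (γ b).1 = (γ u).1 - (γ v).1) :
    (γ a).2 - (γ b).2 < (γ u).2 - (γ v).2 := by
  have k1 := h a ha b hb (by rintro rfl; exact lt_irrefl _ h1)
  have k2 := h v hv u hu (by rintro rfl; linarith)
  have k3 := h.le ha hv h2
  rw [← h3] at k2
  nlinarith

lemma Tang.sid {γ : ι → ℤ × ℤ} {t : ι → ℤ} {X : Finset ι} (h : Tang γ t X) : Sid γ X := by
  have key : ∀ a ∈ X, ∀ b ∈ X, ∀ u ∈ X, ∀ v ∈ X, γ a - γ b = γ u - γ v → (γ b).1 < (γ a).1 →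
      (γ b).1 < (γ v).1 → False := by
    intro a ha b hb u hu v hv e h1 h2
    have e1 : (γ a).1 - (γ b).1 = (γ u).1 - (γ v).1 := congrArg Prod.fst e
    have e2 : (γ a).2 - (γ b).2 = (γ u).2 - (γ v).2 := congrArg Prod.snd e
    rcases le_total (γ a).1 (γ v).1 with k | k
    · have := h.chord ha hb hu hv h1 k e1
      linarith
    · have := h.chord hv hb hu ha h2 k (by linarith)
      linarith
  intro a ha b hb u hu v hv e
  have e1 : (γ a).1 - (γ b).1 = (γ u).1 - (γ v).1 := congrArg Prod.fst e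
  have e' : γ b - γ a = γ v - γ u := by rw [← neg_sub, e, neg_sub]
  rcases lt_trichotomy (γ a).1 (γ b).1 with k | k | k
  · rcases lt_trichotomy (γ a).1 (γ u).1 with l | l | l
    · exact (key b hb a ha v hv u hu e' k l).elim
    · exact Or.inr ⟨h.inj ha hu l, h.inj hb hv (by linarith)⟩
    · exact (key v hv u hu b hb a ha e'.symm (by linarith) l).elim
  · exact Or.inl (h.inj ha hb k)
  · rcases lt_trichotomy (γ b).1 (γ v).1 with l | l | l
    · exact (key a ha b hb u hu v hv e k l).elim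
    · exact Or.inr ⟨h.inj ha hu (by linarith), h.inj hb hv l⟩
    · exact (key u hu v hv a ha b hb e.symm (by linarith) l).elim

lemma Tang.lo {γ : ι → ℤ × ℤ} {t : ι → ℤ} {X : Finset ι} (h : Tang γ t X) {B : ℤ}
    (hB : ∀ a ∈ X, B ≤ t a) {a b : ι} (ha : a ∈ X) (hb : b ∈ X) :
    (0 ≤ (γ a).1 - (γ b).1 → B * ((γ a).1 - (γ b).1) ≤ (γ a).2 - (γ b).2) ∧
      ((γ a).1 - (γ b).1 ≤ 0 → (γ a).2 - (γ b).2 ≤ B * ((γ a).1 - (γ b).1)) := by
  by_cases hab : a = b
  · simp [hab]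
  have h1 := h a ha b hb hab
  have h2 := h b hb a ha (Ne.symm hab)
  have h3 := hB a ha
  have h4 := hB b hb
  constructor <;> intro k <;> nlinarith

lemma Tang.hi {γ : ι → ℤ × ℤ} {t : ι → ℤ} {X : Finset ι} (h : Tang γ t X) {B : ℤ}
    (hB : ∀ a ∈ X, t a ≤ B) {a b : ι} (ha : a ∈ X) (hb : b ∈ X) :
    (0 ≤ (γ a).1 - (γ b).1 → (γ a).2 - (γ b).2 ≤ B * ((γ a).1 - (γ b).1)) ∧
      ((γ a).1 - (γ b).1 ≤ 0 → B * ((γ a).1 - (γ b).1) ≤ (γ a).2 - (γ b).2) := by
  by_cases hab : a = b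
  · simp [hab]
  have h1 := h a ha b hb hab
  have h2 := h b hb a ha (Ne.symm hab)
  have h3 := hB a ha
  have h4 := hB b hb
  constructor <;> intro k <;> nlinarith

/-- an integer linear change of frequencies -/
def lin (p q r s : ℤ) (γ : ι → ℤ × ℤ) (a : ι) : ℤ × ℤ :=
  (p * (γ a).1 + q * (γ a).2, r * (γ a).1 + s * (γ a).2)

/-- the dual map -/
def dual {P : ℕ} (p q r s : ℤ) (x : G P) : G P := (p * x.1 + r * x.2, q * x.1 + s * x.2)

lemma fs_lin {P : ℕ} [NeZero P] (p q r s : ℤ) (γ : ι → ℤ × ℤ) (c : ι → ℂ) (X : Finset ι)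
    (x : G P) : fs (lin p q r s γ) c X x = fs γ c X (dual p q r s x) := by
  unfold fs e lin dual
  refine sum_congr rfl fun a _ => ?_
  congr 2
  push_cast
  ring

lemma Sid.lin {γ : ι → ℤ × ℤ} {X : Finset ι} (h : Sid γ X) {p q r s : ℤ} (hd : p * s - q * r ≠ 0) :
    Sid (lin p q r s γ) X := by
  intro a ha b hb u hu v hv e
  refine h a ha b hb u hu v hv ?_
  have e1 := congrArg Prod.fst e
  have e2 := congrArg Prod.snd e
  simp only [E3L.lin, Prod.fst_sub, Prod.snd_sub] at e1 e2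
  refine Prod.ext (mul_left_cancel₀ hd ?_) (mul_left_cancel₀ hd ?_)
  · simp only [Prod.fst_sub]
    linear_combination s * e1 - q * e2
  · simp only [Prod.snd_sub]
    linear_combination p * e2 - r * e1

/-- large primes -/
def PF : Filter ℕ := atTop ⊓ principal {P | P.Prime}

lemma PF_neBot : PF.NeBot := by
  rw [PF, ← frequently_iff_neBot, frequently_atTop]
  intro n
  obtain ⟨p, h1, h2⟩ := Nat.exists_infinite_primes n
  exact ⟨p, h1, h2⟩

lemma dual_bij (p q r s : ℤ) (hd : p * s - q * r ≠ 0) :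
    ∀ᶠ P : ℕ in PF, ∀ [NeZero P], Function.Bijective (dual (P := P) p q r s) := by
  have h1 : ∀ᶠ P : ℕ in PF, (p * s - q * r).natAbs < P :=
    (eventually_gt_atTop _).filter_mono inf_le_left
  have h2 : ∀ᶠ P : ℕ in PF, P.Prime := mem_inf_of_right (mem_principal_self _)
  filter_upwards [h1, h2] with P k1 k2 _
  have := Fact.mk k2
  have k3 : ((p * s - q * r : ℤ) : ZMod P) ≠ 0 := by
    rw [Ne, ZMod.intCast_zmod_eq_zero_iff_dvd]
    intro hh
    refine hd (Int.eq_zero_of_abs_lt_dvd hh ?_)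
    rw [Int.abs_eq_natAbs]
    exact_mod_cast k1
  push_cast at k3
  rw [← Finite.injective_iff_bijective]
  intro x y e
  have e1 := congrArg Prod.fst e
  have e2 := congrArg Prod.snd e
  simp only [dual] at e1 e2
  refine Prod.ext (mul_left_cancel₀ k3 ?_) (mul_left_cancel₀ k3 ?_)
  · linear_combination (s : ZMod P) * e1 - (r : ZMod P) * e2
  · linear_combination (p : ZMod P) * e2 - (q : ZMod P) * e1

/-- admissible pairs -/
def Adm (γ : ι → ℤ × ℤ) (I J : Finset ι) : Prop :=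
  ∃ α β : ℤ, α ≠ β ∧ Tr (lin β (-1) (-α) 1 γ) I J

lemma adm_bound (γ : ι → ℤ × ℤ) (c : ι → ℂ) (I J : Finset ι) (sI : Sid γ I) (sJ : Sid γ J)
    (h : Adm γ I J) : ∀ᶠ P : ℕ in PF, ∀ [NeZero P], ∀ b : ℝ, 0 < b →
      b ^ 6 * (univ.filter fun x : G P => b ≤ ‖fs γ c I x‖ ∧ b ≤ ‖fs γ c J x‖).card ≤
        10 ^ 38 * (ms c I + ms c J) ^ 3 * (P : ℝ) ^ 2 := by
  obtain ⟨α, β, hne, ht⟩ := h
  have hd : β * 1 - (-1) * (-α) ≠ 0 := by omega
  filter_upwards [(core _ c I J (sI.lin hd) (sJ.lin hd) ht).filter_mono inf_le_left,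
    dual_bij _ _ _ _ hd] with P h1 h2 _ b hb
  refine le_trans (le_of_eq ?_) (h1 b hb)
  congr 2
  symm
  refine card_bijective _ h2 fun x => ?_
  simp only [mem_filter, mem_univ, true_and, fs_lin]

lemma adm_left {γ : ι → ℤ × ℤ} {t : ι → ℤ} {I J : Finset ι} (hI : Tang γ t I) (hJ : Tang γ t J)
    {B C D : ℤ} (h1 : ∀ a ∈ I, B ≤ t a) (h2 : ∀ a ∈ I, t a ≤ C) (h3 : ∀ a ∈ J, D ≤ t a)
    (h4 : C < D) (h5 : C - B ≤ D - C) : Adm γ I J := by
  refine ⟨C, D, h4.ne, fun a ha b hb => ?_, fun a ha b hb => ?_⟩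
  · obtain ⟨k1, k2⟩ := hI.lo h1 ha hb
    obtain ⟨k3, k4⟩ := hI.hi h2 ha hb
    simp only [lin]
    rcases le_total 0 ((γ a).1 - (γ b).1) with k | k
    · have := k1 k
      have := k3 k
      rw [abs_of_nonpos (by nlinarith), abs_of_nonneg (by nlinarith)]
      nlinarith
    · have := k2 k
      have := k4 k
      rw [abs_of_nonneg (by nlinarith), abs_of_nonpos (by nlinarith)]
      nlinarith
  · obtain ⟨k1, k2⟩ := hJ.lo h3 ha hb
    simp only [lin]
    rcases le_total 0 ((γ a).1 - (γ b).1) with k | k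
    · have := k1 k
      rw [abs_of_nonpos (by nlinarith), abs_of_nonneg (by nlinarith)]
      nlinarith
    · have := k2 k
      rw [abs_of_nonneg (by nlinarith), abs_of_nonpos (by nlinarith)]
      nlinarith

lemma adm_right {γ : ι → ℤ × ℤ} {t : ι → ℤ} {I J : Finset ι} (hI : Tang γ t I) (hJ : Tang γ t J)
    {B C D : ℤ} (h1 : ∀ a ∈ I, C ≤ t a) (h2 : ∀ a ∈ I, t a ≤ D) (h3 : ∀ a ∈ J, t a ≤ B)
    (h4 : B < C) (h5 : D - C ≤ C - B) : Adm γ I J := by
  refine ⟨C, B, h4.ne', fun a ha b hb => ?_, fun a ha b hb => ?_⟩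
  · obtain ⟨k1, k2⟩ := hI.lo h1 ha hb
    obtain ⟨k3, k4⟩ := hI.hi h2 ha hb
    simp only [lin]
    rcases le_total 0 ((γ a).1 - (γ b).1) with k | k
    · have := k1 k
      have := k3 k
      rw [abs_of_nonneg (by nlinarith), abs_of_nonpos (by nlinarith)]
      nlinarith
    · have := k2 k
      have := k4 k
      rw [abs_of_nonpos (by nlinarith), abs_of_nonneg (by nlinarith)]
      nlinarith
  · obtain ⟨k1, k2⟩ := hJ.hi h3 ha hb
    simp only [lin]
    rcases le_total 0 ((γ a).1 - (γ b).1) with k | k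
    · have := k1 k
      rw [abs_of_nonneg (by nlinarith), abs_of_nonpos (by nlinarith)]
      nlinarith
    · have := k2 k
      rw [abs_of_nonpos (by nlinarith), abs_of_nonneg (by nlinarith)]
      nlinarith

/-- mass up to and including `a` -/
noncomputable def cum' (c : ι → ℂ) (X : Finset ι) (h : ι → ℤ) (a : ι) : ℝ :=
  ms c (X.filter fun b => h b ≤ h a)

/-- arc index -/
noncomputable def arc (c : ι → ℂ) (X : Finset ι) (h : ι → ℤ) (m : ℝ) (a : ι) : ℕ :=
  ⌊cum c X h a / m⌋₊ + ⌊cum' c X h a / m⌋₊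

lemma arc_mono (c : ι → ℂ) (X : Finset ι) (h : ι → ℤ) {m : ℝ} (hm : 0 < m) {a b : ι}
    (hab : h a ≤ h b) : arc c X h m a ≤ arc c X h m b := by
  refine add_le_add (blk_mono c X h hm hab) (Nat.floor_le_floor
    (div_le_div_of_nonneg_right (ms_mono c fun z hz => ?_) hm.le))
  exact mem_filter.2 ⟨(mem_filter.1 hz).1, (mem_filter.1 hz).2.trans hab⟩

lemma arc_lt (c : ι → ℂ) (X : Finset ι) (h : ι → ℤ) (hn : 0 < ms c X) (a : ι) :
    arc c X h (ms c X / 400) a < 801 := by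
  have key : ∀ Y ⊆ X, ⌊ms c Y / (ms c X / 400)⌋₊ ≤ 400 := by
    intro Y hY
    refine Nat.floor_le_of_le ?_
    rw [div_le_iff₀ (by positivity)]
    have := ms_mono c hY
    push_cast
    linarith
  have h1 := key _ (filter_subset (fun b => h b < h a) X)
  have h2 := key _ (filter_subset (fun b => h b ≤ h a) X)
  unfold arc cum cum'
  omega

lemma arc_class (c : ι → ℂ) (X : Finset ι) (h : ι → ℤ) {m : ℝ} (hm : 0 < m)
    (hinj : ∀ a ∈ X, ∀ b ∈ X, h a = h b → a = b) (i : ℕ) :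
    (X.filter fun a => arc c X h m a = i).card ≤ 1 ∨
      ms c (X.filter fun a => arc c X h m a = i) ≤ m := by
  classical
  rcases (X.filter fun a => arc c X h m a = i).eq_empty_or_nonempty with h0 | h0
  · left
    simp [h0]
  obtain ⟨a, ha, hmin⟩ := exists_min_image _ h h0
  obtain ⟨b, hb, hmax⟩ := exists_max_image _ h h0
  rcases (hmin b hb).eq_or_lt with k | k
  · left
    refine card_le_one.2 fun u hu v hv => hinj u (mem_filter.1 hu).1 v (mem_filter.1 hv).1 ?_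
    have := hmin u hu
    have := hmin v hv
    have := hmax u hu
    have := hmax v hv
    omega
  · right
    have fl : ∀ Y Z : Finset ι, Y ⊆ Z → ⌊ms c Y / m⌋₊ ≤ ⌊ms c Z / m⌋₊ := fun Y Z hYZ =>
      Nat.floor_le_floor (div_le_div_of_nonneg_right (ms_mono c hYZ) hm.le)
    have s1 : (X.filter fun z => h z < h a) ⊆ X.filter fun z => h z ≤ h a := fun z hz =>
      mem_filter.2 ⟨(mem_filter.1 hz).1, (mem_filter.1 hz).2.le⟩
    have s2 : (X.filter fun z => h z ≤ h a) ⊆ X.filter fun z => h z < h b := fun z hz =>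
      mem_filter.2 ⟨(mem_filter.1 hz).1, (mem_filter.1 hz).2.trans_lt k⟩
    have s3 : (X.filter fun z => h z < h b) ⊆ X.filter fun z => h z ≤ h b := fun z hz =>
      mem_filter.2 ⟨(mem_filter.1 hz).1, (mem_filter.1 hz).2.le⟩
    have f1 := fl _ _ s1
    have f2 := fl _ _ s2
    have f3 := fl _ _ s3
    have e1 := (mem_filter.1 ha).2
    have e2 := (mem_filter.1 hb).2
    unfold arc cum cum' at e1 e2
    have h4 := floor_close (u := ms c (X.filter fun z => h z < h a))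
      (v := ms c (X.filter fun z => h z ≤ h b)) hm (ms_nonneg _ _) (by omega)
    have h2 := sum_sdiff (f := fun z => ‖c z‖ ^ 2) (s1.trans (s2.trans s3))
    have h3 : ms c (X.filter fun a => arc c X h m a = i) ≤
        ms c ((X.filter fun z => h z ≤ h b) \ X.filter fun z => h z < h a) :=
      ms_mono c fun z hz => mem_sdiff.2 ⟨mem_filter.2 ⟨(mem_filter.1 hz).1, hmax z hz⟩,
        fun hh => absurd (mem_filter.1 hh).2 (not_lt.2 (hmin z hz))⟩
    unfold ms at *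
    linarith

lemma four_arcs {γ : ι → ℤ × ℤ} {t : ι → ℤ} {X : Finset ι} (h : Tang γ t X) (ix : ι → ℕ)
    (mono : ∀ a ∈ X, ∀ b ∈ X, (γ a).1 ≤ (γ b).1 → ix a ≤ ix b) (S : Finset ℕ) (hS : 4 ≤ S.card)
    (hne : ∀ i ∈ S, (X.filter fun a => ix a = i).Nonempty) :
    ∃ i ∈ S, ∃ j ∈ S, Adm γ (X.filter fun a => ix a = i) (X.filter fun a => ix a = j) := by
  set f := S.orderEmbOfCardLe hS with hf
  have fm : ∀ i, f i ∈ S := fun i => orderEmbOfCardLe_mem S hS i
  have key : ∀ i j : Fin 4, i < j → ∀ a ∈ X.filter (fun a => ix a = f i),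
      ∀ b ∈ X.filter (fun a => ix a = f j), t a < t b := by
    intro i j hij a ha b hb
    obtain ⟨ha, ha'⟩ := mem_filter.1 ha
    obtain ⟨hb, hb'⟩ := mem_filter.1 hb
    refine h.lt ha hb ?_
    by_contra hh
    have k1 := mono b hb a ha (not_lt.1 hh)
    have k2 := f.strictMono hij
    omega
  obtain ⟨b, hb, hB⟩ := exists_min_image _ t (hne _ (fm 1))
  obtain ⟨u, hu, hC⟩ := exists_min_image _ t (hne _ (fm 2))
  obtain ⟨v, hv, hD⟩ := exists_min_image _ t (hne _ (fm 3))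
  have tg : ∀ i, Tang γ t (X.filter fun a => ix a = i) := fun i => h.mono (filter_subset _ _)
  rcases le_total (t u - t b) (t v - t u) with k | k
  · exact ⟨_, fm 1, _, fm 3, adm_left (tg _) (tg _) hB
      (fun a ha => (key 1 2 (by decide) a ha u hu).le) hD (key 2 3 (by decide) u hu v hv) k⟩
  · exact ⟨_, fm 2, _, fm 0, adm_right (tg _) (tg _) hC
      (fun a ha => (key 2 3 (by decide) a ha v hv).le)
      (fun a ha => (key 0 1 (by decide) a ha b hb).le) (key 1 2 (by decide) b hb u hu) k⟩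

end E3L
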