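import Pool.Agent.Lib.MP_4d4569_co.E3Final

set_option autoImplicit false

/-! Sanity corollaries of `SharpLog.result`: circle and parabola.  Not hand-ins. -/

namespace E3L
open Finset

lemma notMem_hull_of_line (A : Finset (ℝ × ℝ)) (a : ℝ × ℝ) (p q : ℝ)
    (h : ∀ b ∈ A, b ≠ a → 0 < p * (b.1 - a.1) + q * (b.2 - a.2)) :
    a ∉ convexHull ℝ ((A : Set (ℝ × ℝ)) \ {a}) := by
  intro ha
  have hc : Convex ℝ {b : ℝ × ℝ | p * a.1 + q * a.2 < p * b.1 + q * b.2} :=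
    convex_halfSpace_gt ⟨fun x y => by simp only [Prod.fst_add, Prod.snd_add]; ring,
      fun r x => by simp only [Prod.smul_fst, Prod.smul_snd, smul_eq_mul]; ring⟩ _
  have := convexHull_min (fun b hb => by
    have := h b hb.1 hb.2
    change p * a.1 + q * a.2 < p * b.1 + q * b.2
    linarith) hc ha
  exact lt_irrefl (p * a.1 + q * a.2) this

lemma circle_convex (A : Finset (ℝ × ℝ)) (h : ∀ a ∈ A, a.1 ^ 2 + a.2 ^ 2 = 1) :
    ∀ a ∈ A, a ∉ convexHull ℝ ((A : Set (ℝ × ℝ)) \ {a}) := by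
  intro a ha
  refine notMem_hull_of_line A a (-a.1) (-a.2) fun b hb hab => ?_
  have h1 := h a ha
  have h2 := h b hb
  by_contra hh
  have k1 : (b.1 - a.1) ^ 2 = 0 := by nlinarith [sq_nonneg (b.1 - a.1), sq_nonneg (b.2 - a.2)]
  have k2 : (b.2 - a.2) ^ 2 = 0 := by nlinarith [sq_nonneg (b.1 - a.1), sq_nonneg (b.2 - a.2)]
  rw [sq_eq_zero_iff, sub_eq_zero] at k1 k2
  exact hab (Prod.ext k1 k2)

lemma parabola_convex (A : Finset (ℝ × ℝ)) (h : ∀ a ∈ A, a.2 = a.1 ^ 2) :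
    ∀ a ∈ A, a ∉ convexHull ℝ ((A : Set (ℝ × ℝ)) \ {a}) := by
  intro a ha
  refine notMem_hull_of_line A a (-2 * a.1) 1 fun b hb hab => ?_
  have h1 := h a ha
  have h2 := h b hb
  have k : b.1 - a.1 ≠ 0 := fun e => hab (Prod.ext (sub_eq_zero.1 e) (by
    rw [h1, h2, sub_eq_zero.1 e]))
  have := sq_pos_of_ne_zero k
  nlinarith

theorem energy_circle_parabola : ∃ C : ℝ, ∀ A : Finset (ℝ × ℝ),
    ((∀ a ∈ A, a.1 ^ 2 + a.2 ^ 2 = 1) ∨ ∀ a ∈ A, a.2 = a.1 ^ 2) → 2 ≤ A.card →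
    ((((Fintype.piFinset fun _ : Fin 6 => A).filter
      (fun a => a 0 + a 1 + a 2 = a 3 + a 4 + a 5)).card : ℕ) : ℝ) ≤
      C * (A.card : ℝ) ^ 3 * Real.log A.card := by
  refine ⟨10 ^ 71, fun A h hA => ?_⟩
  have := real_bound A (fun _ => 1) (fun a ha => support_line A a
    (h.elim (circle_convex A) (parabola_convex A) a ha)) hA
  simp only [prod_const_one, sum_const, nsmul_eq_mul, mul_one, one_pow] at this
  linarith

end E3L
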