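import Pool.Agent.Lib.MP_4d4569_co.E3Local

set_option autoImplicit false

namespace E3L
open Finset
open scoped ComplexConjugate

variable {P : ℕ} [NeZero P] {ι : Type*}

/-- mass of `X` -/
noncomputable def ms (c : ι → ℂ) (X : Finset ι) : ℝ := ∑ a ∈ X, ‖c a‖ ^ 2

/-- mass strictly before `a` -/
noncomputable def cum (c : ι → ℂ) (X : Finset ι) (h : ι → ℤ) (a : ι) : ℝ :=
  ms c (X.filter fun b => h b < h a)

/-- block index -/
noncomputable def blk (c : ι → ℂ) (X : Finset ι) (h : ι → ℤ) (m : ℝ) (a : ι) : ℕ :=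
  ⌊cum c X h a / m⌋₊

/-- Sidon property -/
def Sid (γ : ι → ℤ × ℤ) (X : Finset ι) : Prop :=
  ∀ a ∈ X, ∀ b ∈ X, ∀ u ∈ X, ∀ v ∈ X, γ a - γ b = γ u - γ v → a = b ∨ (a = u ∧ b = v)

lemma Sid.inj {γ : ι → ℤ × ℤ} {X : Finset ι} (h : Sid γ X) :
    ∀ a ∈ X, ∀ b ∈ X, γ a = γ b → a = b := by
  intro a ha b hb hab
  rcases h a ha b hb a ha a ha (by rw [hab]) with h1 | h1
  · exact h1
  · exact h1.2.symm

lemma ms_nonneg (c : ι → ℂ) (X : Finset ι) : 0 ≤ ms c X := sum_nonneg fun _ _ => by positivity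

lemma ms_mono (c : ι → ℂ) {X Y : Finset ι} (h : X ⊆ Y) : ms c X ≤ ms c Y :=
  sum_le_sum_of_subset_of_nonneg h fun _ _ _ => by positivity

lemma cum_mono (c : ι → ℂ) (X : Finset ι) (h : ι → ℤ) {a b : ι} (hab : h a ≤ h b) :
    cum c X h a ≤ cum c X h b :=
  ms_mono c fun _ hz => mem_filter.2 ⟨(mem_filter.1 hz).1, (mem_filter.1 hz).2.trans_le hab⟩

lemma blk_mono (c : ι → ℂ) (X : Finset ι) (h : ι → ℤ) {m : ℝ} (hm : 0 < m) {a b : ι}
    (hab : h a ≤ h b) : blk c X h m a ≤ blk c X h m b :=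
  Nat.floor_le_floor (div_le_div_of_nonneg_right (cum_mono c X h hab) hm.le)

lemma blk_lt (c : ι → ℂ) (X : Finset ι) (h : ι → ℤ) {m n : ℝ} (hm : 0 < m) (hn : ms c X ≤ n)
    (a : ι) : blk c X h m a < ⌊n / m⌋₊ + 1 :=
  Nat.lt_succ_of_le (Nat.floor_le_floor (div_le_div_of_nonneg_right
    ((ms_mono c (filter_subset _ _)).trans hn) hm.le))

lemma floor_close {u v m : ℝ} (hm : 0 < m) (hu : 0 ≤ u) (h : ⌊v / m⌋₊ ≤ ⌊u / m⌋₊) :
    v - u ≤ m := by
  have h1 := Nat.floor_le (div_nonneg hu hm.le)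
  have h2 := Nat.lt_floor_add_one (v / m)
  have h3 : (⌊v / m⌋₊ : ℝ) ≤ ⌊u / m⌋₊ := by exact_mod_cast h
  have h4 : v / m ≤ u / m + 1 := by linarith
  rw [div_add_one hm.ne', div_le_div_iff_of_pos_right hm] at h4
  linarith

lemma blk_before (c : ι → ℂ) (X : Finset ι) (h : ι → ℤ) {m : ℝ} (hm : 0 < m) (b : ι) :
    ms c (X.filter fun a => h a < h b ∧ blk c X h m a = blk c X h m b) ≤ m := by
  classical
  rcases (X.filter fun a => h a < h b ∧ blk c X h m a = blk c X h m b).eq_empty_or_nonempty with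
    h0 | h0
  · rw [h0]
    simp [ms, hm.le]
  · obtain ⟨a, ha, hmin⟩ := exists_min_image _ h h0
    obtain ⟨-, ha1, ha2⟩ := mem_filter.1 ha
    have h1 : (X.filter fun z => h z < h a) ⊆ X.filter fun z => h z < h b := fun z hz =>
      mem_filter.2 ⟨(mem_filter.1 hz).1, (mem_filter.1 hz).2.trans ha1⟩
    have h2 := sum_sdiff (f := fun z => ‖c z‖ ^ 2) h1
    have h3 : ms c (X.filter fun a => h a < h b ∧ blk c X h m a = blk c X h m b) ≤
        ms c ((X.filter fun z => h z < h b) \ X.filter fun z => h z < h a) :=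
      ms_mono c fun z hz => mem_sdiff.2 ⟨mem_filter.2 ⟨(mem_filter.1 hz).1, (mem_filter.1 hz).2.1⟩,
        fun hh => absurd (mem_filter.1 hh).2 (not_lt.2 (hmin z hz))⟩
    have h4 := floor_close (u := cum c X h a) (v := cum c X h b) hm (ms_nonneg _ _) ha2.ge
    unfold cum ms at *
    linarith

lemma nsq_expand (γ : ι → ℤ × ℤ) (c : ι → ℂ) (S : Finset ι) (x : G P) :
    ((‖fs γ c S x‖ ^ 2 : ℝ) : ℂ) = ∑ i ∈ S, ∑ j ∈ S, c i * conj (c j) * e (γ i - γ j) x := by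
  push_cast
  unfold fs
  rw [← Complex.mul_conj', map_sum, Finset.sum_mul_sum]
  refine sum_congr rfl fun i _ => sum_congr rfl fun j _ => ?_
  rw [sub_eq_add_neg, e_add, e_neg, map_mul]
  ring

omit [NeZero P] in
lemma nw_box {L : ℤ} (hP : 4 * L < P) {a b u v : ℤ × ℤ} (ha : a ∈ box L) (hb : b ∈ box L)
    (hu : u ∈ box L) (hv : v ∈ box L) : Nw P (a - b - (u - v)) ∧ Nw P (a - b) := by
  simp only [mem_box, abs_le] at ha hb hu hv
  simp only [Nw, Prod.fst_sub, Prod.snd_sub, abs_lt]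
  omega

lemma gs_mean (γ : ι → ℤ × ℤ) (c : ι → ℂ) (X : Finset ι) (bl : ι → ℕ) (K : ℕ) (L : ℤ)
    (hS : Sid γ X) (hL : ∀ a ∈ X, γ a ∈ box L) (hP : 4 * L < P) (hK : ∀ a ∈ X, bl a < K) :
    ∑ x : G P, gs γ c X bl K x = (P : ℝ) ^ 2 * ms c X := by
  unfold gs ms fs
  rw [sum_comm, ← sum_fiberwise_of_maps_to (s := X) (t := range K) (g := bl)
    (fun a ha => mem_range.2 (hK a ha)), mul_sum]
  refine sum_congr rfl fun s _ => L2_eq _ γ c (fun i hi j hj => ?_) (fun i hi j hj => ?_)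
  · have a1 := hL i (mem_filter.1 hi).1
    exact (nw_box hP a1 (hL j (mem_filter.1 hj).1) a1 a1).2
  · exact hS.inj i (mem_filter.1 hi).1 j (mem_filter.1 hj).1

lemma gs_var (γ : ι → ℤ × ℤ) (c : ι → ℂ) (X : Finset ι) (h : ι → ℤ) (m : ℝ) (hm : 0 < m) (K : ℕ)
    (L : ℤ) (hS : Sid γ X) (hM : Main γ X h) (hL : ∀ a ∈ X, γ a ∈ box L) (hP : 4 * L < P)
    (hK : ∀ a ∈ X, blk c X h m a < K) :
    ∑ x : G P, (gs γ c X (blk c X h m) K x - ms c X) ^ 2 ≤ (P : ℝ) ^ 2 * (2 * m * ms c X) := by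
  classical
  set bl := blk c X h m with hbl
  set S := (X ×ˢ X).filter fun p => p.1 ≠ p.2 ∧ bl p.2 = bl p.1 with hSd
  have h1 : ∀ x : G P, ((gs γ c X bl K x - ms c X : ℝ) : ℂ) =
      ∑ p ∈ S, c p.1 * conj (c p.2) * e (γ p.1 - γ p.2) x := by
    intro x
    have e1 : ((gs γ c X bl K x : ℝ) : ℂ) = ∑ a ∈ X, ∑ b ∈ X,
        if bl b = bl a then c a * conj (c b) * e (γ a - γ b) x else 0 := by
      unfold gs
      rw [Complex.ofReal_sum, ← sum_fiberwise_of_maps_to (s := X) (t := range K) (g := bl)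
        (fun a ha => mem_range.2 (hK a ha))]
      refine sum_congr rfl fun s _ => ?_
      rw [nsq_expand]
      refine sum_congr rfl fun a ha => ?_
      rw [sum_filter, (mem_filter.1 ha).2]
    have e2 : ((ms c X : ℝ) : ℂ) = ∑ a ∈ X, ∑ b ∈ X,
        if a = b then c a * conj (c b) * e (γ a - γ b) x else 0 := by
      unfold ms
      rw [Complex.ofReal_sum]
      refine sum_congr rfl fun a ha => ?_
      rw [sum_ite_eq, if_pos ha, sub_self, e_zero, Complex.mul_conj']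
      simp
    rw [Complex.ofReal_sub, e1, e2, hSd, sum_filter, sum_product, ← sum_sub_distrib]
    refine sum_congr rfl fun a _ => ?_
    rw [← sum_sub_distrib]
    refine sum_congr rfl fun b _ => ?_
    by_cases hab : a = b
    · simp [hab]
    · simp [hab]
  have h2 : ∀ x : G P, (gs γ c X bl K x - ms c X) ^ 2 =
      ‖∑ p ∈ S, c p.1 * conj (c p.2) * e (γ p.1 - γ p.2) x‖ ^ 2 := by
    intro x
    rw [← h1, Complex.norm_real, Real.norm_eq_abs, sq_abs]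
  simp_rw [h2]
  have mS : ∀ p ∈ S, p.1 ∈ X ∧ p.2 ∈ X ∧ p.1 ≠ p.2 := fun p hp =>
    ⟨(mem_product.1 (mem_filter.1 hp).1).1, (mem_product.1 (mem_filter.1 hp).1).2,
      (mem_filter.1 hp).2.1⟩
  rw [L2_eq S (fun p => γ p.1 - γ p.2) (fun p => c p.1 * conj (c p.2))
    (fun i hi j hj => (nw_box hP (hL _ (mS i hi).1) (hL _ (mS i hi).2.1) (hL _ (mS j hj).1)
      (hL _ (mS j hj).2.1)).1)
    (fun i hi j hj hij => by
      rcases hS _ (mS i hi).1 _ (mS i hi).2.1 _ (mS j hj).1 _ (mS j hj).2.1 hij with k | k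
      · exact absurd k (mS i hi).2.2
      · exact Prod.ext k.1 k.2)]
  refine mul_le_mul_of_nonneg_left ?_ (by positivity)
  have h3 : ∑ p ∈ S, ‖c p.1 * conj (c p.2)‖ ^ 2 ≤ ∑ a ∈ X, ∑ b ∈ X,
      ((if h b < h a ∧ bl b = bl a then ‖c a‖ ^ 2 * ‖c b‖ ^ 2 else 0) +
        (if h a < h b ∧ bl a = bl b then ‖c b‖ ^ 2 * ‖c a‖ ^ 2 else 0)) := by
    rw [hSd, sum_filter, sum_product]
    refine sum_le_sum fun a ha => sum_le_sum fun b hb => ?_
    by_cases hab : a ≠ b ∧ bl b = bl a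
    · have hne : h a ≠ h b := by
        intro hh
        have k := hM a ha b hb
        rw [hh, sub_self, abs_zero] at k
        have k1 := le_max_left |(γ a).1 - (γ b).1| |(γ a).2 - (γ b).2|
        have k2 := le_max_right |(γ a).1 - (γ b).1| |(γ a).2 - (γ b).2|
        rw [← k, abs_nonpos_iff, sub_eq_zero] at k1 k2
        exact hab.1 (hS.inj a ha b hb (Prod.ext k1 k2))
      rw [if_pos hab, norm_mul, Complex.norm_conj, mul_pow]
      rcases lt_or_gt_of_ne hne with k | k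
      · rw [if_pos (⟨k, hab.2.symm⟩ : h a < h b ∧ bl a = bl b), if_neg (fun q => by omega)]
        linarith
      · rw [if_pos (⟨k, hab.2⟩ : h b < h a ∧ bl b = bl a), if_neg (fun q => by omega)]
        linarith
    · rw [if_neg hab]
      positivity
  refine h3.trans ?_
  simp_rw [sum_add_distrib]
  rw [sum_comm (s := X) (t := X)
    (f := fun a b => if h a < h b ∧ bl a = bl b then ‖c b‖ ^ 2 * ‖c a‖ ^ 2 else 0), ← two_mul,
    mul_assoc, ms, mul_sum (s := X) (a := m)]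
  refine mul_le_mul_of_nonneg_left (sum_le_sum fun a _ => ?_) (by norm_num)
  rw [← sum_filter, ← mul_sum, mul_comm]
  exact mul_le_mul_of_nonneg_right (blk_before c X h hm a) (by positivity)

lemma calm_bound (g : G P → ℝ) (hg : ∀ x, 0 ≤ g x) (n : ℝ) (hn : 0 ≤ n)
    (hm : ∑ x, g x = (P : ℝ) ^ 2 * n) (y : G P) (k : ℕ)
    (hc : ∀ j < k, 4 ^ j * ∑ x ∈ Bl y j, g x ≤ 2 * n * (P : ℝ) ^ 2) :
    4 ^ k * ∑ x, g x * ‖phi k y x‖ ^ 2 ≤ 40 ^ 4 * n * (P : ℝ) ^ 2 := by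
  have h1 : 16 ^ k * ∑ x, g x * ‖phi k y x‖ ^ 2 ≤
      40 ^ 4 * ((P : ℝ) ^ 2 * n + ∑ j ∈ range k, 16 ^ j * ∑ x ∈ Bl y j, g x) := by
    have e1 : ∑ j ∈ range k, 16 ^ j * ∑ x ∈ Bl y j, g x =
        ∑ x, g x * ∑ j ∈ range k, if x ∈ Bl y j then (16 : ℝ) ^ j else 0 := by
      simp_rw [mul_sum]
      rw [sum_comm (s := univ)]
      refine sum_congr rfl fun j _ => ?_
      simp [mul_comm]
    rw [e1, ← hm, ← sum_add_distrib, mul_sum, mul_sum]
    refine sum_le_sum fun x _ => ?_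
    have := mul_le_mul_of_nonneg_left (phi_upper k y x) (hg x)
    linarith
  have h2 : ∑ j ∈ range k, 16 ^ j * ∑ x ∈ Bl y j, g x ≤
      ∑ j ∈ range k, 4 ^ j * (2 * n * (P : ℝ) ^ 2) := by
    refine sum_le_sum fun j hj => ?_
    have e : (16 : ℝ) ^ j = 4 ^ j * 4 ^ j := by rw [← mul_pow]; norm_num
    rw [e, mul_assoc]
    exact mul_le_mul_of_nonneg_left (hc j (mem_range.1 hj)) (by positivity)
  have h3 : ∀ i : ℕ, 1 + 2 * ∑ j ∈ range i, (4 : ℝ) ^ j ≤ 4 ^ i := by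
    intro i
    induction i with
    | zero => simp
    | succ i ih =>
      rw [sum_range_succ, pow_succ]
      have : (0 : ℝ) < 4 ^ i := by positivity
      linarith
  rw [← sum_mul] at h2
  have h4 := mul_le_mul_of_nonneg_right (h3 k) (by positivity : 0 ≤ n * (P : ℝ) ^ 2)
  have e : (16 : ℝ) ^ k = 4 ^ k * 4 ^ k := by rw [← mul_pow]; norm_num
  rw [e, mul_assoc] at h1
  refine le_of_mul_le_mul_left (h1.trans ?_) (by positivity : (0 : ℝ) < 4 ^ k)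
  nlinarith

lemma fs_sq_le (γ : ι → ℤ × ℤ) (c : ι → ℂ) (X : Finset ι) (x : G P) :
    ‖fs γ c X x‖ ^ 2 ≤ X.card * ms c X := by
  have h1 : ‖fs γ c X x‖ ≤ ∑ a ∈ X, ‖c a‖ := by
    refine (norm_sum_le _ _).trans (sum_le_sum fun a _ => ?_)
    rw [norm_mul, norm_e, mul_one]
  exact (pow_le_pow_left₀ (norm_nonneg _) h1 2).trans sq_sum_le_card_mul_sum_sq

lemma card_le_sq (U : Finset (G P)) : (U.card : ℝ) ≤ (P : ℝ) ^ 2 := by
  have := card_le_univ U
  rw [Fintype.card_prod, ZMod.card] at this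
  rw [sq]
  exact_mod_cast this

lemma core_aux (γ : ι → ℤ × ℤ) (c : ι → ℂ) (I J : Finset ι) (L : ℤ) (k₀ : ℕ) (sI : Sid γ I)
    (sJ : Sid γ J) (ht : Tr γ I J) (hI : ∀ a ∈ I, γ a ∈ box L) (hJ : ∀ a ∈ J, γ a ∈ box L)
    (hL0 : 0 ≤ L) (hL : L ≤ 4 * 2 ^ k₀) (hP : 4 * (L + 4 * 2 ^ k₀) < P) (b : ℝ) (hb : 0 < b) :
    b ^ 6 * (univ.filter fun x : G P => b ≤ ‖fs γ c I x‖ ∧ b ≤ ‖fs γ c J x‖).card ≤
      10 ^ 38 * (ms c I + ms c J) ^ 3 * (P : ℝ) ^ 2 := by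
  classical
  have hP0 : (0 : ℝ) < P := by exact_mod_cast Nat.pos_of_ne_zero (NeZero.ne P)
  set U := univ.filter fun x : G P => b ≤ ‖fs γ c I x‖ ∧ b ≤ ‖fs γ c J x‖ with hU
  set n := ms c I + ms c J with hn
  have nI := ms_nonneg c I
  have nJ := ms_nonneg c J
  have n0 : 0 ≤ n := by positivity
  rcases le_or_gt (b ^ 2) (1280000 * 40 ^ 4 * n) with hbn | hbn
  · have h1 := pow_le_pow_left₀ (by positivity) hbn 3
    have h2 := mul_le_mul h1 (card_le_sq U) (by positivity) (by positivity)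
    have h3 : 0 ≤ n ^ 3 * (P : ℝ) ^ 2 := by positivity
    nlinarith
  rcases n0.eq_or_lt with h0 | npos
  · have : U = ∅ := by
      refine filter_eq_empty_iff.2 fun x _ hx => ?_
      have h1 := fs_sq_le γ c I x
      have h2 : ms c I = 0 := by linarith
      rw [h2, mul_zero] at h1
      nlinarith [hx.1]
    rw [this]
    simp only [card_empty, Nat.cast_zero, mul_zero]
    positivity
  set m : ℝ := 1280000 * 40 ^ 4 * n ^ 2 / b ^ 2 with hm
  have m0 : 0 < m := by positivity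
  set K := ⌊n / m⌋₊ + 1 with hK
  set bI := blk c I (fun a => (γ a).1) m with hbI
  set bJ := blk c J (fun a => (γ a).2) m with hbJ
  have KI : ∀ a ∈ I, bI a < K := fun a _ => blk_lt c I _ m0 (by linarith) a
  have KJ : ∀ a ∈ J, bJ a < K := fun a _ => blk_lt c J _ m0 (by linarith) a
  have h2k : (0 : ℤ) < 2 ^ k₀ := by positivity
  have hP4 : 4 * L < P := by linarith
  set g : G P → ℝ := fun x => gs γ c I bI K x + gs γ c J bJ K x with hg
  have gI := gs_nonneg (P := P) γ c I bI K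
  have gJ := gs_nonneg (P := P) γ c J bJ K
  have g0 : ∀ x, 0 ≤ g x := fun x => add_nonneg (gI x) (gJ x)
  have gm : ∑ x, g x = (P : ℝ) ^ 2 * n := by
    rw [sum_add_distrib, gs_mean γ c I bI K L sI hI hP4 KI, gs_mean γ c J bJ K L sJ hJ hP4 KJ]
    ring
  have gv : ∑ x, (g x - n) ^ 2 ≤ (P : ℝ) ^ 2 * (4 * m * n) := by
    have v1 := gs_var γ c I _ m m0 K L sI ht.main1 hI hP4 KI
    have v2 := gs_var γ c J _ m m0 K L sJ ht.main2 hJ hP4 KJ
    have v3 : ∑ x, (g x - n) ^ 2 ≤ ∑ x : G P, (2 * (gs γ c I bI K x - ms c I) ^ 2 +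
        2 * (gs γ c J bJ K x - ms c J) ^ 2) := sum_le_sum fun x _ => by
      simp only [hg, hn]
      nlinarith [sq_nonneg (gs γ c I bI K x - ms c I - (gs γ c J bJ K x - ms c J))]
    rw [sum_add_distrib, ← mul_sum, ← mul_sum] at v3
    refine v3.trans ?_
    rw [hn]
    nlinarith
  have hW : 640000 * K * (40 ^ 4 * n * (P : ℝ) ^ 2) ≤ b ^ 2 * (P : ℝ) ^ 2 := by
    have k1 : (K : ℝ) ≤ n / m + 1 := by
      rw [hK]
      push_cast
      linarith [Nat.floor_le (div_nonneg n0 m0.le)]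
    have k2 : n / m * (1280000 * 40 ^ 4 * n) = b ^ 2 := by
      rw [hm]
      field_simp
    have k3 : 640000 * K * (40 ^ 4 * n) ≤ b ^ 2 := by nlinarith
    nlinarith [sq_nonneg (P : ℝ)]
  have loc : ∀ (y : G P) (k : ℕ), k ≤ k₀ →
      (∀ j < k, 4 ^ j * ∑ x ∈ Bl y j, g x ≤ 2 * n * (P : ℝ) ^ 2) →
      4 ^ k * b ^ 4 * (U.filter fun x => 40 * 2 ^ k * dd x y ≤ 3 * P).card * (P : ℝ) ^ 2 ≤
        10 ^ 11 * (40 ^ 4 * n * (P : ℝ) ^ 2) ^ 2 ∧
        (L ≤ 4 * 2 ^ k → (U.filter fun x => 40 * 2 ^ k * dd x y ≤ 3 * P) = ∅) := by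
    intro y k hk hc
    have c1 := calm_bound g g0 n n0 gm y k hc
    have hk2 : (2 : ℤ) ^ k ≤ 2 ^ k₀ := pow_le_pow_right₀ (by norm_num) hk
    refine local_two γ c I J bI bJ K k y L b _ hb ht hI hJ (by linarith)
      (fun a _ a' _ h => blk_mono c I _ m0 h) KI (fun a _ a' _ h => blk_mono c J _ m0 h) KJ
      (le_trans ?_ c1) (le_trans ?_ c1) hW _ (fun x hx => ⟨(mem_filter.1 hx).2,
        (mem_filter.1 (mem_filter.1 hx).1).2⟩)
    · refine mul_le_mul_of_nonneg_left (sum_le_sum fun x _ => ?_) (by positivity)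
      exact mul_le_mul_of_nonneg_right (le_add_of_nonneg_right (gJ x)) (by positivity)
    · refine mul_le_mul_of_nonneg_left (sum_le_sum fun x _ => ?_) (by positivity)
      exact mul_le_mul_of_nonneg_right (le_add_of_nonneg_left (gI x)) (by positivity)
  have stop : ∀ y ∈ U, ∃ k, k < k₀ ∧ (∀ j < k, 4 ^ j * ∑ x ∈ Bl y j, g x ≤ 2 * n * (P : ℝ) ^ 2) ∧
      2 * n * (P : ℝ) ^ 2 < 4 ^ k * ∑ x ∈ Bl y k, g x := by
    intro y hy
    have ex : ∃ k, k < k₀ ∧ 2 * n * (P : ℝ) ^ 2 < 4 ^ k * ∑ x ∈ Bl y k, g x := by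
      by_contra hh
      push Not at hh
      have := (loc y k₀ le_rfl hh).2 hL
      exact filter_eq_empty_iff.1 this hy (by simp [dd_self])
    refine ⟨Nat.find ex, (Nat.find_spec ex).1, fun j hj => ?_, (Nat.find_spec ex).2⟩
    have := Nat.find_min ex hj
    push Not at this
    exact this (hj.trans (Nat.find_spec ex).1)
  choose! κ κ1 κ2 κ3 using stop
  obtain ⟨u, hu, hdis, hcov⟩ := Vitali.exists_disjoint_subfamily_covering_enlargement
    (fun y : G P => (Bl y (κ y) : Set (G P))) (U : Set (G P)) (fun y => 1 / (2 : ℝ) ^ κ y) 2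
    (by norm_num) (fun _ _ => by positivity) 1
    (fun y _ => by
      rw [div_le_one (by positivity)]
      exact one_le_pow₀ (by norm_num))
    (fun y _ => ⟨y, by simp [Bl, dd_self]⟩)
  set V := univ.filter fun y => y ∈ u with hV
  have VU : ∀ y ∈ V, y ∈ U := fun y hy => hu (mem_filter.1 hy).2
  have c1 : U.card ≤ ∑ y ∈ V, (U.filter fun x => 40 * 2 ^ κ y * dd x y ≤ 3 * P).card := by
    refine le_trans (card_le_card fun x hx => ?_) card_biUnion_le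
    obtain ⟨y, hy, ⟨z, hz1, hz2⟩, hd⟩ := hcov x hx
    refine mem_biUnion.2 ⟨y, mem_filter.2 ⟨mem_univ _, hy⟩, mem_filter.2 ⟨hx, ?_⟩⟩
    have z1 : 40 * 2 ^ κ x * dd z x ≤ P := by simpa [Bl] using hz1
    have z2 : 40 * 2 ^ κ y * dd z y ≤ P := by simpa [Bl] using hz2
    have z3 : 2 ^ κ y ≤ 2 * 2 ^ κ x := by
      rw [mul_one_div, div_le_div_iff₀ (by positivity) (by positivity), one_mul] at hd
      exact_mod_cast hd
    have z4 := dd_tri x y z
    have z5 := Nat.mul_le_mul_left (40 * 2 ^ κ y) z4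
    have z6 := Nat.mul_le_mul_right (dd z x) z3
    nlinarith
  have c2 : ∀ y ∈ V, b ^ 4 * (U.filter fun x => 40 * 2 ^ κ y * dd x y ≤ 3 * P).card ≤
      10 ^ 11 * 40 ^ 8 * ∑ x ∈ Bl y (κ y), (g x - n) ^ 2 := by
    intro y hy
    have l1 := (loc y (κ y) (κ1 y (VU y hy)).le (κ2 y (VU y hy))).1
    have l2 := κ3 y (VU y hy)
    have l3 : (4 : ℝ) ^ κ y * (Bl y (κ y)).card ≤ (P : ℝ) ^ 2 := by
      refine card_Bl y _ ?_
      have hk2 : (2 : ℤ) ^ κ y ≤ 2 ^ k₀ := pow_le_pow_right₀ (by norm_num) (κ1 y (VU y hy)).le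
      have : (2 * 2 ^ κ y : ℤ) ≤ P := by linarith
      exact_mod_cast this
    have l4 : ∑ x ∈ Bl y (κ y), (2 * n * g x - 3 * n ^ 2) ≤ ∑ x ∈ Bl y (κ y), (g x - n) ^ 2 :=
      sum_le_sum fun x _ => by nlinarith [sq_nonneg (g x - 2 * n)]
    rw [sum_sub_distrib, ← mul_sum, sum_const, nsmul_eq_mul] at l4
    have l5 := mul_le_mul_of_nonneg_left l4 (by positivity : (0 : ℝ) ≤ 4 ^ κ y)
    have l6 : n ^ 2 * (P : ℝ) ^ 2 ≤ 4 ^ κ y * ∑ x ∈ Bl y (κ y), (g x - n) ^ 2 := by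
      have := mul_le_mul_of_nonneg_left l2.le npos.le
      have := mul_le_mul_of_nonneg_left l3 (sq_nonneg n)
      nlinarith
    have l7 := mul_le_mul_of_nonneg_left l6 (by positivity : (0 : ℝ) ≤ 10 ^ 11 * 40 ^ 8 * (P : ℝ) ^ 2)
    refine le_of_mul_le_mul_left ?_ (by positivity : (0 : ℝ) < 4 ^ κ y * (P : ℝ) ^ 2)
    nlinarith
  have c3 : ∑ y ∈ V, ∑ x ∈ Bl y (κ y), (g x - n) ^ 2 ≤ ∑ x, (g x - n) ^ 2 := by
    rw [← sum_biUnion]
    · exact sum_le_sum_of_subset_of_nonneg (subset_univ _) fun _ _ _ => by positivity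
    · intro y hy z hz hyz
      have := hdis (mem_filter.1 hy).2 (mem_filter.1 hz).2 hyz
      exact disjoint_coe.1 this
  have c4 : b ^ 4 * U.card ≤ 10 ^ 11 * 40 ^ 8 * ((P : ℝ) ^ 2 * (4 * m * n)) := by
    have d1 : (U.card : ℝ) ≤
        ∑ y ∈ V, ((U.filter fun x => 40 * 2 ^ κ y * dd x y ≤ 3 * P).card : ℝ) := by
      exact_mod_cast c1
    have d2 := sum_le_sum c2
    rw [← mul_sum, ← mul_sum] at d2
    refine (mul_le_mul_of_nonneg_left d1 (by positivity)).trans (d2.trans ?_)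
    exact mul_le_mul_of_nonneg_left (c3.trans gv) (by positivity)
  have c5 : m * b ^ 2 = 1280000 * 40 ^ 4 * n ^ 2 := by
    rw [hm]
    field_simp
  have c6 := mul_le_mul_of_nonneg_left c4 (sq_nonneg b)
  have c7 : b ^ 2 * (10 ^ 11 * 40 ^ 8 * ((P : ℝ) ^ 2 * (4 * m * n))) =
      10 ^ 11 * 40 ^ 8 * 4 * (1280000 * 40 ^ 4) * (n ^ 3 * (P : ℝ) ^ 2) := by
    linear_combination (10 ^ 11 * 40 ^ 8 * 4 * n * (P : ℝ) ^ 2) * c5
  have h3 : 0 ≤ n ^ 3 * (P : ℝ) ^ 2 := by positivity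
  rw [c7] at c6
  nlinarith

lemma exists_box (γ : ι → ℤ × ℤ) (X : Finset ι) : ∃ L : ℕ, ∀ a ∈ X, γ a ∈ box L := by
  refine ⟨∑ a ∈ X, ((γ a).1.natAbs + (γ a).2.natAbs), fun a ha => ?_⟩
  have := single_le_sum (f := fun a => (γ a).1.natAbs + (γ a).2.natAbs)
    (fun _ _ => Nat.zero_le _) ha
  rw [mem_box, Int.abs_eq_natAbs, Int.abs_eq_natAbs]
  omega

omit [NeZero P] in
theorem core (γ : ι → ℤ × ℤ) (c : ι → ℂ) (I J : Finset ι) (sI : Sid γ I) (sJ : Sid γ J)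
    (ht : Tr γ I J) : ∀ᶠ P : ℕ in Filter.atTop, ∀ [NeZero P], ∀ b : ℝ, 0 < b →
      b ^ 6 * (univ.filter fun x : G P => b ≤ ‖fs γ c I x‖ ∧ b ≤ ‖fs γ c J x‖).card ≤
        10 ^ 38 * (ms c I + ms c J) ^ 3 * (P : ℝ) ^ 2 := by
  classical
  obtain ⟨L, hL⟩ := exists_box γ (I ∪ J)
  filter_upwards [Filter.eventually_gt_atTop (4 * (L + 4 * 2 ^ L))] with P hP _ b hb
  refine core_aux γ c I J L L sI sJ ht (fun a ha => hL a (mem_union_left _ ha))
    (fun a ha => hL a (mem_union_right _ ha)) (by positivity) ?_ (by exact_mod_cast hP) b hb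
  have : L ≤ 4 * 2 ^ L := by have := L.lt_two_pow_self; omega
  exact_mod_cast this

end E3L
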