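import Pool.Agent.Lib.MP_4d4569_co.E3Weak

set_option autoImplicit false

namespace E3L
open Finset Filter
open scoped ComplexConjugate

variable {ι : Type*}

lemma moment {P : ℕ} [NeZero P] (γ : ι → ℤ × ℤ) (w : ι → ℝ) (hw : ∀ a, 0 ≤ w a) (X : Finset ι)
    (S : Finset (Fin 6 → ι)) (hS : S ⊆ Fintype.piFinset fun _ => X)
    (hrel : ∀ a ∈ S, γ (a 0) + γ (a 1) + γ (a 2) = γ (a 3) + γ (a 4) + γ (a 5)) :
    (P : ℝ) ^ 2 * ∑ a ∈ S, ∏ i, w (a i) ≤ ∑ x : G P, ‖fs γ (fun a => (w a : ℂ)) X x‖ ^ 6 := by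
  classical
  set ν : (Fin 6 → ι) → ℤ × ℤ := fun a =>
    γ (a 0) + γ (a 1) + γ (a 2) + -γ (a 3) + -γ (a 4) + -γ (a 5) with hν
  have h1 : ∀ x : G P, ((‖fs γ (fun a => (w a : ℂ)) X x‖ ^ 6 : ℝ) : ℂ) =
      ∑ a ∈ Fintype.piFinset fun _ : Fin 6 => X, ((∏ i, w (a i) : ℝ) : ℂ) * e (ν a) x := by
    intro x
    set u : ι → ℂ := fun a => (w a : ℂ) * e (γ a) x with hu
    set v : ι → ℂ := fun a => (w a : ℂ) * e (-γ a) x with hv
    have e1 : fs γ (fun a => (w a : ℂ)) X x = ∑ a ∈ X, u a := rfl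
    have e2 : conj (fs γ (fun a => (w a : ℂ)) X x) = ∑ a ∈ X, v a := by
      rw [e1, map_sum]
      refine sum_congr rfl fun a _ => ?_
      simp only [hu, hv, map_mul, Complex.conj_ofReal, e_neg]
    have e3 := Finset.prod_univ_sum (fun _ : Fin 6 => X) (![u, u, u, v, v, v])
    have e4 : ((‖fs γ (fun a => (w a : ℂ)) X x‖ ^ 6 : ℝ) : ℂ) =
        (fs γ (fun a => (w a : ℂ)) X x * conj (fs γ (fun a => (w a : ℂ)) X x)) ^ 3 := by
      rw [Complex.mul_conj']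
      push_cast
      ring
    rw [e4, e2, e1]
    have e5 : ((∑ a ∈ X, u a) * ∑ a ∈ X, v a) ^ 3 =
        ∏ i : Fin 6, ∑ j ∈ X, (![u, u, u, v, v, v] : Fin 6 → ι → ℂ) i j := by
      simp only [Fin.prod_univ_six]
      simp
      ring
    rw [e5, e3]
    refine sum_congr rfl fun a _ => ?_
    simp only [Fin.prod_univ_six, hν, e_add]
    simp [hu, hv]
    ring
  have h2 : ((∑ x : G P, ‖fs γ (fun a => (w a : ℂ)) X x‖ ^ 6 : ℝ) : ℂ) =
      ((∑ a ∈ Fintype.piFinset fun _ : Fin 6 => X, (∏ i, w (a i)) *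
        (if ((ν a).1 : ZMod P) = 0 ∧ ((ν a).2 : ZMod P) = 0 then (P : ℝ) ^ 2 else 0) : ℝ) : ℂ) := by
    rw [Complex.ofReal_sum, Complex.ofReal_sum]
    simp_rw [h1]
    rw [sum_comm]
    refine sum_congr rfl fun a _ => ?_
    rw [← mul_sum, sum_e]
    split_ifs <;> simp
  rw [Complex.ofReal_inj.1 h2, mul_sum]
  refine le_trans (sum_le_sum fun a ha => le_of_eq ?_)
    (sum_le_sum_of_subset_of_nonneg hS fun a _ _ =>
      mul_nonneg (prod_nonneg fun i _ => hw _) (by positivity))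
  have : ν a = 0 := by
    simp only [hν]
    rw [hrel a ha]
    abel
  rw [this, mul_comm]
  simp

theorem int_bound (γ : ι → ℤ × ℤ) (w : ι → ℝ) (hw : ∀ a, 0 ≤ w a) (t : ι → ℤ) (X : Finset ι)
    (s : ι → ℤ) (hs : ∀ a ∈ X, s a = 1 ∨ s a = -1)
    (hT : ∀ a ∈ X, ∀ b ∈ X, a ≠ b → t a * ((γ b).1 - (γ a).1) < s a * ((γ b).2 - (γ a).2))
    (J : ℕ) (hJ : X.card ≤ 4 ^ J) (S : Finset (Fin 6 → ι)) (hS : S ⊆ Fintype.piFinset fun _ => X)
    (hrel : ∀ a ∈ S, γ (a 0) + γ (a 1) + γ (a 2) = γ (a 3) + γ (a 4) + γ (a 5)) :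
    ∑ a ∈ S, ∏ i, w (a i) ≤ 10 ^ 70 * (J + 1) * (∑ a ∈ X, w a ^ 2) ^ 3 := by
  classical
  set c : ι → ℂ := fun a => (w a : ℂ) with hc
  set X1 := X.filter fun a => s a = 1 with hX1
  set X2 := X.filter fun a => ¬ s a = 1 with hX2
  have T1 : Tang γ t X1 := fun a ha b hb hab => by
    have := hT a (mem_filter.1 ha).1 b (mem_filter.1 hb).1 hab
    rwa [(mem_filter.1 ha).2, one_mul] at this
  have T2 : Tang (lin 1 0 0 (-1) γ) t X2 := fun a ha b hb hab => by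
    have := hT a (mem_filter.1 ha).1 b (mem_filter.1 hb).1 hab
    rw [(hs a (mem_filter.1 ha).1).resolve_left (mem_filter.1 ha).2] at this
    simp only [lin]
    linarith
  have := PF_neBot
  obtain ⟨P, ⟨h1, h2⟩, h3, h4⟩ :=
    (((sixth γ c t X1 T1 J ((card_filter_le _ _).trans hJ)).and
      (sixth _ c t X2 T2 J ((card_filter_le _ _).trans hJ))).and
      ((dual_bij 1 0 0 (-1) (by norm_num)).and
        ((eventually_gt_atTop 0).filter_mono (inf_le_left : PF ≤ atTop)))).exists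
  have : NeZero P := ⟨h4.ne'⟩
  have hP0 : (0 : ℝ) < P := by exact_mod_cast h4
  have k1 := h1
  have k2 := h2
  have k3 : ∑ x : G P, ‖fs (lin 1 0 0 (-1) γ) c X2 x‖ ^ 6 = ∑ x : G P, ‖fs γ c X2 x‖ ^ 6 :=
    Fintype.sum_bijective _ h3 _ _ fun x => by rw [fs_lin]
  rw [k3] at k2
  have k4 := moment (P := P) γ w hw X S hS hrel
  have k5 : ∑ x : G P, ‖fs γ c X x‖ ^ 6 ≤
      ∑ x : G P, 32 * (‖fs γ c X1 x‖ ^ 6 + ‖fs γ c X2 x‖ ^ 6) := by
    refine sum_le_sum fun x _ => ?_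
    have e1 : fs γ c X x = fs γ c X1 x + fs γ c X2 x := (sum_filter_add_sum_filter_not _ _ _).symm
    rw [e1]
    refine (pow_le_pow_left₀ (norm_nonneg _) (norm_add_le _ _) 6).trans
      ((add_pow_le (norm_nonneg _) (norm_nonneg _) 6).trans (le_of_eq ?_))
    norm_num
  rw [← mul_sum, sum_add_distrib] at k5
  have e2 : ms c X = ∑ a ∈ X, w a ^ 2 := sum_congr rfl fun a _ => by simp [hc]
  have m1 := pow_le_pow_left₀ (ms_nonneg c X1) (ms_mono c (filter_subset _ X : X1 ⊆ X)) 3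
  have m2 := pow_le_pow_left₀ (ms_nonneg c X2) (ms_mono c (filter_subset _ X : X2 ⊆ X)) 3
  rw [← e2]
  have q0 : (0 : ℝ) ≤ (J + 1) * (P : ℝ) ^ 2 := by positivity
  have q1 := mul_le_mul_of_nonneg_left m1 q0
  have q2 := mul_le_mul_of_nonneg_left m2 q0
  have q3 := mul_nonneg q0 (pow_nonneg (ms_nonneg c X) 3)
  refine le_of_mul_le_mul_left (k4.trans (k5.trans ?_)) (by positivity : (0 : ℝ) < (P : ℝ) ^ 2)
  nlinarith

lemma exists_lin_pos (Z : Finset ℝ) (hZ : ∀ z ∈ Z, 0 < z) :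
    ∃ l : ℝ →ₗ[ℚ] ℚ, ∀ z ∈ Z, 0 < l z := by
  let B := Module.Basis.ofVectorSpace ℚ ℝ
  let F : ℝ → (Module.Basis.ofVectorSpaceIndex ℚ ℝ → ℝ) → ℝ := fun z r =>
    ∑ i ∈ (B.repr z).support, (B.repr z i : ℝ) * r i
  have hO : IsOpen (⋂ z ∈ Z, {r | 0 < F z r}) :=
    isOpen_biInter_finset fun z _ => isOpen_lt continuous_const (by fun_prop)
  have hne : (⋂ z ∈ Z, {r | 0 < F z r}).Nonempty := by
    refine ⟨B, Set.mem_iInter₂.2 fun z hz => ?_⟩
    have := B.linearCombination_repr z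
    rw [Finsupp.linearCombination_apply, Finsupp.sum] at this
    simp only [Rat.smul_def] at this
    change 0 < ∑ i ∈ (B.repr z).support, (B.repr z i : ℝ) * B i
    rw [this]
    exact hZ z hz
  obtain ⟨q, hq⟩ := (DenseRange.piMap (fun _ : Module.Basis.ofVectorSpaceIndex ℚ ℝ =>
    (Rat.denseRange_cast (𝕜 := ℝ)))).exists_mem_open hO hne
  refine ⟨B.constr ℚ q, fun z hz => ?_⟩
  have h1 : 0 < ∑ i ∈ (B.repr z).support, (B.repr z i : ℝ) * (q i : ℝ) :=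
    Set.mem_iInter₂.1 hq z hz
  rw [B.constr_apply, Finsupp.sum]
  simp only [smul_eq_mul]
  exact_mod_cast h1

lemma clear_den (S : Finset ℚ) : ∃ D : ℤ, 0 < D ∧ ∀ q ∈ S, ∃ z : ℤ, (z : ℚ) = D * q := by
  refine ⟨∏ q ∈ S, (q.den : ℤ), prod_pos fun q _ => by exact_mod_cast q.den_pos, fun q hq => ?_⟩
  obtain ⟨k, hk⟩ := dvd_prod_of_mem (fun q : ℚ => (q.den : ℤ)) hq
  refine ⟨k * q.num, ?_⟩
  rw [hk]
  push_cast
  rw [← Rat.den_mul_eq_num]
  ring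

lemma rat_slope (A : Finset (ℝ × ℝ)) (a : ℝ × ℝ)
    (h : ∃ p q : ℝ, ∀ b ∈ A, a ≠ b → 0 < p * (b.1 - a.1) + q * (b.2 - a.2)) :
    ∃ (s : ℤ) (τ : ℚ), (s = 1 ∨ s = -1) ∧ ∀ b ∈ A, a ≠ b → τ * (b.1 - a.1) < s * (b.2 - a.2) := by
  obtain ⟨p, q, h⟩ := h
  have hO : IsOpen (⋂ b ∈ A.filter (fun b => a ≠ b),
      {r : ℝ | 0 < p * (b.1 - a.1) + r * (b.2 - a.2)}) :=
    isOpen_biInter_finset fun z _ => isOpen_lt continuous_const (by fun_prop)
  obtain ⟨r, hr, hr0⟩ := (dense_compl_singleton (0 : ℝ)).inter_open_nonempty _ hO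
    ⟨q, Set.mem_iInter₂.2 fun b hb => h b (mem_filter.1 hb).1 (mem_filter.1 hb).2⟩
  have hr1 : ∀ b ∈ A, a ≠ b → 0 < p * (b.1 - a.1) + r * (b.2 - a.2) := fun b hb hab =>
    Set.mem_iInter₂.1 hr b (mem_filter.2 ⟨hb, hab⟩)
  have key : ∃ (s : ℤ) (τ : ℝ), (s = 1 ∨ s = -1) ∧
      ∀ b ∈ A, a ≠ b → τ * (b.1 - a.1) < s * (b.2 - a.2) := by
    rcases lt_or_gt_of_ne (hr0 : r ≠ 0) with k | k
    · refine ⟨-1, p / r, Or.inr rfl, fun b hb hab => ?_⟩
      have := hr1 b hb hab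
      rw [div_mul_eq_mul_div, div_lt_iff_of_neg k]
      push_cast
      linarith
    · refine ⟨1, -p / r, Or.inl rfl, fun b hb hab => ?_⟩
      have := hr1 b hb hab
      rw [div_mul_eq_mul_div, div_lt_iff₀ k]
      push_cast
      linarith
  obtain ⟨s, τ, hs, hτ⟩ := key
  have hO2 : IsOpen (⋂ b ∈ A.filter (fun b => a ≠ b),
      {r : ℝ | r * (b.1 - a.1) < s * (b.2 - a.2)}) :=
    isOpen_biInter_finset fun z _ => isOpen_lt (by fun_prop) continuous_const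
  obtain ⟨u, hu⟩ := (Rat.denseRange_cast (𝕜 := ℝ)).exists_mem_open hO2
    ⟨τ, Set.mem_iInter₂.2 fun b hb => hτ b (mem_filter.1 hb).1 (mem_filter.1 hb).2⟩
  exact ⟨s, u, hs, fun b hb hab => Set.mem_iInter₂.1 hu b (mem_filter.2 ⟨hb, hab⟩)⟩

lemma integral_model (A : Finset (ℝ × ℝ))
    (h : ∀ a ∈ A, ∃ p q : ℝ, ∀ b ∈ A, a ≠ b → 0 < p * (b.1 - a.1) + q * (b.2 - a.2)) :
    ∃ (γ : ℝ × ℝ → ℤ × ℤ) (t s : ℝ × ℝ → ℤ), (∀ a ∈ A, s a = 1 ∨ s a = -1) ∧
      (∀ a ∈ A, ∀ b ∈ A, a ≠ b → t a * ((γ b).1 - (γ a).1) < s a * ((γ b).2 - (γ a).2)) ∧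
      ∀ a : Fin 6 → ℝ × ℝ, (∀ i, a i ∈ A) → a 0 + a 1 + a 2 = a 3 + a 4 + a 5 →
        γ (a 0) + γ (a 1) + γ (a 2) = γ (a 3) + γ (a 4) + γ (a 5) := by
  choose! s τ hs hτ using fun a ha => rat_slope A a (h a ha)
  obtain ⟨l, hl⟩ := exists_lin_pos (((A ×ˢ A).filter fun p => p.1 ≠ p.2).image fun p =>
    (s p.1 : ℝ) * (p.2.2 - p.1.2) - τ p.1 * (p.2.1 - p.1.1)) (fun z hz => by
      obtain ⟨p, hp, rfl⟩ := mem_image.1 hz
      obtain ⟨h1, h2⟩ := mem_filter.1 hp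
      exact sub_pos.2 (hτ _ (mem_product.1 h1).1 _ (mem_product.1 h1).2 h2))
  have hl' : ∀ a ∈ A, ∀ b ∈ A, a ≠ b → τ a * (l b.1 - l a.1) < s a * (l b.2 - l a.2) := by
    intro a ha b hb hab
    have k := hl _ (mem_image.2 ⟨(a, b), mem_filter.2 ⟨mem_product.2 ⟨ha, hb⟩, hab⟩, rfl⟩)
    have e : (s a : ℝ) * (b.2 - a.2) - τ a * (b.1 - a.1) =
        (s a : ℚ) • (b.2 - a.2) - τ a • (b.1 - a.1) := by
      simp [Rat.smul_def]
    simp only at k
    rw [e, map_sub, map_smul, map_smul, map_sub, map_sub, smul_eq_mul, smul_eq_mul] at k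
    linarith
  obtain ⟨D, hD, hz⟩ := clear_den (A.image (fun a => l a.1) ∪ A.image (fun a => l a.2) ∪ A.image τ)
  choose! x hx using fun a (ha : a ∈ A) => hz (l a.1)
    (mem_union_left _ (mem_union_left _ (mem_image_of_mem _ ha)))
  choose! y hy using fun a (ha : a ∈ A) => hz (l a.2)
    (mem_union_left _ (mem_union_right _ (mem_image_of_mem _ ha)))
  choose! t ht using fun a (ha : a ∈ A) => hz (τ a) (mem_union_right _ (mem_image_of_mem _ ha))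
  have hD' : (0 : ℚ) < D := by exact_mod_cast hD
  refine ⟨fun a => (x a, D * y a), t, s, hs, fun a ha b hb hab => ?_, fun a ha hr => ?_⟩
  · have k := mul_lt_mul_of_pos_left (hl' a ha b hb hab) (mul_pos hD' hD')
    have : (t a : ℚ) * (x b - x a) < s a * (D * y b - D * y a) := by
      rw [ht a ha, hx a ha, hx b hb, hy a ha, hy b hb]
      linarith
    exact_mod_cast this
  · have e1 : l (a 0).1 + l (a 1).1 + l (a 2).1 = l (a 3).1 + l (a 4).1 + l (a 5).1 := by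
      simpa using congrArg (fun z : ℝ × ℝ => l z.1) hr
    have e2 : l (a 0).2 + l (a 1).2 + l (a 2).2 = l (a 3).2 + l (a 4).2 + l (a 5).2 := by
      simpa using congrArg (fun z : ℝ × ℝ => l z.2) hr
    have f1 : (x (a 0) : ℚ) + x (a 1) + x (a 2) = x (a 3) + x (a 4) + x (a 5) := by
      simp only [hx _ (ha _)]
      linear_combination (D : ℚ) * e1
    have f2 : (y (a 0) : ℚ) + y (a 1) + y (a 2) = y (a 3) + y (a 4) + y (a 5) := by
      simp only [hy _ (ha _)]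
      linear_combination (D : ℚ) * e2
    have g1 : x (a 0) + x (a 1) + x (a 2) = x (a 3) + x (a 4) + x (a 5) := by exact_mod_cast f1
    have g2 : y (a 0) + y (a 1) + y (a 2) = y (a 3) + y (a 4) + y (a 5) := by exact_mod_cast f2
    refine Prod.ext g1 ?_
    simp only [Prod.snd_add]
    linear_combination D * g2

lemma support_line (A : Finset (ℝ × ℝ)) (a : ℝ × ℝ)
    (h : a ∉ convexHull ℝ ((A : Set (ℝ × ℝ)) \ {a})) :
    ∃ p q : ℝ, ∀ b ∈ A, a ≠ b → 0 < p * (b.1 - a.1) + q * (b.2 - a.2) := by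
  obtain ⟨f, u, h1, h2⟩ := geometric_hahn_banach_point_closed (convex_convexHull ℝ _)
    ((A.finite_toSet.subset Set.sdiff_subset).isClosed_convexHull ℝ) h
  refine ⟨f (1, 0), f (0, 1), fun b hb hab => ?_⟩
  have k := h2 b (subset_convexHull ℝ _ ⟨hb, fun e => hab (Set.mem_singleton_iff.1 e).symm⟩)
  have e : b - a = (b.1 - a.1) • ((1, 0) : ℝ × ℝ) + (b.2 - a.2) • ((0, 1) : ℝ × ℝ) := by
    ext <;> simp
  have e2 := congrArg f e
  rw [map_sub, map_add, map_smul, map_smul, smul_eq_mul, smul_eq_mul] at e2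
  linarith

theorem real_bound (A : Finset (ℝ × ℝ)) (w : ℝ × ℝ → ℝ)
    (h : ∀ a ∈ A, ∃ p q : ℝ, ∀ b ∈ A, a ≠ b → 0 < p * (b.1 - a.1) + q * (b.2 - a.2))
    (hA : 2 ≤ A.card) :
    ∑ a ∈ (Fintype.piFinset fun _ : Fin 6 => A).filter
        (fun a => a 0 + a 1 + a 2 = a 3 + a 4 + a 5), ∏ i, w (a i) ≤
      10 ^ 71 * Real.log A.card * (∑ a ∈ A, w a ^ 2) ^ 3 := by
  obtain ⟨γ, t, s, hs, hT, hrel⟩ := integral_model A h
  have hJ : A.card ≤ 4 ^ (Nat.log 2 A.card) := by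
    have h1 := Nat.lt_pow_succ_log_self (by norm_num : 1 < 2) A.card
    have h2 := Nat.log_pos (by norm_num : 1 < 2) hA
    have h3 : 2 ^ (Nat.log 2 A.card).succ ≤ 2 ^ (2 * Nat.log 2 A.card) :=
      Nat.pow_le_pow_right (by norm_num) (by omega)
    rw [pow_mul] at h3
    exact h1.le.trans h3
  have h1 := int_bound γ (fun a => |w a|) (fun a => abs_nonneg _) t A s hs hT _ hJ
    ((Fintype.piFinset fun _ : Fin 6 => A).filter (fun a => a 0 + a 1 + a 2 = a 3 + a 4 + a 5))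
    (filter_subset _ _) (fun a ha => hrel a (Fintype.mem_piFinset.1 (mem_filter.1 ha).1)
      (mem_filter.1 ha).2)
  simp only [sq_abs] at h1
  refine le_trans (sum_le_sum fun a _ => ?_) (h1.trans ?_)
  · rw [← abs_prod]
    exact le_abs_self _
  · refine mul_le_mul_of_nonneg_right ?_ (by positivity)
    have k1 : (2 : ℝ) ^ Nat.log 2 A.card ≤ A.card := by
      exact_mod_cast Nat.pow_log_le_self 2 (by omega : A.card ≠ 0)
    have k2 := Real.log_le_log (by positivity) k1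
    rw [Real.log_pow] at k2
    have k3 : (1 : ℝ) ≤ Nat.log 2 A.card := by
      exact_mod_cast Nat.log_pos (by norm_num : 1 < 2) hA
    have k4 := Real.log_two_gt_d9
    nlinarith

end E3L
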