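import Pool.Agent.Lib.MP_4d4569_co.E3Basic

set_option autoImplicit false

namespace E3L
open Finset

variable {P : ℕ} [NeZero P]

/-- distance to `0` in `ZMod P` -/
def nm (t : ZMod P) : ℕ := t.valMinAbs.natAbs

/-- sup distance on `G P` -/
def dd (x y : G P) : ℕ := max (nm (x.1 - y.1)) (nm (x.2 - y.2))

/-- ball of radius `P / (40 * 2 ^ j)` -/
def Bl (y : G P) (j : ℕ) : Finset (G P) := univ.filter fun x => 40 * 2 ^ j * dd x y ≤ P

/-- normalised Dirichlet kernel -/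
noncomputable def Dk (k : ℕ) (t : ZMod P) : ℂ :=
  (∑ j ∈ range (2 ^ k), ZMod.stdAddChar ((j : ZMod P) * t)) / 2 ^ k

/-- the cut-off -/
noncomputable def phi (k : ℕ) (y x : G P) : ℂ :=
  (Dk k (x.1 - y.1) * Dk k (x.1 - y.1)) * (Dk k (x.2 - y.2) * Dk k (x.2 - y.2))

/-- integer box -/
noncomputable def box (R : ℤ) : Finset (ℤ × ℤ) := Icc (-R) R ×ˢ Icc (-R) R

lemma mem_box {R : ℤ} {a : ℤ × ℤ} : a ∈ box R ↔ |a.1| ≤ R ∧ |a.2| ≤ R := by
  simp [box, abs_le]

lemma box_add {R R' : ℤ} {a b : ℤ × ℤ} (ha : a ∈ box R) (hb : b ∈ box R') :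
    a + b ∈ box (R + R') := by
  rw [mem_box] at *
  have := abs_add_le a.1 b.1
  have := abs_add_le a.2 b.2
  constructor <;> simp only [Prod.fst_add, Prod.snd_add] <;> linarith [ha.1, ha.2, hb.1, hb.2]

lemma card_box (R : ℤ) (h : 0 ≤ R) : ((box R).card : ℝ) = (2 * R + 1) ^ 2 := by
  have : ((Icc (-R) R).card : ℤ) = 2 * R + 1 := by
    rw [Int.card_Icc, Int.toNat_of_nonneg (by omega)]
    ring
  have h2 : ((Icc (-R) R).card : ℝ) = 2 * R + 1 := by exact_mod_cast this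
  rw [box, card_product, Nat.cast_mul, h2, sq]

omit [NeZero P] in
lemma nm_add (s t : ZMod P) : nm (s + t) ≤ nm s + nm t :=
  (ZMod.natAbs_valMinAbs_add_le s t).trans (Int.natAbs_add_le _ _)

omit [NeZero P] in
lemma nm_neg (s : ZMod P) : nm (-s) = nm s := ZMod.natAbs_valMinAbs_neg s

omit [NeZero P] in
lemma dd_self (x : G P) : dd x x = 0 := by simp [dd, nm]

omit [NeZero P] in
lemma dd_tri (x y z : G P) : dd x y ≤ dd z x + dd z y := by
  have h1 := nm_add (-(z.1 - x.1)) (z.1 - y.1)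
  have h2 := nm_add (-(z.2 - x.2)) (z.2 - y.2)
  rw [nm_neg] at h1 h2
  have e1 : -(z.1 - x.1) + (z.1 - y.1) = x.1 - y.1 := by ring
  have e2 : -(z.2 - x.2) + (z.2 - y.2) = x.2 - y.2 := by ring
  rw [e1] at h1
  rw [e2] at h2
  unfold dd
  omega

lemma psi_eq (j : ℕ) (t : ZMod P) : ZMod.stdAddChar ((j : ZMod P) * t) =
    Complex.exp (Complex.I * ((2 * Real.pi * j * t.valMinAbs / P : ℝ) : ℂ)) := by
  have : (j : ZMod P) * t = ((j * t.valMinAbs : ℤ) : ZMod P) := by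
    simp
  rw [this, ZMod.stdAddChar_coe]
  congr 1
  push_cast
  ring

omit [NeZero P] in
lemma nm_cast (t : ZMod P) : (nm t : ℝ) = |(t.valMinAbs : ℝ)| := by
  unfold nm
  rw [← Int.cast_abs, Int.abs_eq_natAbs, Int.cast_natCast]

lemma Dk_le_one (k : ℕ) (t : ZMod P) : ‖Dk k t‖ ≤ 1 := by
  unfold Dk
  rw [norm_div, norm_pow, Complex.norm_ofNat, div_le_one (by positivity)]
  refine (norm_sum_le _ _).trans ?_
  simp [AddChar.norm_apply]

lemma Dk_lower (k : ℕ) (t : ZMod P) (h : 40 * 2 ^ k * nm t ≤ 3 * P) : 1 / 2 ≤ ‖Dk k t‖ := by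
  have hP : (0 : ℝ) < P := by exact_mod_cast Nat.pos_of_ne_zero (NeZero.ne P)
  have h' : (40 : ℝ) * 2 ^ k * nm t ≤ 3 * P := by exact_mod_cast h
  have h1 : ∀ j ∈ range (2 ^ k), ‖ZMod.stdAddChar ((j : ZMod P) * t) - 1‖ ≤ 1 / 2 := by
    intro j hj
    rw [psi_eq]
    refine Real.norm_exp_I_mul_ofReal_sub_one_le.trans ?_
    have hj' : (j : ℝ) ≤ 2 ^ k := by exact_mod_cast (mem_range.1 hj).le
    rw [Real.norm_eq_abs, abs_div, abs_mul, ← nm_cast, abs_of_pos hP,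
      abs_of_nonneg (by positivity), div_le_iff₀ hP]
    have h3 : (j : ℝ) * nm t ≤ 2 ^ k * nm t := by gcongr
    have h4 := Real.pi_lt_d2
    have h5 : (0 : ℝ) ≤ j * nm t := by positivity
    nlinarith
  have h2 : ‖Dk k t - 1‖ ≤ 1 / 2 := by
    have : Dk k t - 1 = (∑ j ∈ range (2 ^ k), (ZMod.stdAddChar ((j : ZMod P) * t) - 1)) / 2 ^ k := by
      unfold Dk
      rw [sum_sub_distrib]
      simp only [sum_const, card_range, nsmul_eq_mul, mul_one]
      push_cast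
      field_simp
    rw [this, norm_div, norm_pow, Complex.norm_ofNat, div_le_iff₀ (by positivity)]
    refine (norm_sum_le _ _).trans ((sum_le_sum h1).trans ?_)
    simp [mul_comm]
  have h3 := norm_sub_norm_le (1 : ℂ) (Dk k t)
  rw [norm_sub_rev, norm_one] at h3
  linarith

lemma Dk_upper (k : ℕ) (t : ZMod P) : ‖Dk k t‖ * (2 * 2 ^ k * nm t) ≤ P := by
  have hP : (0 : ℝ) < P := by exact_mod_cast Nat.pos_of_ne_zero (NeZero.ne P)
  set z : ℂ := ZMod.stdAddChar t with hz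
  have h1 : ∑ j ∈ range (2 ^ k), ZMod.stdAddChar ((j : ZMod P) * t) =
      ∑ j ∈ range (2 ^ k), z ^ j := by
    refine sum_congr rfl fun j _ => ?_
    rw [hz, ← AddChar.map_nsmul_eq_pow, nsmul_eq_mul]
  have h2 : ‖∑ j ∈ range (2 ^ k), z ^ j‖ * ‖z - 1‖ ≤ 2 := by
    rw [← norm_mul, geom_sum_mul]
    refine (norm_sub_le _ _).trans ?_
    rw [norm_pow, hz, AddChar.norm_apply]
    norm_num
  have h3 : 4 * (nm t : ℝ) ≤ ‖z - 1‖ * P := by
    have e1 := psi_eq 1 t
    simp only [Nat.cast_one, one_mul, mul_one] at e1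
    rw [hz, e1, Complex.norm_exp_I_mul_ofReal_sub_one, Real.norm_eq_abs, abs_mul, abs_two]
    have h4 : (nm t : ℝ) * 2 ≤ P := by
      have := ZMod.natAbs_valMinAbs_le t
      have h5 : nm t * 2 ≤ P := by
        unfold nm
        omega
      exact_mod_cast h5
    have e2 : |2 * Real.pi * (t.valMinAbs : ℝ) / P / 2| = Real.pi * (nm t / P) := by
      rw [nm_cast, abs_div, abs_div, abs_mul, abs_of_pos hP, abs_two,
        abs_of_pos (by positivity : (0 : ℝ) < 2 * Real.pi)]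
      ring
    have h6 := Real.mul_abs_le_abs_sin (x := 2 * Real.pi * (t.valMinAbs : ℝ) / P / 2) (by
      rw [e2]
      have : (nm t : ℝ) / P ≤ 1 / 2 := by
        rw [div_le_iff₀ hP]
        linarith
      nlinarith [Real.pi_pos])
    rw [e2] at h6
    have e3 : 2 / Real.pi * (Real.pi * (nm t / P)) = 2 * nm t / P := by
      field_simp
    rw [e3, div_le_iff₀ hP] at h6
    linarith
  unfold Dk
  rw [h1, norm_div, norm_pow, Complex.norm_ofNat]
  have e4 : ‖∑ j ∈ range (2 ^ k), z ^ j‖ / 2 ^ k * (2 * 2 ^ k * nm t) =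
      ‖∑ j ∈ range (2 ^ k), z ^ j‖ * (4 * nm t) / 2 := by
    field_simp
    ring
  rw [e4]
  have h7 := mul_le_mul_of_nonneg_left h3 (norm_nonneg (∑ j ∈ range (2 ^ k), z ^ j))
  nlinarith

lemma phi_lower (k : ℕ) (y x : G P) (h : 40 * 2 ^ k * dd x y ≤ 3 * P) :
    1 / 16 ≤ ‖phi k y x‖ := by
  have h1 := Dk_lower k (x.1 - y.1) (le_trans (Nat.mul_le_mul_left _ (le_max_left _ _)) h)
  have h2 := Dk_lower k (x.2 - y.2) (le_trans (Nat.mul_le_mul_left _ (le_max_right _ _)) h)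
  unfold phi
  simp only [norm_mul]
  have h3 : 1 / 4 ≤ ‖Dk k (x.1 - y.1)‖ * ‖Dk k (x.1 - y.1)‖ := by nlinarith
  have h4 : 1 / 4 ≤ ‖Dk k (x.2 - y.2)‖ * ‖Dk k (x.2 - y.2)‖ := by nlinarith
  nlinarith

lemma phi_le_one (k : ℕ) (y x : G P) : ‖phi k y x‖ ≤ 1 := by
  have h1 := Dk_le_one k (x.1 - y.1)
  have h2 := Dk_le_one k (x.2 - y.2)
  unfold phi
  simp only [norm_mul]
  exact mul_le_one₀ (mul_le_one₀ h1 (norm_nonneg _) h1) (by positivity)
    (mul_le_one₀ h2 (norm_nonneg _) h2)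

lemma phi_decay (k : ℕ) (y x : G P) : ‖phi k y x‖ * (2 * 2 ^ k * dd x y) ^ 2 ≤ (P : ℝ) ^ 2 := by
  have h1 := Dk_le_one k (x.1 - y.1)
  have h2 := Dk_le_one k (x.2 - y.2)
  have h3 := Dk_upper k (x.1 - y.1)
  have h4 := Dk_upper k (x.2 - y.2)
  have key : ∀ a b w : ℝ, 0 ≤ a → 0 ≤ b → 0 ≤ w → b ≤ 1 → a * w ≤ P →
      (a * a) * (b * b) * w ^ 2 ≤ (P : ℝ) ^ 2 := by
    intro a b w ha hb hw hb1 h
    have k1 : (a * w) ^ 2 ≤ (P : ℝ) ^ 2 := pow_le_pow_left₀ (by positivity) h 2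
    have k2 : b * b ≤ 1 := mul_le_one₀ hb1 hb hb1
    nlinarith [sq_nonneg (a * w)]
  unfold phi dd
  simp only [norm_mul]
  rcases le_total (nm (x.1 - y.1)) (nm (x.2 - y.2)) with h | h
  · rw [max_eq_right h, mul_comm (_ * _) (‖Dk k (x.2 - y.2)‖ * _)]
    exact key _ _ _ (norm_nonneg _) (norm_nonneg _) (by positivity) h1 h4
  · rw [max_eq_left h]
    exact key _ _ _ (norm_nonneg _) (norm_nonneg _) (by positivity) h2 h3

lemma phi_upper (k : ℕ) (y x : G P) : 16 ^ k * ‖phi k y x‖ ^ 2 ≤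
    40 ^ 4 * (1 + ∑ j ∈ range k, if x ∈ Bl y j then (16 : ℝ) ^ j else 0) := by
  have key : ∀ i : ℕ, (16 : ℝ) ^ i ≤ 16 * (1 + ∑ j ∈ range i, if x ∈ Bl y j then (16 : ℝ) ^ j else 0)
      ∨ (0 < dd x y ∧ (P : ℝ) ^ 4 ≤ 16 * 40 ^ 4 *
        (1 + ∑ j ∈ range i, if x ∈ Bl y j then (16 : ℝ) ^ j else 0) * (dd x y : ℝ) ^ 4) := by
    intro i
    induction i with
    | zero => left; norm_num
    | succ i ih =>
      have h0 : (0 : ℝ) ≤ ∑ j ∈ range i, if x ∈ Bl y j then (16 : ℝ) ^ j else 0 :=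
        sum_nonneg fun j _ => by positivity
      rw [sum_range_succ]
      by_cases hx : x ∈ Bl y i
      · left
        rw [if_pos hx, pow_succ]
        linarith
      · right
        rw [if_neg hx, add_zero]
        rcases ih with ih | ih
        · have h1 : P < 40 * 2 ^ i * dd x y := by simpa [Bl] using hx
          refine ⟨Nat.pos_of_ne_zero fun h => by simp [h] at h1, ?_⟩
          have h2 : (P : ℝ) ≤ 40 * 2 ^ i * dd x y := by exact_mod_cast h1.le
          have h3 := pow_le_pow_left₀ (by positivity) h2 4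
          have e1 : ((40 : ℝ) * 2 ^ i * dd x y) ^ 4 = 40 ^ 4 * 16 ^ i * (dd x y : ℝ) ^ 4 := by
            rw [mul_pow, mul_pow, ← pow_mul, mul_comm i 4, pow_mul]
            norm_num
          rw [e1] at h3
          refine h3.trans ?_
          have : (0 : ℝ) ≤ (dd x y : ℝ) ^ 4 := by positivity
          nlinarith
        · exact ih
  have h0 : (0 : ℝ) ≤ ∑ j ∈ range k, if x ∈ Bl y j then (16 : ℝ) ^ j else 0 :=
    sum_nonneg fun j _ => by positivity
  rcases key k with h | ⟨h1, h⟩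
  · have h2 : ‖phi k y x‖ ^ 2 ≤ 1 := pow_le_one₀ (norm_nonneg _) (phi_le_one k y x)
    have h3 : (0 : ℝ) < 16 ^ k := by positivity
    nlinarith
  · have h2 := pow_le_pow_left₀ (by positivity) (phi_decay k y x) 2
    have hd : (0 : ℝ) < (dd x y : ℝ) ^ 4 := by
      have : (0 : ℝ) < dd x y := by exact_mod_cast h1
      positivity
    have e1 : (‖phi k y x‖ * (2 * 2 ^ k * dd x y) ^ 2) ^ 2 =
        16 * (16 ^ k * ‖phi k y x‖ ^ 2) * (dd x y : ℝ) ^ 4 := by
      have : (16 : ℝ) ^ k = (2 ^ k) ^ 4 := by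
        rw [← pow_mul, mul_comm k 4, pow_mul]
        norm_num
      rw [this]
      ring
    rw [e1, ← pow_mul] at h2
    have h3 := le_of_mul_le_mul_right (h2.trans h) hd
    linarith

lemma card_Bl (y : G P) (j : ℕ) (h : 2 * 2 ^ j ≤ P) : (4 : ℝ) ^ j * (Bl y j).card ≤ (P : ℝ) ^ 2 := by
  set r : ℕ := P / (40 * 2 ^ j) with hr
  have h1 : (Bl y j).card ≤ (box (r : ℤ)).card := by
    refine card_le_card_of_injOn (fun x => ((x.1 - y.1).valMinAbs, (x.2 - y.2).valMinAbs))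
      (fun x hx => ?_) (fun x _ z _ hxz => ?_)
    · have h2 : 40 * 2 ^ j * dd x y ≤ P := by simpa [Bl] using hx
      have h3 : dd x y ≤ r := by
        rw [hr, Nat.le_div_iff_mul_le (by positivity), mul_comm]
        exact h2
      rw [mem_coe, mem_box]
      unfold dd nm at h3
      simp only [Int.abs_eq_natAbs]
      omega
    · simp only [Prod.mk.injEq, ZMod.valMinAbs_inj, sub_left_inj] at hxz
      exact Prod.ext hxz.1 hxz.2
  have h2 : ((Bl y j).card : ℝ) ≤ (2 * r + 1) ^ 2 := by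
    have := card_box (r : ℤ) (by positivity)
    push_cast at this
    rw [← this]
    exact_mod_cast h1
  have h3 : r * (40 * 2 ^ j) ≤ P := Nat.div_mul_le_self _ _
  have h4 : (r : ℝ) * (40 * 2 ^ j) ≤ P := by exact_mod_cast h3
  have h5 : (2 : ℝ) * 2 ^ j ≤ P := by exact_mod_cast h
  have h6 : (2 : ℝ) ^ j * (2 * r + 1) ≤ P := by
    have : (0 : ℝ) ≤ r * 2 ^ j := by positivity
    nlinarith
  have h7 := pow_le_pow_left₀ (by positivity) h6 2
  have e1 : (4 : ℝ) ^ j = (2 ^ j) ^ 2 := by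
    rw [← pow_mul, mul_comm j 2, pow_mul]
    norm_num
  rw [mul_pow, ← e1] at h7
  exact (mul_le_mul_of_nonneg_left h2 (by positivity)).trans h7

lemma Sp_phi (k : ℕ) (y : G P) : Sp (phi k y) (box (4 * 2 ^ k)) := by
  have h1 : Sp (fun x : G P => Dk k (x.1 - y.1)) (box (2 ^ k)) := by
    have := Sp_of_sum (P := P) (range (2 ^ k)) (fun j => ((j : ℤ), 0))
      (fun j => ZMod.stdAddChar (-((j : ZMod P) * y.1)) / 2 ^ k) (box (2 ^ k)) (fun j hj => by
        have : (j : ℤ) ≤ 2 ^ k := by exact_mod_cast (mem_range.1 hj).le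
        simp [mem_box, this])
    convert this using 2 with x
    unfold Dk e
    rw [sum_div]
    refine sum_congr rfl fun j _ => ?_
    rw [div_mul_eq_mul_div, ← AddChar.map_add_eq_mul]
    congr 2
    push_cast
    ring
  have h2 : Sp (fun x : G P => Dk k (x.2 - y.2)) (box (2 ^ k)) := by
    have := Sp_of_sum (P := P) (range (2 ^ k)) (fun j => (0, (j : ℤ)))
      (fun j => ZMod.stdAddChar (-((j : ZMod P) * y.2)) / 2 ^ k) (box (2 ^ k)) (fun j hj => by
        have : (j : ℤ) ≤ 2 ^ k := by exact_mod_cast (mem_range.1 hj).le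
        simp [mem_box, this])
    convert this using 2 with x
    unfold Dk e
    rw [sum_div]
    refine sum_congr rfl fun j _ => ?_
    rw [div_mul_eq_mul_div, ← AddChar.map_add_eq_mul]
    congr 2
    push_cast
    ring
  have h3 := h1.mul h1 _ (fun a ha b hb => box_add ha hb)
  have h4 := h2.mul h2 _ (fun a ha b hb => box_add ha hb)
  have h5 := h3.mul h4 _ (fun a ha b hb => box_add ha hb)
  have e1 : (4 * 2 ^ k : ℤ) = 2 ^ k + 2 ^ k + (2 ^ k + 2 ^ k) := by ring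
  rw [e1]
  exact h5

end E3L
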