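import Pool.Agent.Lib.MP_4d4569_co.E3Kernel

set_option autoImplicit false

namespace E3L
open Finset

variable {P : ℕ} [NeZero P] {ι : Type*}

/-- the exponential sum over `X` -/
noncomputable def fs (γ : ι → ℤ × ℤ) (c : ι → ℂ) (X : Finset ι) (x : G P) : ℂ :=
  ∑ a ∈ X, c a * e (γ a) x

/-- the square function of the blocks -/
noncomputable def gs (γ : ι → ℤ × ℤ) (c : ι → ℂ) (X : Finset ι) (bl : ι → ℕ) (K : ℕ)
    (x : G P) : ℝ :=
  ∑ s ∈ range K, ‖fs γ c (X.filter fun a => bl a = s) x‖ ^ 2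

/-- the `R`-neighbourhood of the frequencies of `X` -/
noncomputable def nb (γ : ι → ℤ × ℤ) (X : Finset ι) (R : ℤ) : Finset (ℤ × ℤ) :=
  (X ×ˢ box R).image fun p => γ p.1 + p.2

lemma mem_nb {γ : ι → ℤ × ℤ} {X : Finset ι} {R : ℤ} {z : ℤ × ℤ} :
    z ∈ nb γ X R ↔ ∃ a ∈ X, |z.1 - (γ a).1| ≤ R ∧ |z.2 - (γ a).2| ≤ R := by
  simp only [nb, mem_image, mem_product, mem_box, Prod.exists]
  constructor
  · rintro ⟨a, r1, r2, ⟨ha, h1, h2⟩, rfl⟩
    exact ⟨a, ha, by simpa using h1, by simpa using h2⟩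
  · rintro ⟨a, ha, h1, h2⟩
    exact ⟨a, z.1 - (γ a).1, z.2 - (γ a).2, ⟨ha, h1, h2⟩, by ext <;> simp⟩

lemma gs_nonneg (γ : ι → ℤ × ℤ) (c : ι → ℂ) (X : Finset ι) (bl : ι → ℕ) (K : ℕ) (x : G P) :
    0 ≤ gs γ c X bl K x := sum_nonneg fun _ _ => by positivity

lemma fs_blocks (γ : ι → ℤ × ℤ) (c : ι → ℂ) (X : Finset ι) (bl : ι → ℕ) (T : Finset ℕ)
    (x : G P) : fs γ c (X.filter fun a => bl a ∈ T) x =
      ∑ s ∈ T, fs γ c (X.filter fun a => bl a = s) x := by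
  unfold fs
  rw [Finset.sum_fiberwise_eq_sum_filter]

lemma Sp_fs_mul (γ : ι → ℤ × ℤ) (c : ι → ℂ) {X Y : Finset ι} (hY : Y ⊆ X) {φ : G P → ℂ} {R : ℤ}
    (hφ : Sp φ (box R)) : Sp (fun x => fs γ c Y x * φ x) (nb γ X R) := by
  classical
  have h1 : Sp (fun x : G P => fs γ c Y x) (Y.image γ) :=
    Sp_of_sum Y γ c _ (fun i hi => mem_image_of_mem _ hi)
  refine h1.mul hφ _ (fun a ha b hb => ?_)
  obtain ⟨i, hi, rfl⟩ := mem_image.1 ha
  rw [mem_box] at hb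
  exact mem_nb.2 ⟨i, hY hi, by simpa using hb.1, by simpa using hb.2⟩

omit [NeZero P] in
lemma Sm_nb {γ : ι → ℤ × ℤ} {X : Finset ι} {R L : ℤ} (hL : ∀ a ∈ X, γ a ∈ box L)
    (hP : 4 * (L + R) < P) : Sm P (nb γ X R) := by
  intro z hz
  obtain ⟨a, ha, h1, h2⟩ := mem_nb.1 hz
  obtain ⟨h3, h4⟩ := mem_box.1 (hL a ha)
  rw [abs_le] at h1 h2 h3 h4
  have k1 : |z.1| ≤ L + R := abs_le.2 ⟨by linarith, by linarith⟩
  have k2 : |z.2| ≤ L + R := abs_le.2 ⟨by linarith, by linarith⟩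
  constructor <;> linarith

/-- `h` measures the sup distance of the frequencies -/
def Main (γ : ι → ℤ × ℤ) (X : Finset ι) (h : ι → ℤ) : Prop :=
  ∀ a ∈ X, ∀ b ∈ X, |h a - h b| = max |(γ a).1 - (γ b).1| |(γ a).2 - (γ b).2|

lemma local_one (γ : ι → ℤ × ℤ) (c : ι → ℂ) (X : Finset ι) (h : ι → ℤ) (bl : ι → ℕ) (K : ℕ)
    (φ : G P → ℂ) (R L : ℤ) (hR : 0 ≤ R) (hφ : Sp φ (box R)) (hL : ∀ a ∈ X, γ a ∈ box L)
    (hP : 4 * (L + R) < P) (hm : Main γ X h)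
    (mono : ∀ a ∈ X, ∀ b ∈ X, h a ≤ h b → bl a ≤ bl b) (hK : ∀ a ∈ X, bl a < K) :
    ∃ Y ⊆ X, (∑ x, ‖fs γ c Y x * φ x‖ ^ 2 ≤ 2 * ∑ x, gs γ c X bl K x * ‖φ x‖ ^ 2) ∧
      (∀ x, (P : ℝ) ^ 2 * ‖(fs γ c X x - fs γ c Y x) * φ x‖ ^ 2 ≤
        K * (6 * R + 1) ^ 2 * ∑ x, gs γ c X bl K x * ‖φ x‖ ^ 2) ∧
      ((∀ a ∈ X, ∀ b ∈ X, |h a - h b| ≤ 2 * R) → Y = ∅) := by
  classical
  set lg : ℕ → Prop := fun s => ∃ a ∈ X, ∃ b ∈ X, bl a = s ∧ bl b = s ∧ 2 * R < h b - h a with hlg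
  set T := (range K).filter lg with hT
  set T' := (range K).filter (fun s => ¬ lg s) with hT'
  set F : ℕ → G P → ℂ := fun s x => fs γ c (X.filter fun a => bl a = s) x * φ x with hF
  set Λ : ℕ → Finset (ℤ × ℤ) := fun s => nb γ (X.filter fun a => bl a = s) R with hΛ
  have hSp : ∀ s, Sp (F s) (Λ s) := fun s => Sp_fs_mul γ c Subset.rfl hφ
  have hsub : ∀ s, Λ s ⊆ nb γ X R := fun s z hz => by
    obtain ⟨a, ha, h1⟩ := mem_nb.1 hz
    exact mem_nb.2 ⟨a, (mem_filter.1 ha).1, h1⟩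
  have hSm : Sm P (nb γ X R) := Sm_nb hL hP
  have hE : ∑ s ∈ range K, ∑ x, ‖F s x‖ ^ 2 = ∑ x, gs γ c X bl K x * ‖φ x‖ ^ 2 := by
    rw [sum_comm]
    refine sum_congr rfl fun x _ => ?_
    unfold gs
    rw [sum_mul]
    refine sum_congr rfl fun s _ => ?_
    simp only [hF, norm_mul, mul_pow]
  have hle : ∀ S ⊆ range K, ∑ s ∈ S, ∑ x, ‖F s x‖ ^ 2 ≤ ∑ x, gs γ c X bl K x * ‖φ x‖ ^ 2 := by
    intro S hS
    rw [← hE]
    exact sum_le_sum_of_subset_of_nonneg hS fun _ _ _ => by positivity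
  refine ⟨X.filter fun a => bl a ∈ T, filter_subset _ _, ?_, fun x => ?_, fun hd => ?_⟩
  · have h1 : ∀ x, fs γ c (X.filter fun a => bl a ∈ T) x * φ x = ∑ s ∈ T, F s x := by
      intro x
      rw [fs_blocks, sum_mul]
    simp_rw [h1]
    refine (Sp_overlap T F Λ (nb γ X R) 2 (fun s _ => hSp s) (fun s _ => hsub s) hSm
      (fun z => ?_)).trans (by linarith [hle T (filter_subset _ _)])
    have key : ∀ i ∈ T.filter (fun s => z ∈ Λ s), ∀ j ∈ T.filter (fun s => z ∈ Λ s),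
        ∀ l ∈ T.filter (fun s => z ∈ Λ s), ¬ (i < j ∧ j < l) := by
      rintro i hi j hj l hl ⟨hij, hjl⟩
      obtain ⟨a, ha, a1, a2⟩ := mem_nb.1 (mem_filter.1 hi).2
      obtain ⟨b, hb, b1, b2⟩ := mem_nb.1 (mem_filter.1 hl).2
      obtain ⟨u, hu, v, hv, u1, v1, huv⟩ := (mem_filter.1 (mem_filter.1 hj).1).2
      obtain ⟨ha, ha'⟩ := mem_filter.1 ha
      obtain ⟨hb, hb'⟩ := mem_filter.1 hb
      have k1 : h a < h u := by
        by_contra hh
        have := mono u hu a ha (not_lt.1 hh)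
        omega
      have k2 : h v < h b := by
        by_contra hh
        have := mono b hb v hv (not_lt.1 hh)
        omega
      have k3 := hm b hb a ha
      rw [abs_le] at a1 a2 b1 b2
      have k4 : |(γ b).1 - (γ a).1| ≤ 2 * R := abs_le.2 ⟨by linarith, by linarith⟩
      have k5 : |(γ b).2 - (γ a).2| ≤ 2 * R := abs_le.2 ⟨by linarith, by linarith⟩
      have k6 := le_abs_self (h b - h a)
      have k7 := max_le k4 k5
      linarith
    have : (T.filter fun s => z ∈ Λ s).card ≤ 2 := by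
      by_contra hh
      obtain ⟨i, hi, j, hj, l, hl, h1, h2, h3⟩ := Finset.two_lt_card.1 (not_le.1 hh)
      have := key i hi j hj l hl
      have := key i hi l hl j hj
      have := key j hj i hi l hl
      have := key j hj l hl i hi
      have := key l hl i hi j hj
      have := key l hl j hj i hi
      omega
    exact_mod_cast this
  · have h1 : (fs γ c X x - fs γ c (X.filter fun a => bl a ∈ T) x) * φ x = ∑ s ∈ T', F s x := by
      have e1 : fs γ c X x = ∑ s ∈ range K, fs γ c (X.filter fun a => bl a = s) x := by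
        rw [← fs_blocks, filter_true_of_mem fun a ha => mem_range.2 (hK a ha)]
      rw [e1, fs_blocks, ← sum_filter_add_sum_filter_not (range K) lg, add_sub_cancel_left, sum_mul]
    have h2 : ∀ s ∈ T', (P : ℝ) ^ 2 * ‖F s x‖ ^ 2 ≤ (6 * R + 1) ^ 2 * ∑ y, ‖F s y‖ ^ 2 := by
      intro s hs
      refine ((hSp s).nik (fun z hz => hSm z (hsub s hz)) x).trans
        (mul_le_mul_of_nonneg_right ?_ (by positivity))
      rcases (X.filter fun a => bl a = s).eq_empty_or_nonempty with h0 | ⟨a, ha⟩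
      · simp only [hΛ, h0, nb, empty_product, image_empty, card_empty, Nat.cast_zero]
        positivity
      · have h3 : (Λ s).card ≤ (box (3 * R)).card := by
          refine card_le_card_of_injOn (fun z => z - γ a) (fun z hz => ?_)
            (fun z _ w _ hzw => sub_left_inj.1 hzw)
          obtain ⟨b, hb, b1, b2⟩ := mem_nb.1 hz
          obtain ⟨ha, ha'⟩ := mem_filter.1 ha
          obtain ⟨hb, hb'⟩ := mem_filter.1 hb
          have hn := (mem_filter.1 hs).2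
          simp only [hlg, not_exists, not_and, not_lt] at hn
          have k1 := hn a ha b hb ha' hb'
          have k2 := hn b hb a ha hb' ha'
          have k3 : |h b - h a| ≤ 2 * R := abs_le.2 ⟨by linarith, k1⟩
          rw [hm b hb a ha, max_le_iff] at k3
          obtain ⟨k4, k5⟩ := k3
          rw [abs_le] at b1 b2 k4 k5
          rw [mem_coe, mem_box]
          simp only [Prod.fst_sub, Prod.snd_sub]
          constructor <;> rw [abs_le] <;> constructor <;> linarith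
        have h4 := card_box (3 * R) (by linarith)
        have h5 : ((Λ s).card : ℝ) ≤ (box (3 * R)).card := by exact_mod_cast h3
        rw [h4] at h5
        refine h5.trans (le_of_eq ?_)
        push_cast
        ring
    have h3 : ‖∑ s ∈ T', F s x‖ ^ 2 ≤ K * ∑ s ∈ T', ‖F s x‖ ^ 2 := by
      refine (pow_le_pow_left₀ (norm_nonneg _) (norm_sum_le _ _) 2).trans
        (sq_sum_le_card_mul_sum_sq.trans (mul_le_mul_of_nonneg_right ?_ (by positivity)))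
      have := card_filter_le (range K) (fun s => ¬ lg s)
      rw [card_range] at this
      exact_mod_cast this
    have h4 := sum_le_sum h2
    rw [← mul_sum, ← mul_sum] at h4
    have h5 := hle T' (filter_subset _ _)
    rw [h1]
    calc (P : ℝ) ^ 2 * ‖∑ s ∈ T', F s x‖ ^ 2 ≤ (P : ℝ) ^ 2 * (K * ∑ s ∈ T', ‖F s x‖ ^ 2) := by gcongr
      _ = K * ((P : ℝ) ^ 2 * ∑ s ∈ T', ‖F s x‖ ^ 2) := by ring
      _ ≤ K * ((6 * R + 1) ^ 2 * ∑ x, gs γ c X bl K x * ‖φ x‖ ^ 2) := by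
        refine mul_le_mul_of_nonneg_left (h4.trans ?_) (by positivity)
        gcongr
      _ = _ := by ring
  · refine filter_eq_empty_iff.2 fun a _ hs => ?_
    obtain ⟨u, hu, v, hv, -, -, huv⟩ := (mem_filter.1 hs).2
    have := hd v hv u hu
    have := le_abs_self (h v - h u)
    linarith

/-- transversality of the pair `I`, `J` -/
def Tr (γ : ι → ℤ × ℤ) (I J : Finset ι) : Prop :=
  (∀ a ∈ I, ∀ b ∈ I, 2 * |(γ a).2 - (γ b).2| ≤ |(γ a).1 - (γ b).1|) ∧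
    ∀ a ∈ J, ∀ b ∈ J, |(γ a).1 - (γ b).1| ≤ |(γ a).2 - (γ b).2|

lemma Tr.main1 {γ : ι → ℤ × ℤ} {I J : Finset ι} (h : Tr γ I J) : Main γ I fun a => (γ a).1 := by
  intro a ha b hb
  have := h.1 a ha b hb
  have := abs_nonneg ((γ a).2 - (γ b).2)
  rw [max_eq_left (by linarith)]

lemma Tr.main2 {γ : ι → ℤ × ℤ} {I J : Finset ι} (h : Tr γ I J) : Main γ J fun a => (γ a).2 := by
  intro a ha b hb
  rw [max_eq_right (h.2 a ha b hb)]

lemma Tr.count {γ : ι → ℤ × ℤ} {I J : Finset ι} (h : Tr γ I J) (R : ℤ) (hR : 0 ≤ R) :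
    ∀ p ∈ nb γ I R ×ˢ nb γ J R, ((((nb γ I R ×ˢ nb γ J R).filter
      fun q => q.1 + q.2 = p.1 + p.2).card : ℕ) : ℝ) ≤ (36 * R + 1) ^ 2 := by
  intro p hp
  have h3 : ((nb γ I R ×ˢ nb γ J R).filter fun q => q.1 + q.2 = p.1 + p.2).card ≤
      (box (18 * R)).card := by
    refine card_le_card_of_injOn (fun q => q.1 - p.1) (fun q hq => ?_) (fun q hq w hw hqw => ?_)
    · obtain ⟨hq, hs⟩ := mem_filter.1 (mem_coe.1 hq)
      obtain ⟨a, ha, a1, a2⟩ := mem_nb.1 (mem_product.1 hq).1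
      obtain ⟨b, hb, b1, b2⟩ := mem_nb.1 (mem_product.1 hq).2
      obtain ⟨a', ha', a3, a4⟩ := mem_nb.1 (mem_product.1 hp).1
      obtain ⟨b', hb', b3, b4⟩ := mem_nb.1 (mem_product.1 hp).2
      have s1 : q.1.1 + q.2.1 = p.1.1 + p.2.1 := congrArg Prod.fst hs
      have s2 : q.1.2 + q.2.2 = p.1.2 + p.2.2 := congrArg Prod.snd hs
      have t1 := h.1 a ha a' ha'
      have t2 := h.2 b hb b' hb'
      rw [abs_le] at a1 a2 a3 a4 b1 b2 b3 b4
      have u1 : |(γ a).1 - (γ a').1| ≤ |(γ b).1 - (γ b').1| + 4 * R := by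
        have := le_abs_self ((γ b).1 - (γ b').1)
        have := neg_abs_le ((γ b).1 - (γ b').1)
        rw [abs_le]
        constructor <;> linarith
      have u2 : |(γ b).2 - (γ b').2| ≤ |(γ a).2 - (γ a').2| + 4 * R := by
        have := le_abs_self ((γ a).2 - (γ a').2)
        have := neg_abs_le ((γ a).2 - (γ a').2)
        rw [abs_le]
        constructor <;> linarith
      have u3 : |(γ a).1 - (γ a').1| ≤ 16 * R := by linarith
      have u4 : |(γ a).2 - (γ a').2| ≤ 8 * R := by linarith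
      rw [abs_le] at u3 u4
      rw [mem_coe, mem_box]
      simp only [Prod.fst_sub, Prod.snd_sub]
      constructor <;> rw [abs_le] <;> constructor <;> linarith
    · have e1 : q.1 = w.1 := sub_left_inj.1 hqw
      have e2 := (mem_filter.1 (mem_coe.1 hq)).2
      have e3 := (mem_filter.1 (mem_coe.1 hw)).2
      rw [← e3, e1] at e2
      exact Prod.ext e1 (add_left_cancel e2)
  have h4 := card_box (18 * R) (by linarith)
  have h5 : ((((nb γ I R ×ˢ nb γ J R).filter fun q => q.1 + q.2 = p.1 + p.2).card : ℕ) : ℝ) ≤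
      (box (18 * R)).card := by exact_mod_cast h3
  rw [h4] at h5
  refine h5.trans (le_of_eq ?_)
  push_cast
  ring

lemma local_two (γ : ι → ℤ × ℤ) (c : ι → ℂ) (I J : Finset ι) (bI bJ : ι → ℕ) (K k : ℕ) (y : G P)
    (L : ℤ) (b W : ℝ) (hb : 0 < b) (ht : Tr γ I J) (hI : ∀ a ∈ I, γ a ∈ box L)
    (hJ : ∀ a ∈ J, γ a ∈ box L) (hP : 4 * (L + 4 * 2 ^ k) < P)
    (mI : ∀ a ∈ I, ∀ b ∈ I, (γ a).1 ≤ (γ b).1 → bI a ≤ bI b) (KI : ∀ a ∈ I, bI a < K)
    (mJ : ∀ a ∈ J, ∀ b ∈ J, (γ a).2 ≤ (γ b).2 → bJ a ≤ bJ b) (KJ : ∀ a ∈ J, bJ a < K)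
    (EI : 4 ^ k * ∑ x, gs γ c I bI K x * ‖phi k y x‖ ^ 2 ≤ W)
    (EJ : 4 ^ k * ∑ x, gs γ c J bJ K x * ‖phi k y x‖ ^ 2 ≤ W)
    (hW : 640000 * K * W ≤ b ^ 2 * (P : ℝ) ^ 2) (U : Finset (G P))
    (hU : ∀ x ∈ U, 40 * 2 ^ k * dd x y ≤ 3 * P ∧ b ≤ ‖fs γ c I x‖ ∧ b ≤ ‖fs γ c J x‖) :
    4 ^ k * b ^ 4 * U.card * (P : ℝ) ^ 2 ≤ 10 ^ 11 * W ^ 2 ∧ (L ≤ 4 * 2 ^ k → U = ∅) := by
  have hP0 : (0 : ℝ) < P := by exact_mod_cast Nat.pos_of_ne_zero (NeZero.ne P)
  have hR : (0 : ℤ) ≤ 4 * 2 ^ k := by positivity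
  obtain ⟨Y, hY, y1, y2, y3⟩ := local_one γ c I _ bI K (phi k y) _ L hR (Sp_phi k y) hI hP
    ht.main1 mI KI
  obtain ⟨Z, hZ, z1, z2, -⟩ := local_one γ c J _ bJ K (phi k y) _ L hR (Sp_phi k y) hJ hP
    ht.main2 mJ KJ
  have h2k : (1 : ℝ) ≤ 2 ^ k := one_le_pow₀ (by norm_num)
  have e4 : (4 : ℝ) ^ k = (2 ^ k) ^ 2 := by
    rw [← pow_mul, mul_comm k 2, pow_mul]
    norm_num
  have key : ∀ (u v w : ℂ) (E : ℝ), 0 ≤ E → 4 ^ k * E ≤ W → 1 / 16 ≤ ‖w‖ → b ≤ ‖u‖ →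
      (P : ℝ) ^ 2 * ‖(u - v) * w‖ ^ 2 ≤ K * (6 * ((4 * 2 ^ k : ℤ) : ℝ) + 1) ^ 2 * E →
      b / 32 ≤ ‖v * w‖ := by
    intro u v w E hE hEW hw hu h
    have k1 : (6 * ((4 * 2 ^ k : ℤ) : ℝ) + 1) ^ 2 ≤ 625 * 4 ^ k := by
      push_cast
      rw [e4]
      nlinarith
    have k2 : (P : ℝ) ^ 2 * ‖(u - v) * w‖ ^ 2 ≤ K * (625 * W) := by
      refine h.trans ?_
      rw [mul_assoc]
      refine mul_le_mul_of_nonneg_left ?_ (by positivity)
      nlinarith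
    have k3 : (P : ℝ) ^ 2 * ‖(u - v) * w‖ ^ 2 ≤ (P : ℝ) ^ 2 * (b / 32) ^ 2 := by nlinarith
    have k4 := le_of_mul_le_mul_left k3 (by positivity)
    have k5 : ‖(u - v) * w‖ ≤ b / 32 := by
      exact (pow_le_pow_iff_left₀ (norm_nonneg _) (by positivity) two_ne_zero).1 k4
    have k6 : ‖u * w‖ ≤ ‖(u - v) * w‖ + ‖v * w‖ := by
      refine le_trans (le_of_eq ?_) (norm_add_le _ _)
      congr 1
      ring
    have k7 : b / 16 ≤ ‖u * w‖ := by
      rw [norm_mul]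
      nlinarith
    linarith
  have EI0 : 0 ≤ ∑ x, gs γ c I bI K x * ‖phi k y x‖ ^ 2 :=
    sum_nonneg fun x _ => mul_nonneg (gs_nonneg _ _ _ _ _ _) (by positivity)
  have EJ0 : 0 ≤ ∑ x, gs γ c J bJ K x * ‖phi k y x‖ ^ 2 :=
    sum_nonneg fun x _ => mul_nonneg (gs_nonneg _ _ _ _ _ _) (by positivity)
  have lY : ∀ x ∈ U, b / 32 ≤ ‖fs γ c Y x * phi k y x‖ := fun x hx =>
    key _ _ _ _ EI0 EI (phi_lower k y x (hU x hx).1) (hU x hx).2.1 (y2 x)
  have lZ : ∀ x ∈ U, b / 32 ≤ ‖fs γ c Z x * phi k y x‖ := fun x hx =>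
    key _ _ _ _ EJ0 EJ (phi_lower k y x (hU x hx).1) (hU x hx).2.2 (z2 x)
  constructor
  · have h1 := (Sp_fs_mul γ c hY (Sp_phi k y)).bilin (Sp_fs_mul γ c hZ (Sp_phi k y))
      (Sm_nb hI hP) (Sm_nb hJ hP) _ (ht.count _ hR)
    have h2 : U.card * (b / 32) ^ 4 ≤
        ∑ x, ‖fs γ c Y x * phi k y x * (fs γ c Z x * phi k y x)‖ ^ 2 := by
      refine le_trans ?_ (sum_le_sum_of_subset_of_nonneg (subset_univ U) fun _ _ _ => by positivity)
      rw [← nsmul_eq_mul]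
      refine card_nsmul_le_sum _ _ _ fun x hx => ?_
      have := mul_le_mul (lY x hx) (lZ x hx) (by positivity) (norm_nonneg _)
      rw [norm_mul (fs γ c Y x * phi k y x)]
      refine le_trans (le_of_eq ?_) (pow_le_pow_left₀ (by positivity) this 2)
      ring
    have k1 : (36 * ((4 * 2 ^ k : ℤ) : ℝ) + 1) ^ 2 ≤ 21025 * 4 ^ k := by
      push_cast
      rw [e4]
      nlinarith
    have h3 : (P : ℝ) ^ 2 * (U.card * (b / 32) ^ 4) ≤ 21025 * 4 ^ k *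
        ((2 * ∑ x, gs γ c I bI K x * ‖phi k y x‖ ^ 2) *
          (2 * ∑ x, gs γ c J bJ K x * ‖phi k y x‖ ^ 2)) := by
      refine (mul_le_mul_of_nonneg_left h2 (by positivity)).trans (h1.trans ?_)
      gcongr
    have h4 := mul_le_mul EI EJ (by positivity) (le_trans (by positivity) EI)
    have h5 := mul_le_mul_of_nonneg_left h3 (by positivity : (0 : ℝ) ≤ 4 ^ k)
    nlinarith [sq_nonneg W]
  · intro hLk
    have hY0 := y3 (fun a ha a' ha' => by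
      have u1 := (mem_box.1 (hI a ha)).1
      have u2 := (mem_box.1 (hI a' ha')).1
      have := abs_sub (γ a).1 (γ a').1
      linarith)
    refine eq_empty_of_forall_notMem fun x hx => ?_
    have := lY x hx
    rw [hY0] at this
    simp only [fs, sum_empty, zero_mul, norm_zero] at this
    linarith

end E3L
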