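import Pool.Agent.Lib.MP_4d4569_co.E3Chain

set_option autoImplicit false

namespace E3L
open Finset Filter

variable {ι : Type*}

lemma big_small (T : Finset ℕ) (hT : T.card ≤ 801) (z : ℕ → ℂ) (b : ℝ) (hb : 0 < b)
    (h : b ≤ ‖∑ i ∈ T, z i‖) :
    (∃ i ∈ T, b / 6 ≤ ‖z i‖) ∨ 4 ≤ (T.filter fun i => b / 2000 ≤ ‖z i‖).card := by
  by_contra hh
  push Not at hh
  obtain ⟨h1, h2⟩ := hh
  have h3 := h.trans (norm_sum_le _ _)
  rw [← sum_filter_add_sum_filter_not T (fun i => b / 2000 ≤ ‖z i‖)] at h3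
  have h4 := sum_le_card_nsmul (T.filter fun i => b / 2000 ≤ ‖z i‖) (fun i => ‖z i‖)
    (b / 6) (fun i hi => (h1 i (mem_filter.1 hi).1).le)
  have h5 := sum_le_card_nsmul (T.filter fun i => ¬ b / 2000 ≤ ‖z i‖) (fun i => ‖z i‖)
    (b / 2000) (fun i hi => (not_le.1 (mem_filter.1 hi).2).le)
  have h6 := (card_filter_le T (fun i => ¬ b / 2000 ≤ ‖z i‖)).trans hT
  have h7 : (((T.filter fun i => ¬ b / 2000 ≤ ‖z i‖).card : ℕ) : ℝ) ≤ 801 := by
    exact_mod_cast h6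
  have h8 : (((T.filter fun i => b / 2000 ≤ ‖z i‖).card : ℕ) : ℝ) ≤ 3 := by
    exact_mod_cast Nat.lt_succ_iff.1 h2
  rw [nsmul_eq_mul] at h4 h5
  nlinarith

theorem weak (γ : ι → ℤ × ℤ) (c : ι → ℂ) (t : ι → ℤ) (X : Finset ι) : Tang γ t X →
    ∀ᶠ P : ℕ in PF, ∀ [NeZero P], ∀ b : ℝ, 0 < b →
      b ^ 6 * (univ.filter fun x : G P => b ≤ ‖fs γ c X x‖).card ≤
        10 ^ 66 * ms c X ^ 3 * (P : ℝ) ^ 2 := by
  classical
  induction X using Finset.strongInduction with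
  | H X ih =>
  intro hT
  rcases (ms_nonneg c X).eq_or_lt with h0 | npos
  · refine Eventually.of_forall fun P _ b hb => ?_
    have : (univ.filter fun x : G P => b ≤ ‖fs γ c X x‖) = ∅ := by
      refine filter_eq_empty_iff.2 fun x _ hx => ?_
      have h1 := fs_sq_le γ c X x
      rw [← h0, mul_zero] at h1
      nlinarith
    rw [this, ← h0]
    simp
  obtain ⟨T, hT1, hT2⟩ : ∃ T : Finset ℕ, T.card ≤ 801 ∧ ∀ i < 801, i ∈ T :=
    ⟨range 801, (card_range _).le, fun i hi => mem_range.2 hi⟩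
  set n := ms c X with hn
  set ix := arc c X (fun a => (γ a).1) (n / 400) with hix
  set Y : ℕ → Finset ι := fun i => X.filter fun a => ix a = i with hY
  have m0 : 0 < n / 400 := by positivity
  have Ysub : ∀ i, Y i ⊆ X := fun i => filter_subset _ _
  have ixlt : ∀ a ∈ X, ix a ∈ T := fun a _ => hT2 _ (arc_lt c X _ npos a)
  set S1 := T.filter fun i => ms c (Y i) ≤ n / 400 with hS1
  set S2 := (T ×ˢ T).filter fun p => Adm γ (Y p.1) (Y p.2) with hS2
  have ev1 : ∀ᶠ P : ℕ in PF, ∀ i ∈ S1, ∀ [NeZero P], ∀ b : ℝ, 0 < b →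
      b ^ 6 * (univ.filter fun x : G P => b ≤ ‖fs γ c (Y i) x‖).card ≤
        10 ^ 66 * ms c (Y i) ^ 3 * (P : ℝ) ^ 2 := by
    rw [eventually_all_finset]
    intro i hi
    refine ih (Y i) (Finset.ssubset_iff_subset_ne.2 ⟨Ysub i, fun e => ?_⟩) (hT.mono (Ysub i))
    have := (mem_filter.1 hi).2
    rw [e] at this
    linarith
  have ev2 : ∀ᶠ P : ℕ in PF, ∀ p ∈ S2, ∀ [NeZero P], ∀ b : ℝ, 0 < b →
      b ^ 6 * (univ.filter fun x : G P => b ≤ ‖fs γ c (Y p.1) x‖ ∧ b ≤ ‖fs γ c (Y p.2) x‖).card ≤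
        10 ^ 38 * (ms c (Y p.1) + ms c (Y p.2)) ^ 3 * (P : ℝ) ^ 2 := by
    rw [eventually_all_finset]
    intro p hp
    exact adm_bound γ c _ _ (hT.mono (Ysub _)).sid (hT.mono (Ysub _)).sid (mem_filter.1 hp).2
  filter_upwards [ev1, ev2] with P h1 h2 _ b hb
  set U := univ.filter fun x : G P => b ≤ ‖fs γ c X x‖ with hU
  have hQ : 0 ≤ n ^ 3 * (P : ℝ) ^ 2 := by positivity
  rcases le_or_gt (b ^ 2) (36 * n) with hbn | hbn
  · have k1 := pow_le_pow_left₀ (by positivity) hbn 3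
    have k2 := mul_le_mul k1 (card_le_sq U) (by positivity) (by positivity)
    nlinarith
  have cov : U ⊆ (S1.biUnion fun i => univ.filter fun x : G P => b / 6 ≤ ‖fs γ c (Y i) x‖) ∪
      S2.biUnion fun p => univ.filter fun x : G P =>
        b / 2000 ≤ ‖fs γ c (Y p.1) x‖ ∧ b / 2000 ≤ ‖fs γ c (Y p.2) x‖ := by
    intro x hx
    have e1 : fs γ c X x = ∑ s ∈ T, fs γ c (Y s) x := by
      rw [← fs_blocks, filter_true_of_mem ixlt]
    have k1 := (mem_filter.1 hx).2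
    rw [e1] at k1
    rcases big_small T hT1 _ b hb k1 with ⟨i, hi, k2⟩ | k2
    · refine mem_union_left _ (mem_biUnion.2 ⟨i, mem_filter.2 ⟨hi, ?_⟩, mem_filter.2 ⟨mem_univ _, k2⟩⟩)
      rcases arc_class c X (fun a => (γ a).1) m0 (fun a ha a' ha' => hT.inj ha ha') i with k3 | k3
      · exfalso
        have k4 := fs_sq_le γ c (Y i) x
        have k5 : ((Y i).card : ℝ) ≤ 1 := by exact_mod_cast k3
        have k6 := ms_mono c (Ysub i)
        have k7 := ms_nonneg c (Y i)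
        have k8 := pow_le_pow_left₀ (by positivity) k2 2
        nlinarith
      · exact k3
    · obtain ⟨i, hi, j, hj, k3⟩ := four_arcs hT ix
        (fun a _ a' _ h => arc_mono c X _ m0 h) _ k2 (fun i hi => by
          rw [nonempty_iff_ne_empty]
          intro e
          have k4 := (mem_filter.1 hi).2
          simp only [hY, e, fs, sum_empty, norm_zero] at k4
          linarith)
      exact mem_union_right _ (mem_biUnion.2 ⟨(i, j), mem_filter.2
        ⟨mem_product.2 ⟨(mem_filter.1 hi).1, (mem_filter.1 hj).1⟩, k3⟩,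
        mem_filter.2 ⟨mem_univ _, (mem_filter.1 hi).2, (mem_filter.1 hj).2⟩⟩)
  have c1 : (U.card : ℝ) ≤
      ∑ i ∈ S1, ((univ.filter fun x : G P => b / 6 ≤ ‖fs γ c (Y i) x‖).card : ℝ) +
      ∑ p ∈ S2, ((univ.filter fun x : G P =>
        b / 2000 ≤ ‖fs γ c (Y p.1) x‖ ∧ b / 2000 ≤ ‖fs γ c (Y p.2) x‖).card : ℝ) := by
    exact_mod_cast (card_le_card cov).trans ((card_union_le _ _).trans
      (add_le_add card_biUnion_le card_biUnion_le))
  have c2 : (b / 6) ^ 6 *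
      ∑ i ∈ S1, ((univ.filter fun x : G P => b / 6 ≤ ‖fs γ c (Y i) x‖).card : ℝ) ≤
      10 ^ 66 * ((n / 400) ^ 2 * n) * (P : ℝ) ^ 2 := by
    have d1 : ∑ i ∈ S1, ms c (Y i) ≤ n := by
      refine (sum_le_sum_of_subset_of_nonneg (filter_subset _ _)
        fun i _ _ => ms_nonneg c (Y i)).trans (le_of_eq ?_)
      exact sum_fiberwise_of_maps_to ixlt _
    have d2 : ∀ i ∈ S1, (b / 6) ^ 6 *
        ((univ.filter fun x : G P => b / 6 ≤ ‖fs γ c (Y i) x‖).card : ℝ) ≤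
        10 ^ 66 * (n / 400) ^ 2 * (P : ℝ) ^ 2 * ms c (Y i) := by
      intro i hi
      refine (h1 i hi (b / 6) (by positivity)).trans ?_
      have d3 := pow_le_pow_left₀ (ms_nonneg c (Y i)) (mem_filter.1 hi).2 2
      have d4 := mul_le_mul_of_nonneg_left d3
        (mul_nonneg (sq_nonneg (P : ℝ)) (ms_nonneg c (Y i)))
      nlinarith
    have d5 := sum_le_sum d2
    rw [← mul_sum, ← mul_sum] at d5
    have d6 : (0 : ℝ) ≤ (n / 400) ^ 2 * (P : ℝ) ^ 2 := mul_nonneg (sq_nonneg _) (sq_nonneg _)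
    have d7 := mul_le_mul_of_nonneg_left d1 d6
    nlinarith
  have c3 : (b / 2000) ^ 6 * ∑ p ∈ S2, ((univ.filter fun x : G P =>
        b / 2000 ≤ ‖fs γ c (Y p.1) x‖ ∧ b / 2000 ≤ ‖fs γ c (Y p.2) x‖).card : ℝ) ≤
      801 ^ 2 * (10 ^ 38 * (2 * n) ^ 3 * (P : ℝ) ^ 2) := by
    rw [mul_sum]
    refine (sum_le_card_nsmul _ _ (10 ^ 38 * (2 * n) ^ 3 * (P : ℝ) ^ 2) fun p hp => ?_).trans ?_
    · refine (h2 p hp (b / 2000) (by positivity)).trans ?_
      have d1 := ms_mono c (Ysub p.1)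
      have d2 := ms_mono c (Ysub p.2)
      have d3 := ms_nonneg c (Y p.1)
      have d4 := ms_nonneg c (Y p.2)
      gcongr
      linarith
    · rw [nsmul_eq_mul]
      refine mul_le_mul_of_nonneg_right ?_ (by positivity)
      have d1 := card_filter_le (T ×ˢ T) fun p => Adm γ (Y p.1) (Y p.2)
      rw [card_product, ← sq] at d1
      exact_mod_cast d1.trans (Nat.pow_le_pow_left hT1 2)
  have c4 := mul_le_mul_of_nonneg_left c1 (by positivity : 0 ≤ b ^ 6)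
  rw [div_pow] at c2 c3
  nlinarith

lemma layer (v s : ℝ) (hv : 0 ≤ v) (J : ℕ) (h : v ≤ 2 ^ J * s) :
    v ^ 6 ≤ s ^ 6 + ∑ j ∈ range J, if 2 ^ j * s ≤ v then 64 * (2 ^ j * s) ^ 6 else 0 := by
  induction J with
  | zero => simpa using pow_le_pow_left₀ hv (by simpa using h) 6
  | succ J ih =>
    rw [sum_range_succ]
    have h0 : (0 : ℝ) ≤ ∑ j ∈ range J, if 2 ^ j * s ≤ v then 64 * (2 ^ j * s) ^ 6 else 0 :=
      sum_nonneg fun j _ => by positivity
    by_cases k : 2 ^ J * s ≤ v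
    · rw [if_pos k]
      have k1 := pow_le_pow_left₀ hv h 6
      have k2 : (2 ^ (J + 1) * s) ^ 6 = 64 * (2 ^ J * s) ^ 6 := by ring
      have k3 : 0 ≤ s ^ 6 := by positivity
      linarith
    · rw [if_neg k, add_zero]
      exact ih (not_le.1 k).le

theorem sixth (γ : ι → ℤ × ℤ) (c : ι → ℂ) (t : ι → ℤ) (X : Finset ι) (hT : Tang γ t X) (J : ℕ)
    (hJ : X.card ≤ 4 ^ J) : ∀ᶠ P : ℕ in PF, ∀ [NeZero P],
      ∑ x : G P, ‖fs γ c X x‖ ^ 6 ≤ 10 ^ 68 * (J + 1) * ms c X ^ 3 * (P : ℝ) ^ 2 := by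
  filter_upwards [weak γ c t X hT] with P h _
  have n0 := ms_nonneg c X
  set s := √(ms c X) with hs
  have s0 : 0 ≤ s := Real.sqrt_nonneg _
  have s2 : s ^ 2 = ms c X := Real.sq_sqrt n0
  have s6 : s ^ 6 = ms c X ^ 3 := by rw [← s2]; ring
  have h1 : ∀ x : G P, ‖fs γ c X x‖ ≤ 2 ^ J * s := by
    intro x
    refine (pow_le_pow_iff_left₀ (norm_nonneg _) (by positivity) two_ne_zero).1
      ((fs_sq_le γ c X x).trans ?_)
    rw [mul_pow, s2, ← pow_mul, mul_comm J 2, pow_mul]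
    refine mul_le_mul_of_nonneg_right ?_ n0
    norm_num
    exact_mod_cast hJ
  refine (sum_le_sum fun x _ => layer _ s (norm_nonneg _) J (h1 x)).trans ?_
  rw [sum_add_distrib, sum_comm, sum_const, nsmul_eq_mul, s6]
  have h2 : ∀ j ∈ range J, (∑ x : G P, if 2 ^ j * s ≤ ‖fs γ c X x‖ then 64 * (2 ^ j * s) ^ 6 else 0)
      ≤ 64 * (10 ^ 66 * ms c X ^ 3 * (P : ℝ) ^ 2) := by
    intro j _
    rw [← sum_filter, sum_const, nsmul_eq_mul]
    rcases s0.eq_or_lt with k | k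
    · rw [← k]
      simp only [mul_zero, ne_eq, OfNat.ofNat_ne_zero, not_false_eq_true, zero_pow]
      positivity
    · have := h (2 ^ j * s) (by positivity)
      linarith
  have h3 := sum_le_card_nsmul _ _ _ h2
  rw [card_range, nsmul_eq_mul] at h3
  have h4 := mul_le_mul_of_nonneg_right (card_le_sq (P := P) univ) (pow_nonneg n0 3)
  have hQ : 0 ≤ ms c X ^ 3 * (P : ℝ) ^ 2 := by positivity
  have hJ0 : (0 : ℝ) ≤ J := by positivity
  nlinarith [mul_nonneg hJ0 hQ]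

end E3L
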