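import Pool.Agent.Lib.MP_4d4569_co.R8

set_option autoImplicit false

open Finset

namespace E3R8

theorem ncard_eq {G : Type} [AddCommGroup G] [DecidableEq G] (A : Finset G) :
    (({a : Fin 6 → G | (∀ i, a i ∈ A) ∧ a 0 + a 1 + a 2 = a 3 + a 4 + a 5}.ncard : ℕ) : ℝ)
      = W A fun _ => 1 := by
  have : {a : Fin 6 → G | (∀ i, a i ∈ A) ∧ a 0 + a 1 + a 2 = a 3 + a 4 + a 5}
      = ((Fintype.piFinset fun _ : Fin 6 => A).filter
        (fun a => a 0 + a 1 + a 2 = a 3 + a 4 + a 5) : Finset _) := by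
    ext a; simp [Fintype.mem_piFinset]
  rw [this, Set.ncard_coe_finset]
  simp [W]

theorem W_le_image {G G' : Type} [AddCommGroup G] [DecidableEq G] [AddCommGroup G'] [DecidableEq G']
    (p : G →+ G') (hp : Function.Injective p) (A : Finset G) (c : G' → ℝ) (hc : ∀ a, 0 ≤ c a) :
    W A (fun a => c (p a)) ≤ W (A.image p) c := by
  unfold W
  have hinj : Function.Injective (fun (a : Fin 6 → G) i => p (a i)) := fun a b e =>
    funext fun i => hp (congrFun e i)
  rw [← sum_image (g := fun (a : Fin 6 → G) i => p (a i)) (f := fun x => ∏ i, c (x i))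
    (hinj.injOn)]
  refine sum_le_sum_of_subset_of_nonneg (fun x hx => ?_) fun _ _ _ => prod_nonneg fun _ _ => hc _
  obtain ⟨a, ha, rfl⟩ := mem_image.1 hx
  simp only [mem_filter, Fintype.mem_piFinset] at ha ⊢
  refine ⟨fun i => mem_image_of_mem _ (ha.1 i), ?_⟩
  simp only [← map_add, ha.2]

theorem int_e (n : ℤ) : ∫ x in (0 : ℝ)..1, Complex.exp (2 * Real.pi * Complex.I * (n * x))
    = if n = 0 then 1 else 0 := by
  split_ifs with h
  · simp [h]
  · have hc : (2 * Real.pi * Complex.I * n : ℂ) ≠ 0 := by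
      have := Real.pi_ne_zero
      simp [h, this]
    simp_rw [← mul_assoc]
    rw [integral_exp_mul_complex hc]
    have : Complex.exp (2 * Real.pi * Complex.I * n * ((1 : ℝ) : ℂ)) = 1 := by
      rw [← Complex.exp_int_mul_two_pi_mul_I n]; congr 1; push_cast; ring
    rw [this]; simp

/-- the sixth moment over the torus is at most the weighted count -/
theorem torus_le (X : Finset (ℤ × ℤ)) (c : ℤ × ℤ → ℂ) :
    ∫ x in (0 : ℝ)..1, ∫ y in (0 : ℝ)..1,
      ‖∑ a ∈ X, c a * Complex.exp (2 * Real.pi * Complex.I * (a.1 * x + a.2 * y))‖ ^ 6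
      ≤ W X fun a => ‖c a‖ := by
  set E : ℤ → ℝ → ℂ := fun n x => Complex.exp (2 * Real.pi * Complex.I * (n * x)) with hE
  set d : (Fin 6 → ℤ × ℤ) → ℤ × ℤ := fun a => a 0 + a 1 + a 2 - (a 3 + a 4 + a 5) with hd
  set K : (Fin 6 → ℤ × ℤ) → ℂ := fun a => c (a 0) * c (a 1) * c (a 2) *
    (starRingEnd ℂ (c (a 3)) * starRingEnd ℂ (c (a 4)) * starRingEnd ℂ (c (a 5))) with hK
  set T := Fintype.piFinset fun _ : Fin 6 => X with hT
  have hEc : ∀ n, Continuous (E n) := fun n => by simp only [hE]; fun_prop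
  have hI : ∀ (k : (Fin 6 → ℤ × ℤ) → ℂ) (n : (Fin 6 → ℤ × ℤ) → ℤ),
      ∫ y in (0 : ℝ)..1, ∑ a ∈ T, k a * E (n a) y = ∑ a ∈ T, k a * (if n a = 0 then 1 else 0) := by
    intro k n
    rw [intervalIntegral.integral_finsetSum (f := fun a y => k a * E (n a) y) fun a _ =>
      Continuous.intervalIntegrable (continuous_const.mul (hEc _)) _ _]
    refine sum_congr rfl fun a _ => ?_
    rw [intervalIntegral.integral_const_mul, hE, int_e]
  have pt : ∀ x y : ℝ,
      ((‖∑ a ∈ X, c a * Complex.exp (2 * Real.pi * Complex.I * (a.1 * x + a.2 * y))‖ ^ 6 : ℝ) : ℂ)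
      = ∑ a ∈ T, K a * E (d a).1 x * E (d a).2 y := by
    intro x y
    set u : ℤ × ℤ → ℂ := fun a => c a * Complex.exp (2 * Real.pi * Complex.I * (a.1 * x + a.2 * y))
      with hu
    set v : ℤ × ℤ → ℂ := fun a => starRingEnd ℂ (c a) *
      Complex.exp (-(2 * Real.pi * Complex.I * (a.1 * x + a.2 * y))) with hv
    have h1 : starRingEnd ℂ (∑ a ∈ X, u a) = ∑ a ∈ X, v a := by
      rw [map_sum]
      refine sum_congr rfl fun a _ => ?_
      simp only [hu, hv, map_mul, ← Complex.exp_conj, map_add, Complex.conj_ofReal, Complex.conj_I,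
        map_intCast, map_ofNat]
      congr 2; ring
    have h2 := prod_univ_sum (fun _ : Fin 6 => X) ![u, u, u, v, v, v]
    simp only [Fin.prod_univ_six, Matrix.cons_val_zero, Matrix.cons_val_one, Matrix.cons_val] at h2
    have h3 : ((‖∑ a ∈ X, u a‖ ^ 6 : ℝ) : ℂ) = ((∑ a ∈ X, u a) * ∑ a ∈ X, v a) ^ 3 := by
      rw [← h1, Complex.mul_conj, Complex.normSq_eq_norm_sq]; push_cast; ring
    rw [h3, show ∀ p q : ℂ, (p * q) ^ 3 = p * p * p * q * q * q from fun p q => by ring, h2]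
    refine sum_congr rfl fun a _ => ?_
    simp only [hu, hv, hK, hE, hd, Prod.fst_sub, Prod.snd_sub, Prod.fst_add, Prod.snd_add]
    have : ∀ k0 k1 k2 k3 k4 k5 z0 z1 z2 z3 z4 z5 : ℂ,
        k0 * Complex.exp z0 * (k1 * Complex.exp z1) * (k2 * Complex.exp z2) * (k3 * Complex.exp z3)
          * (k4 * Complex.exp z4) * (k5 * Complex.exp z5)
        = k0 * k1 * k2 * (k3 * k4 * k5) * Complex.exp (z0 + z1 + z2 + z3 + z4 + z5) := by
      intros; simp only [Complex.exp_add]; ring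
    rw [this, mul_assoc _ (Complex.exp _) (Complex.exp _), ← Complex.exp_add]
    congr 2; push_cast; ring
  have tot : ((∫ x in (0 : ℝ)..1, ∫ y in (0 : ℝ)..1,
      ‖∑ a ∈ X, c a * Complex.exp (2 * Real.pi * Complex.I * (a.1 * x + a.2 * y))‖ ^ 6 : ℝ) : ℂ)
      = ∑ a ∈ T, K a * (if d a = 0 then 1 else 0) := by
    rw [← intervalIntegral.integral_ofReal]
    simp_rw [← intervalIntegral.integral_ofReal, pt]
    have in1 : ∀ x : ℝ, ∫ y in (0 : ℝ)..1, ∑ a ∈ T, K a * E (d a).1 x * E (d a).2 y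
        = ∑ a ∈ T, K a * (if (d a).2 = 0 then 1 else 0) * E (d a).1 x := by
      intro x
      rw [hI (fun a => K a * E (d a).1 x) fun a => (d a).2]
      exact sum_congr rfl fun a _ => by ring
    simp_rw [in1]
    rw [hI (fun a => K a * (if (d a).2 = 0 then 1 else 0)) fun a => (d a).1]
    refine sum_congr rfl fun a _ => ?_
    by_cases h1 : (d a).1 = 0 <;> by_cases h2 : (d a).2 = 0 <;> simp [h1, h2, Prod.ext_iff]
  refine (le_abs_self _).trans ?_
  rw [← Real.norm_eq_abs, ← Complex.norm_real, tot, W, sum_filter]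
  refine (norm_sum_le _ _).trans (le_of_eq (sum_congr rfl fun a _ => ?_))
  simp only [hd, sub_eq_zero]
  split_ifs
  · simp only [hK, mul_one, norm_mul, RCLike.norm_conj, Fin.prod_univ_six]; ring
  · simp

/-- all forms of the final statement from the integer statement -/
theorem fin (C : ℝ)
    (H : ∀ (X : Finset (ℤ × ℤ)) (c : ℤ × ℤ → ℝ), (∀ a, 0 ≤ c a) → SupZ X → 2 ≤ X.card →
      W X c ≤ C * Real.log X.card * (∑ a ∈ X, c a ^ 2) ^ 3) :
    (∀ A : Finset (ℝ × ℝ), (∀ a ∈ A, a ∉ convexHull ℝ ((A : Set (ℝ × ℝ)) \ {a})) → 2 ≤ A.card →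
      (({a : Fin 6 → ℝ × ℝ | (∀ i, a i ∈ A) ∧ a 0 + a 1 + a 2 = a 3 + a 4 + a 5}.ncard : ℕ) : ℝ)
        ≤ C * (A.card : ℝ) ^ 3 * Real.log A.card) ∧
    (∀ A : Finset ℂ, (∀ z ∈ A, ‖z‖ = 1) → 2 ≤ A.card →
      (({a : Fin 6 → ℂ | (∀ i, a i ∈ A) ∧ a 0 + a 1 + a 2 = a 3 + a 4 + a 5}.ncard : ℕ) : ℝ)
        ≤ C * (A.card : ℝ) ^ 3 * Real.log A.card) ∧
    (∀ A : Finset (ℝ × ℝ), (∀ a ∈ A, a.2 = a.1 ^ 2) → 2 ≤ A.card →
      (({a : Fin 6 → ℝ × ℝ | (∀ i, a i ∈ A) ∧ a 0 + a 1 + a 2 = a 3 + a 4 + a 5}.ncard : ℕ) : ℝ)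
        ≤ C * (A.card : ℝ) ^ 3 * Real.log A.card) ∧
    (∀ (A : Finset (ℝ × ℝ)) (c : ℝ × ℝ → ℝ), (∀ a, 0 ≤ c a) →
      (∀ a ∈ A, a ∉ convexHull ℝ ((A : Set (ℝ × ℝ)) \ {a})) → 2 ≤ A.card →
      ∑ a ∈ (Fintype.piFinset fun _ : Fin 6 => A).filter
        (fun a => a 0 + a 1 + a 2 = a 3 + a 4 + a 5), ∏ i, c (a i)
        ≤ C * Real.log A.card * (∑ a ∈ A, c a ^ 2) ^ 3) ∧
    (∀ (S : Finset ℤ) (c : ℤ → ℂ), 2 ≤ S.card →
      ∫ x in (0 : ℝ)..1, ∫ t in (0 : ℝ)..1,
        ‖∑ k ∈ S, c k * Complex.exp (2 * Real.pi * Complex.I * (k * x + k ^ 2 * t))‖ ^ 6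
        ≤ C * Real.log S.card * (∑ k ∈ S, ‖c k‖ ^ 2) ^ 3) := by
  have one : ∀ A : Finset (ℝ × ℝ), Sup A → 2 ≤ A.card →
      W A (fun _ => 1) ≤ C * (A.card : ℝ) ^ 3 * Real.log A.card := by
    intro A hA h2
    have := red C H A (fun _ => 1) (fun _ => zero_le_one) hA h2
    simp only [one_pow, sum_const, nsmul_eq_mul, mul_one] at this
    linarith
  refine ⟨fun A hA h2 => ?_, fun A hA h2 => ?_, fun A hA h2 => ?_, fun A c hc hA h2 => ?_,
    fun S c h2 => ?_⟩
  · rw [ncard_eq]; exact one A (sup_of_convex A hA) h2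
  · rw [ncard_eq]
    let p : ℂ →+ ℝ × ℝ := AddMonoidHom.prod Complex.reAddGroupHom Complex.imAddGroupHom
    have hp : Function.Injective p := fun z w e =>
      Complex.ext (congrArg Prod.fst e) (congrArg Prod.snd e)
    have hc := card_image_of_injective A hp
    refine (W_le_image p hp A (fun _ => 1) fun _ => zero_le_one).trans ?_
    rw [← hc] at h2 ⊢
    refine one _ (sup_of_circle _ fun a ha => ?_) h2
    obtain ⟨z, hz, rfl⟩ := mem_image.1 ha
    have := Complex.normSq_eq_norm_sq z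
    rw [hA z hz, Complex.normSq_apply] at this
    change z.re ^ 2 + z.im ^ 2 = 1
    linarith
  · rw [ncard_eq]; exact one A (sup_of_parabola A hA) h2
  · exact red C H A c hc (sup_of_convex A hA) h2
  · have hinj : Function.Injective fun k : ℤ => (k, k ^ 2) := fun k l e => congrArg Prod.fst e
    have hc := card_image_of_injective S hinj
    have h1 := torus_le (S.image fun k : ℤ => (k, k ^ 2)) fun a => c a.1
    have h3 := H (S.image fun k : ℤ => (k, k ^ 2)) (fun a => ‖c a.1‖) (fun _ => norm_nonneg _) ?_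
      (hc ▸ h2)
    · simp only [sum_image hinj.injOn, hc] at h1 h3
      push_cast at h1
      exact h1.trans h3
    · intro a ha
      obtain ⟨k, -, rfl⟩ := mem_image.1 ha
      refine ⟨2 * k, Or.inl fun b hb hba => ?_⟩
      obtain ⟨l, -, rfl⟩ := mem_image.1 hb
      have h4 : (l : ℚ) - k ≠ 0 := fun e => hba (by
        rw [show l = k by exact_mod_cast sub_eq_zero.1 e])
      have := sq_pos_of_ne_zero h4
      push_cast
      nlinarith

end E3R8
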