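import Mathlib

set_option autoImplicit false

open Finset

namespace E3R8

/-- weighted median with the middle atom removed -/
theorem med {ι : Type} [DecidableEq ι] (X : Finset ι) (hX : X.Nonempty) (w d : ι → ℝ)
    (hw : ∀ a, 0 ≤ w a) :
    ∃ a0 ∈ X, ∃ Y ⊆ X.erase a0, (∀ a ∈ Y, d a ≤ d a0) ∧ (∀ a ∈ X.erase a0 \ Y, d a0 ≤ d a) ∧
      2 * ∑ a ∈ Y, w a ≤ ∑ a ∈ X, w a ∧ 2 * ∑ a ∈ X.erase a0 \ Y, w a ≤ ∑ a ∈ X, w a := by
  classical
  set S := X.powerset.filter fun Y => Y ≠ X ∧ (∀ y ∈ Y, ∀ z ∈ X, z ∉ Y → d y ≤ d z) ∧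
    2 * ∑ a ∈ Y, w a ≤ ∑ a ∈ X, w a with hS
  have h0 : (∅ : Finset ι) ∈ S := by
    simp only [hS, mem_filter, mem_powerset, empty_subset, true_and]
    exact ⟨hX.ne_empty.symm, by simp, by simpa using sum_nonneg fun a _ => hw a⟩
  obtain ⟨Y, hY, hmax⟩ := exists_max_image S card ⟨_, h0⟩
  simp only [hS, mem_filter, mem_powerset] at hY
  obtain ⟨hYX, hne, hlow, hsum⟩ := hY
  have hne' : (X \ Y).Nonempty := sdiff_nonempty.2 fun h => hne (Subset.antisymm hYX h)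
  obtain ⟨a0, ha0, hmin⟩ := exists_min_image (X \ Y) d hne'
  obtain ⟨a1, a2⟩ := mem_sdiff.1 ha0
  have hsub : Y ⊆ X.erase a0 := fun y hy => mem_erase.2 ⟨fun e => a2 (e ▸ hy), hYX hy⟩
  refine ⟨a0, a1, Y, hsub, fun a ha => hlow a ha a0 a1 a2, fun a ha => ?_, hsum, ?_⟩
  · obtain ⟨b1, b2⟩ := mem_sdiff.1 ha
    exact hmin a (mem_sdiff.2 ⟨mem_of_mem_erase b1, b2⟩)
  · by_contra hc
    have e1 := sum_sdiff (f := w) hsub
    have e2 := sum_erase_add X w a1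
    have e3 : 0 ≤ ∑ a ∈ X, w a := sum_nonneg fun a _ => hw a
    have hmem : insert a0 Y ∈ S := by
      simp only [hS, mem_filter, mem_powerset]
      refine ⟨insert_subset a1 hYX, fun e => hc ?_, fun y hy z hz hzY => ?_, ?_⟩
      · have : X.erase a0 \ Y = ∅ := by
          rw [← e, erase_insert a2, sdiff_self]; rfl
        rw [this]; simpa using e3
      · have hz' : z ∉ Y := fun h => hzY (mem_insert_of_mem h)
        rcases mem_insert.1 hy with rfl | hy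
        · exact hmin z (mem_sdiff.2 ⟨hz, hz'⟩)
        · exact hlow y hy z hz hz'
      · rw [sum_insert a2]; linarith
    have := hmax _ hmem
    rw [card_insert_of_notMem a2] at this
    omega

section

variable {ι Ω : Type} [DecidableEq ι] (m : Set Ω → ℝ) (g : ι → Ω → ℂ) (w : ι → ℝ)
  (m0 : m ∅ = 0) (m1 : ∀ S, m S ≤ 1) (mm : ∀ S T, S ⊆ T → m S ≤ m T)
  (mu : ∀ S T, m (S ∪ T) ≤ m S + m T) (hg : ∀ a x, ‖g a x‖ ^ 2 ≤ w a) (hw : ∀ a, 0 ≤ w a)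

omit [DecidableEq ι] in
include m1 in
theorem triv {b n K : ℝ} (hK : 0 ≤ K) (hn : 0 ≤ n) (h : b ^ 2 ≤ 400 * n) (S : Set Ω) :
    b ^ 6 * m S ≤ 10 ^ 8 * (K + 1) * n ^ 3 := by
  have h1 : (b ^ 2) ^ 3 ≤ (400 * n) ^ 3 := pow_le_pow_left₀ (sq_nonneg b) h 3
  have h2 : b ^ 6 * m S ≤ b ^ 6 := mul_le_of_le_one_right (by positivity) (m1 S)
  have h3 : 0 ≤ n ^ 3 := by positivity
  nlinarith [mul_nonneg hK h3]

include hg hw in
theorem split {X Y p : Finset ι} {a0 : ι} (ha : a0 ∈ X) (hY : Y ⊆ X.erase a0) (hp : p ⊆ X) {b : ℝ}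
    (hb : 0 < b) (h : 400 * ∑ a ∈ X, w a < b ^ 2) (x : Ω) :
    ‖∑ a ∈ p, g a x‖ ≤ ‖∑ a ∈ p ∩ Y, g a x‖ + ‖∑ a ∈ p ∩ (X.erase a0 \ Y), g a x‖ + b / 20 := by
  have h1 : ‖g a0 x‖ ≤ b / 20 := by
    have := single_le_sum (f := w) (fun a _ => hw a) ha
    refine (pow_le_pow_iff_left₀ (norm_nonneg _) (by positivity) two_ne_zero).1 ?_
    have := hg a0 x
    linarith
  have h2 : p.erase a0 = p ∩ Y ∪ p ∩ (X.erase a0 \ Y) := by
    rw [← inter_union_distrib_left, union_sdiff_of_subset hY]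
    ext a; simp only [mem_erase, mem_inter]
    exact ⟨fun h => ⟨h.2, h.1, hp h.2⟩, fun h => ⟨h.2.1, h.1⟩⟩
  have h3 : Disjoint (p ∩ Y) (p ∩ (X.erase a0 \ Y)) :=
    disjoint_left.2 fun a h h' => (mem_sdiff.1 (mem_inter.1 h').2).2 (mem_inter.1 h).2
  have h4 : ‖∑ a ∈ p.erase a0, g a x‖ ≤
      ‖∑ a ∈ p ∩ Y, g a x‖ + ‖∑ a ∈ p ∩ (X.erase a0 \ Y), g a x‖ := by
    rw [h2, sum_union h3]; exact norm_add_le _ _
  by_cases h5 : a0 ∈ p
  · rw [← sum_erase_add p _ h5]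
    exact (norm_add_le _ _).trans (by linarith)
  · rw [erase_eq_of_notMem h5] at h4
    linarith [show 0 ≤ b / 20 by positivity]

theorem arith {b K n u1 u2 v1 v2 n0 n1 s : ℝ} (hK : 0 ≤ K) (hb : 0 < b) (hn : 0 ≤ n)
    (h0 : 0 ≤ n0) (h1 : 0 ≤ n1) (e0 : 2 * n0 ≤ n) (e1 : 2 * n1 ≤ n) (hs : s ≤ u1 + u2 + (v1 + v2))
    (a1 : (b / 10) ^ 6 * u1 ≤ K * n ^ 3) (a2 : (b / 10) ^ 6 * u2 ≤ K * n ^ 3)
    (b1 : (17 / 20 * b) ^ 6 * v1 ≤ 10 ^ 8 * (K + 1) * n0 ^ 3)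
    (b2 : (17 / 20 * b) ^ 6 * v2 ≤ 10 ^ 8 * (K + 1) * n1 ^ 3) :
    b ^ 6 * s ≤ 10 ^ 8 * (K + 1) * n ^ 3 := by
  have c0 : (2 * n0) ^ 3 ≤ n ^ 3 := pow_le_pow_left₀ (by positivity) e0 3
  have c1 : (2 * n1) ^ 3 ≤ n ^ 3 := pow_le_pow_left₀ (by positivity) e1 3
  have d0 := mul_le_mul_of_nonneg_left c0 (show 0 ≤ K + 1 by positivity)
  have d1 := mul_le_mul_of_nonneg_left c1 (show 0 ≤ K + 1 by positivity)
  have d2 := mul_le_mul_of_nonneg_left hs (show 0 ≤ b ^ 6 by positivity)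
  have h3 : 0 ≤ n ^ 3 := by positivity
  have h4 := mul_nonneg hK h3
  nlinarith

include m0 m1 mm mu hg hw in
/-- from near-far pairs to all pairs -/
theorem step2 (I J : Finset ι) (hIJ : Disjoint I J) (d : ι → ℝ) (K : ℝ) (hK : 0 ≤ K)
    (h : ∀ a0 ∈ I ∪ J, ∀ p ⊆ I, ∀ q ⊆ J,
      ((∀ a ∈ p, d a ≤ d a0) ∧ (∀ a ∈ q, d a0 ≤ d a)) ∨
        ((∀ a ∈ p, d a0 ≤ d a) ∧ (∀ a ∈ q, d a ≤ d a0)) → ∀ b : ℝ, 0 < b →
      b ^ 6 * m {x | b ≤ ‖∑ a ∈ p, g a x‖ ∧ b ≤ ‖∑ a ∈ q, g a x‖}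
        ≤ K * (∑ a ∈ p, w a + ∑ a ∈ q, w a) ^ 3) :
    ∀ p ⊆ I, ∀ q ⊆ J, ∀ b : ℝ, 0 < b →
      b ^ 6 * m {x | b ≤ ‖∑ a ∈ p, g a x‖ ∧ b ≤ ‖∑ a ∈ q, g a x‖}
        ≤ 10 ^ 8 * (K + 1) * (∑ a ∈ p, w a + ∑ a ∈ q, w a) ^ 3 := by
  have sn : ∀ s : Finset ι, 0 ≤ ∑ a ∈ s, w a := fun s => sum_nonneg fun a _ => hw a
  have sm : ∀ s t : Finset ι, s ⊆ t → ∑ a ∈ s, w a ≤ ∑ a ∈ t, w a := fun s t h =>
    sum_le_sum_of_subset_of_nonneg h fun a _ _ => hw a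
  suffices H : ∀ N : ℕ, ∀ p ⊆ I, ∀ q ⊆ J, (p ∪ q).card = N → ∀ b : ℝ, 0 < b →
      b ^ 6 * m {x | b ≤ ‖∑ a ∈ p, g a x‖ ∧ b ≤ ‖∑ a ∈ q, g a x‖}
        ≤ 10 ^ 8 * (K + 1) * (∑ a ∈ p, w a + ∑ a ∈ q, w a) ^ 3 from
    fun p hp q hq => H _ p hp q hq rfl
  intro N
  induction N using Nat.strong_induction_on with
  | _ N ih =>
  intro p hp q hq hN b hb
  have su : ∀ Z : Finset ι, ∑ a ∈ p ∩ Z, w a + ∑ a ∈ q ∩ Z, w a ≤ ∑ a ∈ Z, w a := fun Z => by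
    rw [← sum_union ((hIJ.mono hp hq).mono inter_subset_left inter_subset_left)]
    exact sm _ _ (union_subset inter_subset_right inter_subset_right)
  have hn := add_nonneg (sn p) (sn q)
  have hU : ∑ a ∈ p ∪ q, w a = ∑ a ∈ p, w a + ∑ a ∈ q, w a := sum_union (hIJ.mono hp hq)
  by_cases hsm : b ^ 2 ≤ 400 * (∑ a ∈ p, w a + ∑ a ∈ q, w a)
  · exact triv m m1 hK hn hsm _
  rcases (p ∪ q).eq_empty_or_nonempty with he | he
  · obtain ⟨rfl, rfl⟩ := union_eq_empty.1 he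
    have e : {x : Ω | b ≤ ‖∑ a ∈ (∅ : Finset ι), g a x‖ ∧ b ≤ ‖∑ a ∈ (∅ : Finset ι), g a x‖} = ∅ := by
      ext x; simp [hb]
    rw [e, m0]; simp
  obtain ⟨a0, ha0, Y, hY, y1, y2, y3, y4⟩ := med (p ∪ q) he w d hw
  set Z := (p ∪ q).erase a0 \ Y with hZ
  have hlt : ∀ T ⊆ (p ∪ q).erase a0, (p ∩ T ∪ q ∩ T).card < N := fun T hT =>
    lt_of_le_of_lt (card_le_card ((union_subset inter_subset_right inter_subset_right).trans hT))
      (hN ▸ card_erase_lt_of_mem ha0)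
  have a0m : a0 ∈ I ∪ J := union_subset_union hp hq ha0
  have big : ∀ T T' : Finset ι, K * (∑ a ∈ p ∩ T, w a + ∑ a ∈ q ∩ T', w a) ^ 3
      ≤ K * (∑ a ∈ p, w a + ∑ a ∈ q, w a) ^ 3 := fun T T' =>
    mul_le_mul_of_nonneg_left (pow_le_pow_left₀ (add_nonneg (sn _) (sn _))
      (add_le_add (sm _ _ inter_subset_left) (sm _ _ inter_subset_left)) 3) hK
  refine arith hK hb hn (add_nonneg (sn _) (sn _)) (add_nonneg (sn _) (sn _))
    (by linarith [su Y]) (by linarith [su Z]) ?_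
    ((h a0 a0m (p ∩ Y) (inter_subset_left.trans hp) (q ∩ Z) (inter_subset_left.trans hq)
      (Or.inl ⟨fun a ha => y1 a (mem_inter.1 ha).2, fun a ha => y2 a (mem_inter.1 ha).2⟩) _
      (by positivity)).trans (big _ _))
    ((h a0 a0m (p ∩ Z) (inter_subset_left.trans hp) (q ∩ Y) (inter_subset_left.trans hq)
      (Or.inr ⟨fun a ha => y2 a (mem_inter.1 ha).2, fun a ha => y1 a (mem_inter.1 ha).2⟩) _
      (by positivity)).trans (big _ _))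
    (ih _ (hlt Y hY) _ (inter_subset_left.trans hp) _ (inter_subset_left.trans hq) rfl _
      (by positivity))
    (ih _ (hlt Z sdiff_subset) _ (inter_subset_left.trans hp) _ (inter_subset_left.trans hq) rfl _
      (by positivity))
  refine le_trans ?_ (add_le_add (mu _ _) (mu _ _))
  refine le_trans (mm _ _ fun x hx => ?_) (mu _ _)
  have s1 := split g w hg hw ha0 hY subset_union_left hb (by linarith) x
  have s2 := split g w hg hw ha0 hY subset_union_right hb (by linarith) x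
  obtain ⟨x1, x2⟩ := hx
  simp only [Set.mem_union, Set.mem_ofPred_eq]
  by_contra hc
  simp only [not_or, not_and_or, not_le] at hc
  obtain ⟨⟨c1 | c1, c2 | c2⟩, c3 | c3, c4 | c4⟩ := hc <;> linarith

include m0 m1 mm mu hg hw in
/-- from separated pairs to one set -/
theorem step3 (X : Finset ι) (t : ι → ℝ) (K : ℝ) (hK : 0 ≤ K)
    (h : ∀ a0 ∈ X, ∀ p ⊆ X.erase a0, ∀ q ⊆ X.erase a0, Disjoint p q →
      (∀ a ∈ p, t a ≤ t a0) → (∀ a ∈ q, t a0 ≤ t a) → ∀ b : ℝ, 0 < b →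
      b ^ 6 * m {x | b ≤ ‖∑ a ∈ p, g a x‖ ∧ b ≤ ‖∑ a ∈ q, g a x‖}
        ≤ K * (∑ a ∈ p, w a + ∑ a ∈ q, w a) ^ 3) :
    ∀ p ⊆ X, ∀ b : ℝ, 0 < b →
      b ^ 6 * m {x | b ≤ ‖∑ a ∈ p, g a x‖} ≤ 10 ^ 8 * (K + 1) * (∑ a ∈ p, w a) ^ 3 := by
  have sn : ∀ s : Finset ι, 0 ≤ ∑ a ∈ s, w a := fun s => sum_nonneg fun a _ => hw a
  suffices H : ∀ N : ℕ, ∀ p ⊆ X, p.card = N → ∀ b : ℝ, 0 < b →
      b ^ 6 * m {x | b ≤ ‖∑ a ∈ p, g a x‖} ≤ 10 ^ 8 * (K + 1) * (∑ a ∈ p, w a) ^ 3 from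
    fun p hp => H _ p hp rfl
  intro N
  induction N using Nat.strong_induction_on with
  | _ N ih =>
  intro p hp hN b hb
  by_cases hsm : b ^ 2 ≤ 400 * ∑ a ∈ p, w a
  · exact triv m m1 hK (sn p) hsm _
  rcases p.eq_empty_or_nonempty with rfl | he
  · have e : {x : Ω | b ≤ ‖∑ a ∈ (∅ : Finset ι), g a x‖} = ∅ := by
      ext x; simp [hb]
    rw [e, m0]; simp
  obtain ⟨a0, ha0, Y, hY, y1, y2, y3, y4⟩ := med p he w t hw
  set Z := p.erase a0 \ Y with hZ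
  have hZ' : Z ⊆ p.erase a0 := sdiff_subset
  have hlt : ∀ T ⊆ p.erase a0, T.card < N := fun T hT =>
    lt_of_le_of_lt (card_le_card hT) (hN ▸ card_erase_lt_of_mem ha0)
  have e1 := erase_subset_erase a0 hp
  have e2 := erase_subset a0 p
  have big : K * (∑ a ∈ Y, w a + ∑ a ∈ Z, w a) ^ 3 ≤ K * (∑ a ∈ p, w a) ^ 3 :=
    mul_le_mul_of_nonneg_left (pow_le_pow_left₀ (add_nonneg (sn _) (sn _)) (by linarith) 3) hK
  refine arith (u2 := 0) hK hb (sn p) (sn Y) (sn Z) y3 y4 ?_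
    ((h a0 (hp ha0) Y (hY.trans e1) Z (hZ'.trans e1) disjoint_sdiff y1 y2 _
      (by positivity)).trans big)
    (by rw [mul_zero]; exact mul_nonneg hK (pow_nonneg (sn p) 3))
    (ih _ (hlt Y hY) _ ((hY.trans e2).trans hp) rfl _ (by positivity))
    (ih _ (hlt Z hZ') _ ((hZ'.trans e2).trans hp) rfl _ (by positivity))
  rw [add_zero]
  refine le_trans ?_ (add_le_add le_rfl (mu _ _))
  refine le_trans (mm _ _ fun x hx => ?_) (mu _ _)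
  have s1 := split g w hg hw ha0 hY Subset.rfl hb (by linarith) x
  rw [inter_eq_right.2 (hY.trans e2), inter_eq_right.2 (hZ'.trans e2)] at s1
  simp only [Set.mem_union, Set.mem_ofPred_eq] at hx ⊢
  by_contra hc
  simp only [not_or, not_and_or, not_le] at hc
  obtain ⟨c1 | c1, c3, c4⟩ := hc <;> linarith

end

theorem layer {S r : ℝ} (hS : 0 ≤ S) (J : ℕ) (h : S ≤ 2 ^ J * r) :
    S ^ 6 ≤ r ^ 6 + ∑ j ∈ range J, 64 * (2 ^ j * r) ^ 6 * (if 2 ^ j * r ≤ S then 1 else 0) := by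
  induction J with
  | zero => simpa using pow_le_pow_left₀ hS (by simpa using h) 6
  | succ J ih =>
    have hn : 0 ≤ ∑ j ∈ range J, 64 * (2 ^ j * r) ^ 6 * (if 2 ^ j * r ≤ S then (1 : ℝ) else 0) :=
      sum_nonneg fun j _ => by positivity
    rw [sum_range_succ]
    split_ifs with h1
    · have := pow_le_pow_left₀ hS h 6
      rw [show (2 ^ (J + 1) * r) ^ 6 = 64 * (2 ^ J * r) ^ 6 by ring] at this
      linarith [show 0 ≤ r ^ 6 by positivity]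
    · linarith [ih (not_le.1 h1).le]

/-- from the level bound to the sixth moment -/
theorem step4 {ι Ω : Type} [Fintype Ω] (g : ι → Ω → ℂ) (w : ι → ℝ)
    (hg : ∀ a x, ‖g a x‖ ^ 2 ≤ w a) (hw : ∀ a, 0 ≤ w a) (X : Finset ι) (h2 : 2 ≤ X.card)
    (K : ℝ) (hK : 0 ≤ K) (h : ∀ b : ℝ, 0 < b →
      b ^ 6 * ({x | b ≤ ‖∑ a ∈ X, g a x‖}.ncard : ℝ) ≤ K * (∑ a ∈ X, w a) ^ 3 * Fintype.card Ω) :
    ∑ x, ‖∑ a ∈ X, g a x‖ ^ 6
      ≤ (2 + 192 * K) * Real.log X.card * (∑ a ∈ X, w a) ^ 3 * Fintype.card Ω := by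
  classical
  set n := ∑ a ∈ X, w a with hn
  have n0 : 0 ≤ n := sum_nonneg fun a _ => hw a
  set r := √n with hr
  have r0 : 0 ≤ r := Real.sqrt_nonneg _
  have r2 : r ^ 2 = n := Real.sq_sqrt n0
  set J := Nat.log 2 X.card + 1 with hJ
  have j1 : (X.card : ℝ) ≤ 2 ^ J := by exact_mod_cast (Nat.lt_pow_succ_log_self one_lt_two _).le
  have l2 : Real.log 2 ≤ Real.log X.card := Real.log_le_log two_pos (by exact_mod_cast h2)
  have l3 := Real.log_two_gt_d9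
  have j2 : (J : ℝ) ≤ 3 * Real.log X.card := by
    have h1 : ((2 : ℝ) ^ Nat.log 2 X.card) ≤ X.card := by
      exact_mod_cast Nat.pow_log_le_self 2 (by omega)
    have h3 := Real.log_le_log (by positivity) h1
    rw [Real.log_pow] at h3
    have h4 : (0 : ℝ) ≤ Nat.log 2 X.card := Nat.cast_nonneg _
    rw [hJ]; push_cast; nlinarith
  have pt : ∀ x, ‖∑ a ∈ X, g a x‖ ≤ 2 ^ J * r := by
    intro x
    refine (pow_le_pow_iff_left₀ (norm_nonneg _) (by positivity) two_ne_zero).1 ?_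
    have a1 := pow_le_pow_left₀ (norm_nonneg _) (norm_sum_le X fun a => g a x) 2
    have a2 := sq_sum_le_card_mul_sum_sq (s := X) (f := fun a => ‖g a x‖)
    have a3 : ∑ a ∈ X, ‖g a x‖ ^ 2 ≤ n := sum_le_sum fun a _ => hg a x
    have a4 : (1 : ℝ) ≤ 2 ^ J := one_le_pow₀ one_le_two
    have a5 := mul_le_mul j1 a3 (sum_nonneg fun a _ => sq_nonneg _) (by positivity)
    rw [mul_pow, r2]
    nlinarith [mul_nonneg (mul_nonneg (sub_nonneg.2 a4) (zero_le_one.trans a4)) n0]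
  have T0 : 0 ≤ n ^ 3 * Fintype.card Ω := by positivity
  have lev : ∀ j : ℕ, ∑ x, 64 * (2 ^ j * r) ^ 6 *
      (if 2 ^ j * r ≤ ‖∑ a ∈ X, g a x‖ then (1 : ℝ) else 0) ≤ 64 * K * (n ^ 3 * Fintype.card Ω) := by
    intro j
    rcases r0.eq_or_lt with e | e
    · simp only [← e, mul_zero, ne_eq, OfNat.ofNat_ne_zero, not_false_eq_true, zero_pow, zero_mul,
        sum_const_zero]
      positivity
    have := h (2 ^ j * r) (by positivity)
    rw [← mul_sum, sum_boole]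
    rw [← Set.ncard_coe_finset, coe_filter_univ]
    linarith
  calc ∑ x, ‖∑ a ∈ X, g a x‖ ^ 6 ≤ ∑ x : Ω, (r ^ 6 + ∑ j ∈ range J, 64 * (2 ^ j * r) ^ 6 *
        (if 2 ^ j * r ≤ ‖∑ a ∈ X, g a x‖ then (1 : ℝ) else 0)) :=
        sum_le_sum fun x _ => layer (norm_nonneg _) J (pt x)
    _ ≤ n ^ 3 * Fintype.card Ω + J * (64 * K * (n ^ 3 * Fintype.card Ω)) := by
        rw [sum_add_distrib, sum_comm]
        refine add_le_add (le_of_eq ?_) ?_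
        · rw [sum_const, card_univ, nsmul_eq_mul, ← r2]; ring
        · refine (sum_le_sum fun j _ => lev j).trans ?_
          rw [sum_const, card_range, nsmul_eq_mul]
    _ ≤ _ := by
        have b1 := mul_le_mul_of_nonneg_right j2 (show 0 ≤ 64 * K * (n ^ 3 * Fintype.card Ω) by
          positivity)
        have b2 := mul_le_mul_of_nonneg_right (show 1 ≤ 2 * Real.log X.card by linarith) T0
        nlinarith

end E3R8
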