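import Pool.Agent.Lib.MP_4d4569_co.R8b
import Pool.Agent.Lib.MP_4d4569_co.R8c

set_option autoImplicit false

open Finset Filter

namespace E3R8

/-- the character of the frequency a at the point x -/
noncomputable def ch (P : ℕ) [NeZero P] (a : ℤ × ℤ) (x : ZMod P × ZMod P) : ℂ :=
  ZMod.stdAddChar ((a.1 : ZMod P) * x.1 + (a.2 : ZMod P) * x.2)

/-- the number of points where both sums are at least b -/
noncomputable def cnt (P : ℕ) [NeZero P] (I J : Finset (ℤ × ℤ)) (c : ℤ × ℤ → ℝ) (b : ℝ) : ℕ :=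
  {x | b ≤ ‖∑ a ∈ I, (c a : ℂ) * ch P a x‖ ∧ b ≤ ‖∑ a ∈ J, (c a : ℂ) * ch P a x‖}.ncard

def Sid (X : Finset (ℤ × ℤ)) : Prop :=
  ∀ a ∈ X, ∀ b ∈ X, ∀ c ∈ X, ∀ d ∈ X, a + d = b + c → a = b ∨ a = c

/-- the level bound for a pair of sets, for all large primes -/
def Lv (K : ℝ) (I J : Finset (ℤ × ℤ)) : Prop :=
  ∀ᶠ P : ℕ in atTop, ∀ [Fact P.Prime], ∀ c : ℤ × ℤ → ℝ, (∀ a, 0 ≤ c a) → ∀ b : ℝ, 0 < b →
    b ^ 6 * cnt P I J c b ≤ K * (∑ a ∈ I, c a ^ 2 + ∑ a ∈ J, c a ^ 2) ^ 3 * (P : ℝ) ^ 2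

/-- the core lemma -/
def Core (K : ℝ) : Prop :=
  ∀ I J : Finset (ℤ × ℤ), Disjoint I J → Sid (I ∪ J) →
    (∀ a ∈ I, ∀ a' ∈ I, 5 * |a.2 - a'.2| ≤ |a.1 - a'.1|) →
    (∀ a ∈ J, ∀ a' ∈ J, |a.1 - a'.1| ≤ |a.2 - a'.2|) → Lv K I J

theorem Lv.symm {K : ℝ} {I J : Finset (ℤ × ℤ)} (h : Lv K I J) : Lv K J I :=
  h.mono fun P hP _ c hc b hb => by
    have := hP c hc b hb
    simp only [cnt, and_comm] at this ⊢
    rwa [add_comm]

def lin (α β γ δ : ℤ) (a : ℤ × ℤ) : ℤ × ℤ := (α * a.1 + β * a.2, γ * a.1 + δ * a.2)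

theorem lin_inj {α β γ δ : ℤ} (h : α * δ - β * γ ≠ 0) : Function.Injective (lin α β γ δ) := by
  intro a b e
  obtain ⟨e1, e2⟩ := Prod.mk.inj e
  exact Prod.ext (mul_left_cancel₀ h (by linear_combination δ * e1 - β * e2))
    (mul_left_cancel₀ h (by linear_combination α * e2 - γ * e1))

theorem lv_lin {K : ℝ} {I J : Finset (ℤ × ℤ)} {α β γ δ : ℤ} (hd : α * δ - β * γ ≠ 0)
    (h : Lv K (I.image (lin α β γ δ)) (J.image (lin α β γ δ))) : Lv K I J := by
  have hi := lin_inj hd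
  filter_upwards [h, eventually_gt_atTop (α * δ - β * γ).natAbs] with P hP hlt _ c hc b hb
  have hl := Function.leftInverse_invFun hi
  have h1 := hP (fun a => c (Function.invFun (lin α β γ δ) a)) (fun _ => hc _) b hb
  simp only [cnt, sum_image hi.injOn, hl _] at h1
  have hd' : ((α * δ - β * γ : ℤ) : ZMod P) ≠ 0 := fun e =>
    hd (Int.eq_zero_of_dvd_of_natAbs_lt_natAbs ((ZMod.intCast_zmod_eq_zero_iff_dvd _ P).1 e)
      (by simpa using hlt))
  set T : ZMod P × ZMod P → ZMod P × ZMod P :=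
    fun x => (α * x.1 + γ * x.2, β * x.1 + δ * x.2) with hT
  have hTi : Function.Injective T := by
    intro x y e
    obtain ⟨e1, e2⟩ := Prod.mk.inj e
    push_cast at hd'
    exact Prod.ext (mul_left_cancel₀ hd' (by linear_combination δ * e1 - γ * e2))
      (mul_left_cancel₀ hd' (by linear_combination α * e2 - β * e1))
  have hc' : ∀ a x, ch P (lin α β γ δ a) x = ch P a (T x) := fun a x => by
    simp only [ch, lin, hT]; congr 1; push_cast; ring
  simp only [hc'] at h1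
  rw [cnt, ← Set.ncard_preimage_of_injective_subset_range hTi
    (by rw [(Finite.surjective_of_injective hTi).range_eq]; exact Set.subset_univ _)]
  exact h1

/-- supporting lines from below (sign 1) or from above (sign -1) -/
def Tang (τ : ℤ) (X : Finset (ℤ × ℤ)) (t : ℤ × ℤ → ℚ) : Prop :=
  ∀ a ∈ X, ∀ b ∈ X, b ≠ a → t a * ((b.1 : ℚ) - a.1) < τ * ((b.2 : ℚ) - a.2)

theorem Tang.sid {τ : ℤ} {X : Finset (ℤ × ℤ)} {t : ℤ × ℤ → ℚ} (h : Tang τ X t) : Sid X := by
  intro a ha b hb c hc d hd e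
  by_contra hn
  obtain ⟨n1, n2⟩ := not_or.1 hn
  have n3 : d ≠ c := fun e' => n1 (by rw [e'] at e; exact add_right_cancel e)
  have n4 : d ≠ b := fun e' => n2 (by rw [e', add_comm b c] at e; exact add_right_cancel e)
  have e1 : (d.1 : ℚ) = b.1 + c.1 - a.1 := by
    have := congrArg Prod.fst e
    simp only [Prod.fst_add] at this
    exact_mod_cast (by omega : d.1 = b.1 + c.1 - a.1)
  have e2 : (d.2 : ℚ) = b.2 + c.2 - a.2 := by
    have := congrArg Prod.snd e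
    simp only [Prod.snd_add] at this
    exact_mod_cast (by omega : d.2 = b.2 + c.2 - a.2)
  have h1 := h a ha b hb (Ne.symm n1)
  have h2 := h a ha c hc (Ne.symm n2)
  have h3 := h d hd b hb n4.symm
  have h4 := h d hd c hc n3.symm
  have h5 := h b hb a ha n1
  have h6 := h b hb d hd n4
  have h7 := h c hc a ha n2
  have h8 := h c hc d hd n3
  rw [e1, e2] at h3 h4 h6 h8
  have p1 : 0 < (t d - t a) * ((b.1 : ℚ) - a.1) := by linarith
  have p2 : 0 < (t d - t a) * ((c.1 : ℚ) - a.1) := by linarith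
  have p3 : 0 < (t b - t c) * ((b.1 : ℚ) - a.1) := by linarith
  have p4 : 0 < -((t b - t c) * ((c.1 : ℚ) - a.1)) := by linarith
  nlinarith [mul_pos p1 p4, mul_pos p2 p3]

theorem chordN {s D ta tb u v σ : ℚ} (hσ : σ = 1 ∨ σ = -1) (h1 : ta * u < v) (h2 : v < tb * u)
    (a1 : -D ≤ σ * (ta - s)) (a2 : σ * (ta - s) ≤ 0) (b1 : -D ≤ σ * (tb - s))
    (b2 : σ * (tb - s) ≤ 0) :
    5 * |D * u + 2 * (σ * (v - s * u))| ≤ |5 * D * u - 2 * (σ * (v - s * u))| := by
  have key : (σ * (v - s * u)) * (σ * (v - s * u) + D * u) ≤ 0 := by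
    rcases le_total 0 u with hu | hu <;> rcases hσ with rfl | rfl
    · exact mul_nonpos_of_nonpos_of_nonneg (by nlinarith) (by nlinarith)
    · exact mul_nonpos_of_nonpos_of_nonneg (by nlinarith) (by nlinarith)
    · exact mul_nonpos_of_nonneg_of_nonpos (by nlinarith) (by nlinarith)
    · exact mul_nonpos_of_nonneg_of_nonpos (by nlinarith) (by nlinarith)
  rw [show (5 : ℚ) * |D * u + 2 * (σ * (v - s * u))| = |5 * (D * u + 2 * (σ * (v - s * u)))| by
    rw [abs_mul]; norm_num, ← sq_le_sq]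
  nlinarith

theorem chordF {s D ta tb u v σ : ℚ} (hD : 0 < D) (hσ : σ = 1 ∨ σ = -1) (h1 : ta * u < v)
    (h2 : v < tb * u) (a1 : D ≤ σ * (ta - s)) (b1 : D ≤ σ * (tb - s)) :
    |5 * D * u - 2 * (σ * (v - s * u))| ≤ |D * u + 2 * (σ * (v - s * u))| := by
  have key : 0 ≤ (D * u) * (σ * (v - s * u) - D * u) := by
    rcases le_total 0 u with hu | hu <;> rcases hσ with rfl | rfl
    · exact mul_nonneg (by positivity) (by nlinarith)
    · exact mul_nonneg (by positivity) (by nlinarith)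
    · exact mul_nonneg_of_nonpos_of_nonpos (by nlinarith) (by nlinarith)
    · exact mul_nonneg_of_nonpos_of_nonpos (by nlinarith) (by nlinarith)
  rw [← sq_le_sq]
  nlinarith

/-- a near set and a far set are transversal after a linear change of variables -/
theorem near_far {K : ℝ} (hc : Core K) {τ : ℤ} (hτ : τ = 1 ∨ τ = -1) {X : Finset (ℤ × ℤ)}
    {t : ℤ × ℤ → ℚ} (h : Tang τ X t) {N F : Finset (ℤ × ℤ)} (hN : N ⊆ X) (hF : F ⊆ X)
    (hNF : Disjoint N F) {s D : ℚ} (hD : 0 < D) {σ : ℤ} (hσ : σ = 1 ∨ σ = -1)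
    (h1 : ∀ a ∈ N, -D ≤ σ * (t a - s) ∧ σ * (t a - s) ≤ 0) (h2 : ∀ a ∈ F, D ≤ σ * (t a - s)) :
    Lv K N F := by
  have hσ' : (σ : ℚ) = 1 ∨ (σ : ℚ) = -1 := by rcases hσ with rfl | rfl <;> simp
  set L : ℤ := s.den * D.den with hL
  have L0 : (0 : ℚ) < L := by rw [hL]; push_cast; exact mul_pos (by exact_mod_cast s.den_pos) (by exact_mod_cast D.den_pos)
  set S : ℤ := s.num * D.den with hS
  set E : ℤ := D.num * s.den with hE
  have eS : (S : ℚ) = L * s := by rw [hS, hL]; push_cast; rw [← Rat.mul_den_eq_num]; ring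
  have eE : (E : ℚ) = L * D := by rw [hE, hL]; push_cast; rw [← Rat.mul_den_eq_num]; ring
  have hd : (5 * E + 2 * σ * S) * (2 * σ * τ * L) - (-(2 * σ * τ * L)) * (E - 2 * σ * S) ≠ 0 := by
    have : (((5 * E + 2 * σ * S) * (2 * σ * τ * L) - (-(2 * σ * τ * L)) * (E - 2 * σ * S) : ℤ) : ℚ)
        = 12 * σ * τ * L * (L * D) := by push_cast; rw [eE]; ring
    intro e
    rw [e] at this
    have h3 : (σ : ℚ) ≠ 0 := by rcases hσ with rfl | rfl <;> simp
    have h4 : (τ : ℚ) ≠ 0 := by rcases hτ with rfl | rfl <;> simp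
    exact absurd this.symm (by simp [h3, h4, L0.ne', hD.ne'])
  have hi := lin_inj hd
  refine lv_lin hd (hc _ _ ((disjoint_image hi).2 hNF) ?_ ?_ ?_)
  · rw [← image_union]
    simp only [Sid, forall_mem_image]
    intro a ha b hb c hc d hd' e
    have hs := union_subset hN hF
    refine (h.sid a (hs ha) b (hs hb) c (hs hc) d (hs hd') (hi ?_)).imp (congrArg _) (congrArg _)
    obtain ⟨e1, e2⟩ := Prod.mk.inj e
    simp only [lin, Prod.fst_add, Prod.snd_add] at e1 e2 ⊢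
    exact Prod.ext (by linear_combination e1) (by linear_combination e2)
  · simp only [forall_mem_image]
    intro a ha b hb
    by_cases hab : a = b
    · simp [hab]
    have := mul_le_mul_of_nonneg_left (chordN hσ' (h b (hN hb) a (hN ha) hab)
      (tb := t a) (by have := h a (hN ha) b (hN hb) (Ne.symm hab); linarith)
      (h1 b hb).1 (h1 b hb).2 (h1 a ha).1 (h1 a ha).2) L0.le
    rw [mul_left_comm, ← abs_of_pos L0, ← abs_mul, ← abs_mul] at this
    rw [← Int.cast_le (R := ℚ)]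
    simp only [lin]
    push_cast
    rw [eS, eE]
    convert this using 2 <;> [congr 1; skip] <;> ring
  · simp only [forall_mem_image]
    intro a ha b hb
    by_cases hab : a = b
    · simp [hab]
    have := mul_le_mul_of_nonneg_left (chordF hD hσ' (h b (hF hb) a (hF ha) hab)
      (tb := t a) (by have := h a (hF ha) b (hF hb) (Ne.symm hab); linarith)
      (h2 b hb) (h2 a ha)) L0.le
    rw [← abs_of_pos L0, ← abs_mul, ← abs_mul] at this
    rw [← Int.cast_le (R := ℚ)]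
    simp only [lin]
    push_cast
    rw [eS, eE]
    convert this using 2 <;> ring

theorem norm_g (P : ℕ) [NeZero P] (c : ℤ × ℤ → ℝ) (a : ℤ × ℤ) (x : ZMod P × ZMod P) :
    ‖(c a : ℂ) * ch P a x‖ ^ 2 ≤ c a ^ 2 := by
  rw [norm_mul, ch, ZMod.stdAddChar_apply, Circle.norm_coe, mul_one, Complex.norm_real,
    Real.norm_eq_abs, sq_abs]

/-- the level bound for one chain -/
theorem chain {K : ℝ} (hK : 0 ≤ K) (hc : Core K) {τ : ℤ} (hτ : τ = 1 ∨ τ = -1)
    {X : Finset (ℤ × ℤ)} {t : ℤ × ℤ → ℚ} (h : Tang τ X t) :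
    ∀ᶠ P : ℕ in atTop, ∀ [Fact P.Prime], ∀ c : ℤ × ℤ → ℝ, (∀ a, 0 ≤ c a) → ∀ b : ℝ, 0 < b →
      b ^ 6 * ({x | b ≤ ‖∑ a ∈ X, (c a : ℂ) * ch P a x‖}.ncard : ℝ)
        ≤ 10 ^ 8 * (10 ^ 8 * (K + 1) + 1) * (∑ a ∈ X, c a ^ 2) ^ 3 * (P : ℝ) ^ 2 := by
  have ev : ∀ᶠ P : ℕ in atTop, ∀ p ∈ X.powerset, ∀ q ∈ X.powerset, Lv K p q →
      ∀ [Fact P.Prime], ∀ c : ℤ × ℤ → ℝ, (∀ a, 0 ≤ c a) → ∀ b : ℝ, 0 < b →
      b ^ 6 * cnt P p q c b ≤ K * (∑ a ∈ p, c a ^ 2 + ∑ a ∈ q, c a ^ 2) ^ 3 * (P : ℝ) ^ 2 := by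
    rw [eventually_all_finset]
    intro p _
    rw [eventually_all_finset]
    intro q _
    by_cases hl : Lv K p q
    · exact hl.mono fun P hP _ => hP
    · exact Eventually.of_forall fun _ h => absurd h hl
  filter_upwards [ev] with P hP hp c hc0 b hb
  have P0 : (0 : ℝ) < (P : ℝ) ^ 2 := by have := hp.out.pos; positivity
  set m : Set (ZMod P × ZMod P) → ℝ := fun S => S.ncard / (P : ℝ) ^ 2 with hm
  have m0 : m ∅ = 0 := by simp [hm]
  have mm : ∀ S T, S ⊆ T → m S ≤ m T := fun S T hST =>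
    div_le_div_of_nonneg_right (by exact_mod_cast Set.ncard_le_ncard hST) P0.le
  have m1 : ∀ S, m S ≤ 1 := fun S => (mm S _ (Set.subset_univ S)).trans (by
    simp only [hm, Set.ncard_univ, Nat.card_prod, Nat.card_zmod]
    rw [div_le_one P0]; push_cast; rw [sq])
  have mu : ∀ S T, m (S ∪ T) ≤ m S + m T := fun S T => by
    simp only [hm, ← add_div]
    exact div_le_div_of_nonneg_right (by exact_mod_cast Set.ncard_union_le S T) P0.le
  have := step3 m (fun a x => (c a : ℂ) * ch P a x) (fun a => c a ^ 2) m0 m1 mm mu (norm_g P c)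
    (fun _ => sq_nonneg _) X (fun a => (t a : ℝ)) (10 ^ 8 * (K + 1)) (by positivity) ?_ X Subset.rfl b hb
  · rwa [hm, mul_div_assoc', div_le_iff₀ P0] at this
  intro a0 ha0 p hp q hq hpq t1 t2
  have e0 := erase_subset a0 X
  simp only [Rat.cast_le] at t1 t2
  refine step2 m (fun a x => (c a : ℂ) * ch P a x) (fun a => c a ^ 2) m0 m1 mm mu (norm_g P c)
    (fun _ => sq_nonneg _) p q hpq (fun a => ((|t a - t a0| : ℚ) : ℝ)) K hK ?_ p Subset.rfl q Subset.rfl
  intro a1 ha1 p' hp' q' hq' hd b hb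
  simp only [Rat.cast_le] at hd
  obtain ⟨n1, n2⟩ := mem_erase.1 (union_subset hp hq ha1)
  have hD : 0 < |t a1 - t a0| := abs_pos.2 fun e => by
    have u1 := h a0 ha0 a1 n2 n1
    have u2 := h a1 n2 a0 ha0 n1.symm
    rw [sub_eq_zero.1 e] at u2
    linarith
  have s1 := (hp'.trans hp).trans e0
  have s2 := (hq'.trans hq).trans e0
  have hl : Lv K p' q' := by
    rcases hd with ⟨d1, d2⟩ | ⟨d1, d2⟩
    · refine near_far hc hτ h s1 s2 (hpq.mono hp' hq') (s := t a0) hD (Or.inl rfl)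
        (fun a ha => ?_) fun a ha => ?_
      · have := abs_le.1 (d1 a ha)
        have := t1 a (hp' ha)
        constructor <;> push_cast <;> linarith
      · have := d2 a ha
        rw [abs_of_nonneg (sub_nonneg.2 (t2 a (hq' ha)))] at this
        push_cast; linarith
    · refine (near_far hc hτ h s2 s1 (hpq.mono hp' hq').symm (s := t a0) hD (Or.inr rfl)
        (fun a ha => ?_) fun a ha => ?_).symm
      · have := abs_le.1 (d2 a ha)
        have := t2 a (hq' ha)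
        constructor <;> push_cast <;> linarith
      · have := d1 a ha
        rw [abs_of_nonpos (sub_nonpos.2 (t1 a (hp' ha)))] at this
        push_cast; linarith
  rw [hm, mul_div_assoc', div_le_iff₀ P0]
  exact hP p' (mem_powerset.2 s1) q' (mem_powerset.2 s2) hl c hc0 b hb

/-- the weighted count is at most the sixth moment over the finite group -/
theorem W_le (P : ℕ) [Fact P.Prime] (X : Finset (ℤ × ℤ)) (c : ℤ × ℤ → ℝ) (hc : ∀ a, 0 ≤ c a) :
    W X c * (P : ℝ) ^ 2 ≤ ∑ x, ‖∑ a ∈ X, (c a : ℂ) * ch P a x‖ ^ 6 := by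
  set d : (Fin 6 → ℤ × ℤ) → ℤ × ℤ := fun a => a 0 + a 1 + a 2 - (a 3 + a 4 + a 5) with hd
  set T := Fintype.piFinset fun _ : Fin 6 => X with hT
  have add : ∀ a b x, ch P (a + b) x = ch P a x * ch P b x := fun a b x => by
    simp only [ch, ← AddChar.map_add_eq_mul, Prod.fst_add, Prod.snd_add]; congr 1; push_cast; ring
  have neg : ∀ a x, starRingEnd ℂ (ch P a x) = ch P (-a) x := fun a x => by
    simp only [ch, ← AddChar.map_neg_eq_conj, Prod.fst_neg, Prod.snd_neg]; congr 1; push_cast; ring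
  have pt : ∀ x, ((‖∑ a ∈ X, (c a : ℂ) * ch P a x‖ ^ 6 : ℝ) : ℂ)
      = ∑ a ∈ T, ((∏ i, c (a i) : ℝ) : ℂ) * ch P (d a) x := by
    intro x
    set u : ℤ × ℤ → ℂ := fun a => (c a : ℂ) * ch P a x with hu
    set v : ℤ × ℤ → ℂ := fun a => (c a : ℂ) * ch P (-a) x with hv
    have h1 : starRingEnd ℂ (∑ a ∈ X, u a) = ∑ a ∈ X, v a := by
      rw [map_sum]
      exact sum_congr rfl fun a _ => by simp only [hu, hv, map_mul, Complex.conj_ofReal, neg]
    have h2 := prod_univ_sum (fun _ : Fin 6 => X) ![u, u, u, v, v, v]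
    simp only [Fin.prod_univ_six, Matrix.cons_val_zero, Matrix.cons_val_one, Matrix.cons_val] at h2
    have h3 : ((‖∑ a ∈ X, u a‖ ^ 6 : ℝ) : ℂ) = ((∑ a ∈ X, u a) * ∑ a ∈ X, v a) ^ 3 := by
      rw [← h1, Complex.mul_conj, Complex.normSq_eq_norm_sq]; push_cast; ring
    rw [h3, show ∀ p q : ℂ, (p * q) ^ 3 = p * p * p * q * q * q from fun p q => by ring, h2]
    refine sum_congr rfl fun a _ => ?_
    simp only [hu, hv, hd, sub_eq_add_neg, neg_add, add, Fin.prod_univ_six]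
    push_cast; ring
  have orth : ∀ e : ℤ × ℤ, 0 ≤ (∑ x, ch P e x).re ∧ (e = 0 → (∑ x, ch P e x).re = (P : ℝ) ^ 2) := by
    intro e
    have h1 : ∑ x, ch P e x = (if (e.1 : ZMod P) = 0 then (P : ℂ) else 0) *
        (if (e.2 : ZMod P) = 0 then (P : ℂ) else 0) := by
      have s := fun k : ZMod P => AddChar.sum_mulShift k (ZMod.isPrimitive_stdAddChar P)
      simp only [ZMod.card, Nat.cast_ite, Nat.cast_zero] at s
      rw [← s, ← s, sum_mul_sum, ← Fintype.sum_prod_type']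
      exact sum_congr rfl fun x _ => by rw [ch, AddChar.map_add_eq_mul, mul_comm x.1, mul_comm x.2]
    rw [h1]
    refine ⟨?_, fun h => by simp [h, sq]⟩
    split_ifs <;> simp
    positivity
  have tot : ∑ x, ‖∑ a ∈ X, (c a : ℂ) * ch P a x‖ ^ 6
      = ∑ a ∈ T, (∏ i, c (a i)) * (∑ x, ch P (d a) x).re := by
    rw [← Complex.ofReal_re (∑ x, _), Complex.ofReal_sum]
    simp only [pt]
    rw [sum_comm, Complex.re_sum]
    exact sum_congr rfl fun a _ => by rw [← mul_sum, Complex.re_ofReal_mul]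
  rw [tot, W, sum_mul, sum_filter]
  refine sum_le_sum fun a _ => ?_
  split_ifs with h
  · rw [(orth _).2 (sub_eq_zero.2 h)]
  · exact mul_nonneg (prod_nonneg fun _ _ => hc _) (orth _).1

/-- the integer statement from the core lemma -/
theorem ofCore {K : ℝ} (hK : 0 ≤ K) (hc : Core K) : ∃ C : ℝ,
    ∀ (X : Finset (ℤ × ℤ)) (c : ℤ × ℤ → ℝ), (∀ a, 0 ≤ c a) → SupZ X → 2 ≤ X.card →
      W X c ≤ C * Real.log X.card * (∑ a ∈ X, c a ^ 2) ^ 3 := by
  classical
  set K2 := 10 ^ 8 * (10 ^ 8 * (K + 1) + 1) with hK2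
  have K20 : 0 ≤ K2 := by positivity
  refine ⟨2 + 192 * (128 * K2), fun X c hc0 hX h2 => ?_⟩
  choose! t ht using hX
  set Y := X.filter fun a => ∀ b ∈ X, b ≠ a → t a * ((b.1 : ℚ) - a.1) < (b.2 : ℚ) - a.2 with hY
  have hYX : Y ⊆ X := filter_subset _ _
  have T1 : Tang 1 Y t := fun a ha b hb hba => by
    simpa using (mem_filter.1 ha).2 b (hYX hb) hba
  have T2 : Tang (-1) (X \ Y) t := fun a ha b hb hba => by
    obtain ⟨a1, a2⟩ := mem_sdiff.1 ha
    have := (ht a a1).resolve_left (fun h => a2 (mem_filter.2 ⟨a1, h⟩)) b (mem_sdiff.1 hb).1 hba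
    simpa using this
  obtain ⟨P, ⟨h3, h4⟩, hP⟩ := (((chain hK hc (Or.inl rfl) T1).and
    (chain hK hc (Or.inr rfl) T2)).and_frequently
    (frequently_atTop.2 fun n => (Nat.exists_infinite_primes n).imp fun _ h => h)).exists
  have := Fact.mk hP
  have P0 : (0 : ℝ) < (P : ℝ) ^ 2 := by have := hP.pos; positivity
  have hcard : (Fintype.card (ZMod P × ZMod P) : ℝ) = (P : ℝ) ^ 2 := by simp [sq]
  refine le_of_mul_le_mul_right ((W_le P X c hc0).trans ?_) P0
  rw [← hcard]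
  refine step4 (fun a x => (c a : ℂ) * ch P a x) (fun a => c a ^ 2) (norm_g P c)
    (fun _ => sq_nonneg _) X h2 _ (by positivity) fun b hb => ?_
  rw [hcard]
  have b1 := h3 c hc0 (b / 2) (by positivity)
  have b2 := h4 c hc0 (b / 2) (by positivity)
  have big : ∀ Z ⊆ X, K2 * (∑ a ∈ Z, c a ^ 2) ^ 3 * (P : ℝ) ^ 2
      ≤ K2 * (∑ a ∈ X, c a ^ 2) ^ 3 * (P : ℝ) ^ 2 := fun Z hZ => by gcongr
  have sub : ({x | b ≤ ‖∑ a ∈ X, (c a : ℂ) * ch P a x‖}.ncard : ℝ)
      ≤ {x | b / 2 ≤ ‖∑ a ∈ Y, (c a : ℂ) * ch P a x‖}.ncard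
        + {x | b / 2 ≤ ‖∑ a ∈ X \ Y, (c a : ℂ) * ch P a x‖}.ncard := by
    norm_cast
    refine le_trans (Set.ncard_le_ncard fun x hx => ?_) (Set.ncard_union_le _ _)
    simp only [Set.mem_union, Set.mem_ofPred_eq] at hx ⊢
    rw [← sum_sdiff hYX] at hx
    have := hx.trans (norm_add_le _ _)
    by_contra hn
    simp only [not_or, not_le] at hn
    linarith [hn.1, hn.2]
  have := mul_le_mul_of_nonneg_left sub (show 0 ≤ b ^ 6 by positivity)
  linarith [big Y hYX, big _ (sdiff_subset (s := X) (t := Y))]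

end E3R8
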