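import Pool.Agent.Lib.MP_4d4569_co.R8d
import Pool.Agent.Lib.MP_4d4569_co.E3Core

set_option autoImplicit false

open Finset Filter

namespace E3R9

open E3R8 hiding cnt Lv Core lv_lin near_far norm_g chain

/-- the number of points where both sums are at least b -/
noncomputable def cnt (P : ℕ) [NeZero P] (I J : Finset (ℤ × ℤ)) (c : ℤ × ℤ → ℂ) (b : ℝ) : ℕ :=
  {x | b ≤ ‖∑ a ∈ I, c a * ch P a x‖ ∧ b ≤ ‖∑ a ∈ J, c a * ch P a x‖}.ncard

/-- the level bound for a pair of sets, for all large primes -/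
def Lv (K : ℝ) (I J : Finset (ℤ × ℤ)) : Prop :=
  ∀ᶠ P : ℕ in atTop, ∀ [Fact P.Prime], ∀ c : ℤ × ℤ → ℂ, ∀ b : ℝ, 0 < b →
    b ^ 6 * cnt P I J c b ≤ K * (∑ a ∈ I, ‖c a‖ ^ 2 + ∑ a ∈ J, ‖c a‖ ^ 2) ^ 3 * (P : ℝ) ^ 2

/-- the core lemma -/
def Core (K : ℝ) : Prop :=
  ∀ I J : Finset (ℤ × ℤ), Disjoint I J → Sid (I ∪ J) →
    (∀ a ∈ I, ∀ a' ∈ I, 5 * |a.2 - a'.2| ≤ |a.1 - a'.1|) →
    (∀ a ∈ J, ∀ a' ∈ J, |a.1 - a'.1| ≤ |a.2 - a'.2|) → Lv K I J

theorem Lv.symm {K : ℝ} {I J : Finset (ℤ × ℤ)} (h : Lv K I J) : Lv K J I :=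
  h.mono fun P hP _ c b hb => by
    have := hP c b hb
    simp only [cnt, and_comm] at this ⊢
    rwa [add_comm]

theorem lv_lin {K : ℝ} {I J : Finset (ℤ × ℤ)} {α β γ δ : ℤ} (hd : α * δ - β * γ ≠ 0)
    (h : Lv K (I.image (lin α β γ δ)) (J.image (lin α β γ δ))) : Lv K I J := by
  have hi := lin_inj hd
  filter_upwards [h, eventually_gt_atTop (α * δ - β * γ).natAbs] with P hP hlt _ c b hb
  have hl := Function.leftInverse_invFun hi
  have h1 := hP (fun a => c (Function.invFun (lin α β γ δ) a)) b hb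
  simp only [cnt, sum_image hi.injOn, hl _] at h1
  have hd' : ((α * δ - β * γ : ℤ) : ZMod P) ≠ 0 := fun e =>
    hd (Int.eq_zero_of_dvd_of_natAbs_lt_natAbs ((ZMod.intCast_zmod_eq_zero_iff_dvd _ P).1 e)
      (by simpa using hlt))
  set T : ZMod P × ZMod P → ZMod P × ZMod P :=
    fun x => (α * x.1 + γ * x.2, β * x.1 + δ * x.2) with hT
  have hTi : Function.Injective T := by
    intro x y e
    obtain ⟨e1, e2⟩ := Prod.mk.inj e
    push_cast at hd'
    exact Prod.ext (mul_left_cancel₀ hd' (by linear_combination δ * e1 - γ * e2))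
      (mul_left_cancel₀ hd' (by linear_combination α * e2 - β * e1))
  have hc' : ∀ a x, ch P (lin α β γ δ a) x = ch P a (T x) := fun a x => by
    simp only [ch, lin, hT]; congr 1; push_cast; ring
  simp only [hc'] at h1
  rw [cnt, ← Set.ncard_preimage_of_injective_subset_range hTi
    (by rw [(Finite.surjective_of_injective hTi).range_eq]; exact Set.subset_univ _)]
  exact h1

/-- a near set and a far set are transversal after a linear change of variables -/
theorem near_far {K : ℝ} (hc : Core K) {τ : ℤ} (hτ : τ = 1 ∨ τ = -1) {X : Finset (ℤ × ℤ)}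
    {t : ℤ × ℤ → ℚ} (h : Tang τ X t) {N F : Finset (ℤ × ℤ)} (hN : N ⊆ X) (hF : F ⊆ X)
    (hNF : Disjoint N F) {s D : ℚ} (hD : 0 < D) {σ : ℤ} (hσ : σ = 1 ∨ σ = -1)
    (h1 : ∀ a ∈ N, -D ≤ σ * (t a - s) ∧ σ * (t a - s) ≤ 0) (h2 : ∀ a ∈ F, D ≤ σ * (t a - s)) :
    Lv K N F := by
  have hσ' : (σ : ℚ) = 1 ∨ (σ : ℚ) = -1 := by rcases hσ with rfl | rfl <;> simp
  set L : ℤ := s.den * D.den with hL
  have L0 : (0 : ℚ) < L := by rw [hL]; push_cast; exact mul_pos (by exact_mod_cast s.den_pos) (by exact_mod_cast D.den_pos)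
  set S : ℤ := s.num * D.den with hS
  set E : ℤ := D.num * s.den with hE
  have eS : (S : ℚ) = L * s := by rw [hS, hL]; push_cast; rw [← Rat.mul_den_eq_num]; ring
  have eE : (E : ℚ) = L * D := by rw [hE, hL]; push_cast; rw [← Rat.mul_den_eq_num]; ring
  have hd : (5 * E + 2 * σ * S) * (2 * σ * τ * L) - (-(2 * σ * τ * L)) * (E - 2 * σ * S) ≠ 0 := by
    have : (((5 * E + 2 * σ * S) * (2 * σ * τ * L) - (-(2 * σ * τ * L)) * (E - 2 * σ * S) : ℤ) : ℚ)
        = 12 * σ * τ * L * (L * D) := by push_cast; rw [eE]; ring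
    intro e
    rw [e] at this
    have h3 : (σ : ℚ) ≠ 0 := by rcases hσ with rfl | rfl <;> simp
    have h4 : (τ : ℚ) ≠ 0 := by rcases hτ with rfl | rfl <;> simp
    exact absurd this.symm (by simp [h3, h4, L0.ne', hD.ne'])
  have hi := lin_inj hd
  refine lv_lin hd (hc _ _ ((disjoint_image hi).2 hNF) ?_ ?_ ?_)
  · rw [← image_union]
    simp only [Sid, forall_mem_image]
    intro a ha b hb c hc d hd' e
    have hs := union_subset hN hF
    refine (h.sid a (hs ha) b (hs hb) c (hs hc) d (hs hd') (hi ?_)).imp (congrArg _) (congrArg _)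
    obtain ⟨e1, e2⟩ := Prod.mk.inj e
    simp only [lin, Prod.fst_add, Prod.snd_add] at e1 e2 ⊢
    exact Prod.ext (by linear_combination e1) (by linear_combination e2)
  · simp only [forall_mem_image]
    intro a ha b hb
    by_cases hab : a = b
    · simp [hab]
    have := mul_le_mul_of_nonneg_left (chordN hσ' (h b (hN hb) a (hN ha) hab)
      (tb := t a) (by have := h a (hN ha) b (hN hb) (Ne.symm hab); linarith)
      (h1 b hb).1 (h1 b hb).2 (h1 a ha).1 (h1 a ha).2) L0.le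
    rw [mul_left_comm, ← abs_of_pos L0, ← abs_mul, ← abs_mul] at this
    rw [← Int.cast_le (R := ℚ)]
    simp only [lin]
    push_cast
    rw [eS, eE]
    convert this using 2 <;> [congr 1; skip] <;> ring
  · simp only [forall_mem_image]
    intro a ha b hb
    by_cases hab : a = b
    · simp [hab]
    have := mul_le_mul_of_nonneg_left (chordF hD hσ' (h b (hF hb) a (hF ha) hab)
      (tb := t a) (by have := h a (hF ha) b (hF hb) (Ne.symm hab); linarith)
      (h2 b hb) (h2 a ha)) L0.le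
    rw [← abs_of_pos L0, ← abs_mul, ← abs_mul] at this
    rw [← Int.cast_le (R := ℚ)]
    simp only [lin]
    push_cast
    rw [eS, eE]
    convert this using 2 <;> ring

theorem norm_g (P : ℕ) [NeZero P] (c : ℤ × ℤ → ℂ) (a : ℤ × ℤ) (x : ZMod P × ZMod P) :
    ‖c a * ch P a x‖ ^ 2 ≤ ‖c a‖ ^ 2 := by
  rw [norm_mul, ch, ZMod.stdAddChar_apply, Circle.norm_coe, mul_one]

/-- the level bound for one chain -/
theorem chain {K : ℝ} (hK : 0 ≤ K) (hc : Core K) {τ : ℤ} (hτ : τ = 1 ∨ τ = -1)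
    {X : Finset (ℤ × ℤ)} {t : ℤ × ℤ → ℚ} (h : Tang τ X t) :
    ∀ᶠ P : ℕ in atTop, ∀ [Fact P.Prime], ∀ c : ℤ × ℤ → ℂ, ∀ b : ℝ, 0 < b →
      b ^ 6 * ({x | b ≤ ‖∑ a ∈ X, c a * ch P a x‖}.ncard : ℝ)
        ≤ 10 ^ 8 * (10 ^ 8 * (K + 1) + 1) * (∑ a ∈ X, ‖c a‖ ^ 2) ^ 3 * (P : ℝ) ^ 2 := by
  have ev : ∀ᶠ P : ℕ in atTop, ∀ p ∈ X.powerset, ∀ q ∈ X.powerset, Lv K p q →
      ∀ [Fact P.Prime], ∀ c : ℤ × ℤ → ℂ, ∀ b : ℝ, 0 < b →
      b ^ 6 * cnt P p q c b ≤ K * (∑ a ∈ p, ‖c a‖ ^ 2 + ∑ a ∈ q, ‖c a‖ ^ 2) ^ 3 * (P : ℝ) ^ 2 := by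
    rw [eventually_all_finset]
    intro p _
    rw [eventually_all_finset]
    intro q _
    by_cases hl : Lv K p q
    · exact hl.mono fun P hP _ => hP
    · exact Eventually.of_forall fun _ h => absurd h hl
  filter_upwards [ev] with P hP hp c b hb
  have P0 : (0 : ℝ) < (P : ℝ) ^ 2 := by have := hp.out.pos; positivity
  set m : Set (ZMod P × ZMod P) → ℝ := fun S => S.ncard / (P : ℝ) ^ 2 with hm
  have m0 : m ∅ = 0 := by simp [hm]
  have mm : ∀ S T, S ⊆ T → m S ≤ m T := fun S T hST =>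
    div_le_div_of_nonneg_right (by exact_mod_cast Set.ncard_le_ncard hST) P0.le
  have m1 : ∀ S, m S ≤ 1 := fun S => (mm S _ (Set.subset_univ S)).trans (by
    simp only [hm, Set.ncard_univ, Nat.card_prod, Nat.card_zmod]
    rw [div_le_one P0]; push_cast; rw [sq])
  have mu : ∀ S T, m (S ∪ T) ≤ m S + m T := fun S T => by
    simp only [hm, ← add_div]
    exact div_le_div_of_nonneg_right (by exact_mod_cast Set.ncard_union_le S T) P0.le
  have := step3 m (fun a x => c a * ch P a x) (fun a => ‖c a‖ ^ 2) m0 m1 mm mu (norm_g P c)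
    (fun _ => sq_nonneg _) X (fun a => (t a : ℝ)) (10 ^ 8 * (K + 1)) (by positivity) ?_ X Subset.rfl b hb
  · rwa [hm, mul_div_assoc', div_le_iff₀ P0] at this
  intro a0 ha0 p hp q hq hpq t1 t2
  have e0 := erase_subset a0 X
  simp only [Rat.cast_le] at t1 t2
  refine step2 m (fun a x => c a * ch P a x) (fun a => ‖c a‖ ^ 2) m0 m1 mm mu (norm_g P c)
    (fun _ => sq_nonneg _) p q hpq (fun a => ((|t a - t a0| : ℚ) : ℝ)) K hK ?_ p Subset.rfl q Subset.rfl
  intro a1 ha1 p' hp' q' hq' hd b hb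
  simp only [Rat.cast_le] at hd
  obtain ⟨n1, n2⟩ := mem_erase.1 (union_subset hp hq ha1)
  have hD : 0 < |t a1 - t a0| := abs_pos.2 fun e => by
    have u1 := h a0 ha0 a1 n2 n1
    have u2 := h a1 n2 a0 ha0 n1.symm
    rw [sub_eq_zero.1 e] at u2
    linarith
  have s1 := (hp'.trans hp).trans e0
  have s2 := (hq'.trans hq).trans e0
  have hl : Lv K p' q' := by
    rcases hd with ⟨d1, d2⟩ | ⟨d1, d2⟩
    · refine near_far hc hτ h s1 s2 (hpq.mono hp' hq') (s := t a0) hD (Or.inl rfl)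
        (fun a ha => ?_) fun a ha => ?_
      · have := abs_le.1 (d1 a ha)
        have := t1 a (hp' ha)
        constructor <;> push_cast <;> linarith
      · have := d2 a ha
        rw [abs_of_nonneg (sub_nonneg.2 (t2 a (hq' ha)))] at this
        push_cast; linarith
    · refine (near_far hc hτ h s2 s1 (hpq.mono hp' hq').symm (s := t a0) hD (Or.inr rfl)
        (fun a ha => ?_) fun a ha => ?_).symm
      · have := abs_le.1 (d2 a ha)
        have := t2 a (hq' ha)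
        constructor <;> push_cast <;> linarith
      · have := d1 a ha
        rw [abs_of_nonpos (sub_nonpos.2 (t1 a (hp' ha)))] at this
        push_cast; linarith
  rw [hm, mul_div_assoc', div_le_iff₀ P0]
  exact hP p' (mem_powerset.2 s1) q' (mem_powerset.2 s2) hl c b hb

theorem core : Core (10 ^ 38) := by
  intro I J _ hS hI hJ
  have sd : ∀ Y ⊆ I ∪ J, E3L.Sid id Y := fun Y hY a ha b hb u hu v hv e => by
    have e' : a + v = b + u := by
      simp only [id] at e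
      linear_combination e
    rcases hS a (hY ha) b (hY hb) u (hY hu) v (hY hv) e' with h | h
    · exact Or.inl h
    · exact Or.inr ⟨h, by rw [h, add_comm b u] at e'; exact (add_left_cancel e').symm⟩
  obtain ⟨L, hL⟩ := E3L.exists_box id (I ∪ J)
  filter_upwards [eventually_gt_atTop (4 * (L + 4 * 2 ^ L))] with P hP _ c b hb
  have := E3L.core_aux (P := P) id c I J L L (sd I subset_union_left) (sd J subset_union_right)
    ⟨fun a ha a' ha' => by
      have := hI a ha a' ha'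
      have := abs_nonneg (a.2 - a'.2)
      simp only [id]; omega, hJ⟩
    (fun a ha => hL a (mem_union_left _ ha)) (fun a ha => hL a (mem_union_right _ ha))
    (by positivity) (by exact_mod_cast (by have := L.lt_two_pow_self; omega : L ≤ 4 * 2 ^ L))
    (by exact_mod_cast hP) b hb
  rw [← Set.ncard_coe_finset, coe_filter_univ] at this
  exact this

/-- the weak bound, uniformly in the coefficients -/
theorem weak : ∃ K : ℝ, 0 ≤ K ∧ ∀ X : Finset (ℤ × ℤ), SupZ X →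
    ∃ P : ℕ, ∃ _ : Fact P.Prime, ∀ c : ℤ × ℤ → ℂ, ∀ b : ℝ, 0 < b →
      b ^ 6 * ({x | b ≤ ‖∑ a ∈ X, c a * ch P a x‖}.ncard : ℝ)
        ≤ K * (∑ a ∈ X, ‖c a‖ ^ 2) ^ 3 * (P : ℝ) ^ 2 := by
  classical
  set K2 : ℝ := 10 ^ 8 * (10 ^ 8 * (10 ^ 38 + 1) + 1) with hK2
  have K20 : 0 ≤ K2 := by positivity
  refine ⟨128 * K2, by positivity, fun X hX => ?_⟩
  choose! t ht using hX
  set Y := X.filter fun a => ∀ b ∈ X, b ≠ a → t a * ((b.1 : ℚ) - a.1) < (b.2 : ℚ) - a.2 with hY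
  have hYX : Y ⊆ X := filter_subset _ _
  have T1 : Tang 1 Y t := fun a ha b hb hba => by
    simpa using (mem_filter.1 ha).2 b (hYX hb) hba
  have T2 : Tang (-1) (X \ Y) t := fun a ha b hb hba => by
    obtain ⟨a1, a2⟩ := mem_sdiff.1 ha
    have := (ht a a1).resolve_left (fun h => a2 (mem_filter.2 ⟨a1, h⟩)) b (mem_sdiff.1 hb).1 hba
    simpa using this
  obtain ⟨P, ⟨h3, h4⟩, hP⟩ := (((chain (by positivity) core (Or.inl rfl) T1).and
    (chain (by positivity) core (Or.inr rfl) T2)).and_frequently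
    (frequently_atTop.2 fun n => (Nat.exists_infinite_primes n).imp fun _ h => h)).exists
  have := Fact.mk hP
  refine ⟨P, this, fun c b hb => ?_⟩
  have b1 := h3 c (b / 2) (by positivity)
  have b2 := h4 c (b / 2) (by positivity)
  have big : ∀ Z ⊆ X, K2 * (∑ a ∈ Z, ‖c a‖ ^ 2) ^ 3 * (P : ℝ) ^ 2
      ≤ K2 * (∑ a ∈ X, ‖c a‖ ^ 2) ^ 3 * (P : ℝ) ^ 2 := fun Z hZ => by gcongr
  have sub : ({x | b ≤ ‖∑ a ∈ X, c a * ch P a x‖}.ncard : ℝ)
      ≤ {x | b / 2 ≤ ‖∑ a ∈ Y, c a * ch P a x‖}.ncard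
        + {x | b / 2 ≤ ‖∑ a ∈ X \ Y, c a * ch P a x‖}.ncard := by
    norm_cast
    refine le_trans (Set.ncard_le_ncard fun x hx => ?_) (Set.ncard_union_le _ _)
    simp only [Set.mem_union, Set.mem_ofPred_eq] at hx ⊢
    rw [← sum_sdiff hYX] at hx
    have := hx.trans (norm_add_le _ _)
    by_contra hn
    simp only [not_or, not_le] at hn
    linarith [hn.1, hn.2]
  have := mul_le_mul_of_nonneg_left sub (show 0 ≤ b ^ 6 by positivity)
  rw [← hK2] at b1 b2
  linarith [big Y hYX, big _ (sdiff_subset (s := X) (t := Y))]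

end E3R9
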