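import Pool.Agent.Lib.MP_4d4569_co.R9

set_option autoImplicit false

open Finset Filter MeasureTheory

namespace E3R9

open E3R8 hiding cnt Lv Core lv_lin near_far norm_g chain

theorem layerp {S r p : ℝ} (hS : 0 ≤ S) (hr : 0 ≤ r) (hp : 0 ≤ p) (hp6 : p ≤ 6) (J : ℕ)
    (h : S ≤ 2 ^ J * r) :
    S ^ p ≤ r ^ p + ∑ j ∈ range J, 64 * (2 ^ j * r) ^ p * (if 2 ^ j * r ≤ S then 1 else 0) := by
  induction J with
  | zero => simpa using Real.rpow_le_rpow hS (by simpa using h) hp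
  | succ J ih =>
    have hn : 0 ≤ ∑ j ∈ range J, 64 * (2 ^ j * r) ^ p * (if 2 ^ j * r ≤ S then (1 : ℝ) else 0) :=
      sum_nonneg fun j _ => by positivity
    rw [sum_range_succ]
    split_ifs with h1
    · have h2 := Real.rpow_le_rpow hS h hp
      rw [pow_succ', mul_assoc, Real.mul_rpow two_pos.le (by positivity)] at h2
      have h3 : (2 : ℝ) ^ p ≤ 64 := (Real.rpow_le_rpow_of_exponent_le one_le_two hp6).trans
        (by norm_num)
      have h4 := mul_le_mul_of_nonneg_right h3 (show 0 ≤ (2 ^ J * r) ^ p by positivity)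
      linarith [show 0 ≤ r ^ p by positivity]
    · linarith [ih (not_le.1 h1).le]

theorem geo {s : ℝ} (h0 : 0 < s) (h6 : s ≤ 6) (J : ℕ) :
    ∑ j ∈ range J, ((2 : ℝ) ^ (-s)) ^ j ≤ 8 / s := by
  have l1 := Real.log_two_gt_d9
  have l2 := Real.log_two_lt_d9
  have h1 : 1 + s * Real.log 2 ≤ (2 : ℝ) ^ s := by
    rw [Real.rpow_def_of_pos two_pos, mul_comm s, add_comm]; exact Real.add_one_le_exp _
  have h2 : (2 : ℝ) ^ (-s) ≤ 1 - s / 8 := by
    rw [Real.rpow_neg two_pos.le, inv_le_iff_one_le_mul₀ (by positivity)]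
    have := mul_le_mul_of_nonneg_left h1 (show 0 ≤ 1 - s / 8 by linarith)
    have h3 : 1 + s * (1 / 2) ≤ 1 + s * Real.log 2 := by nlinarith
    have := mul_le_mul_of_nonneg_left h3 (show 0 ≤ 1 - s / 8 by linarith)
    nlinarith
  have h3 := mul_neg_geom_sum ((2 : ℝ) ^ (-s)) J
  have h4 : 0 ≤ ∑ j ∈ range J, ((2 : ℝ) ^ (-s)) ^ j := sum_nonneg fun _ _ => by positivity
  have h5 : 0 ≤ ((2 : ℝ) ^ (-s)) ^ J := by positivity
  rw [le_div_iff₀ h0]
  nlinarith

/-- from the level bound to the moments below six -/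
theorem stepp {Ω : Type} [Fintype Ω] (f : Ω → ℝ) (hf : ∀ x, 0 ≤ f x) {r p K : ℝ} (hr : 0 < r)
    (hp : 0 ≤ p) (hp6 : p < 6) (hK : 0 ≤ K)
    (h : ∀ b : ℝ, 0 < b → b ^ 6 * ({x | b ≤ f x}.ncard : ℝ) ≤ K * r ^ 6 * Fintype.card Ω) :
    ∑ x, f x ^ p ≤ (6 + 512 * K) / (6 - p) * r ^ p * Fintype.card Ω := by
  classical
  obtain ⟨J, hJ⟩ := pow_unbounded_of_one_lt ((∑ x, f x) / r) (one_lt_two (α := ℝ))
  have pt : ∀ x, f x ≤ 2 ^ J * r := fun x =>
    (single_le_sum (fun x _ => hf x) (mem_univ x)).trans ((div_le_iff₀ hr).1 hJ.le)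
  have T0 : 0 ≤ r ^ p * Fintype.card Ω := by positivity
  have lev : ∀ j : ℕ, ∑ x, 64 * (2 ^ j * r) ^ p * (if 2 ^ j * r ≤ f x then (1 : ℝ) else 0)
      ≤ 64 * K * (r ^ p * Fintype.card Ω) * ((2 : ℝ) ^ (-(6 - p))) ^ j := by
    intro j
    have h1 := h (2 ^ j * r) (by positivity)
    rw [← mul_sum, sum_boole, ← Set.ncard_coe_finset, coe_filter_univ]
    have h2 : ((2 : ℝ) ^ (-(6 - p))) ^ j * (2 ^ j) ^ 6 = (2 ^ j) ^ p := by
      rw [← Real.rpow_natCast, ← Real.rpow_natCast, ← Real.rpow_natCast,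
        ← Real.rpow_mul two_pos.le, ← Real.rpow_mul two_pos.le, ← Real.rpow_mul two_pos.le,
        ← Real.rpow_add two_pos]
      congr 1; push_cast; ring
    rw [Real.mul_rpow (by positivity) hr.le, ← h2]
    have h3 := mul_le_mul_of_nonneg_left h1
      (show 0 ≤ 64 * r ^ p * ((2 : ℝ) ^ (-(6 - p))) ^ j by positivity)
    refine le_of_mul_le_mul_right ?_ (show 0 < r ^ 6 by positivity)
    rw [mul_pow] at h3
    linarith
  calc ∑ x, f x ^ p ≤ ∑ x : Ω, (r ^ p + ∑ j ∈ range J, 64 * (2 ^ j * r) ^ p *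
        (if 2 ^ j * r ≤ f x then (1 : ℝ) else 0)) :=
        sum_le_sum fun x _ => layerp (hf x) hr.le hp hp6.le J (pt x)
    _ ≤ r ^ p * Fintype.card Ω + 64 * K * (r ^ p * Fintype.card Ω) * (8 / (6 - p)) := by
        rw [sum_add_distrib, sum_comm]
        refine add_le_add (le_of_eq ?_) ?_
        · rw [sum_const, card_univ, nsmul_eq_mul, mul_comm]
        · refine (sum_le_sum fun j _ => lev j).trans ?_
          rw [← mul_sum]
          exact mul_le_mul_of_nonneg_left (geo (by linarith) (by linarith) J) (by positivity)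
    _ ≤ _ := by
        have b1 : 1 ≤ 6 / (6 - p) := by rw [le_div_iff₀ (by linarith)]; linarith
        have b2 := mul_le_mul_of_nonneg_right b1 T0
        rw [show (6 + 512 * K) / (6 - p) = 6 / (6 - p) + 64 * K * (8 / (6 - p)) by ring]
        linarith

/-- integer points close to a dilate keep the supporting lines -/
theorem close (A : Finset (ℝ × ℝ)) (h : Sup A) : ∃ η : ℝ, 0 < η ∧ ∀ L : ℝ, 0 < L → ∀ z : ℝ → ℤ,
    (∀ a ∈ A, |(z a.1 : ℝ) / L - a.1| < η ∧ |(z a.2 : ℝ) / L - a.2| < η) →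
    Set.InjOn (fun a : ℝ × ℝ => (z a.1, z a.2)) A ∧
      SupZ (A.image fun a : ℝ × ℝ => (z a.1, z a.2)) := by
  classical
  have h' : ∀ a : ℝ × ℝ, ∃ (t σ : ℝ), (σ = 1 ∨ σ = -1) ∧
      (a ∈ A → ∀ b ∈ A, b ≠ a → t * (b.1 - a.1) < σ * (b.2 - a.2)) := by
    intro a
    by_cases ha : a ∈ A
    · obtain ⟨t, ht | ht⟩ := h a ha
      · exact ⟨t, 1, Or.inl rfl, fun _ b hb hba => by have := ht b hb hba; linarith⟩
      · exact ⟨t, -1, Or.inr rfl, fun _ b hb hba => by have := ht b hb hba; linarith⟩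
    · exact ⟨0, 1, Or.inl rfl, fun h => absurd h ha⟩
  choose t σ hσ ht using h'
  have hev : ∀ᶠ η in nhdsWithin (0 : ℝ) (Set.Ioi 0), η < 1 ∧ ∀ a ∈ A, ∀ b ∈ A, b ≠ a →
      η * (2 * |t a| + |b.1 - a.1| + 4) < σ a * (b.2 - a.2) - t a * (b.1 - a.1) := by
    refine Filter.Eventually.filter_mono nhdsWithin_le_nhds ((eventually_lt_nhds one_pos).and ?_)
    rw [Filter.eventually_all_finset]
    intro a ha
    rw [Filter.eventually_all_finset]
    intro b hb
    by_cases hba : b = a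
    · exact Filter.Eventually.of_forall fun _ h => absurd hba h
    · have hc : Continuous fun η : ℝ => η * (2 * |t a| + |b.1 - a.1| + 4) := by fun_prop
      have := ht a ha b hb hba
      exact (hc.continuousAt.eventually_lt continuousAt_const (by simpa using this)).mono
        fun _ h _ => h
  obtain ⟨η, ⟨hη1, hη⟩, hη0⟩ := (hev.and self_mem_nhdsWithin).exists
  have hη0 : 0 < η := hη0
  refine ⟨η, hη0, fun L hL z hz => ?_⟩
  choose q hq using fun a => exists_rat_near (t a) hη0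
  have main : ∀ a ∈ A, ∀ b ∈ A, b ≠ a →
      (q a : ℝ) * ((z b.1 : ℝ) - z a.1) < σ a * ((z b.2 : ℝ) - z a.2) := by
    intro a ha b hb hba
    have g := hη a ha b hb hba
    have a1 := abs_lt.1 (hz a ha).1
    have b1 := abs_lt.1 (hz b hb).1
    have a2 := abs_lt.1 (hz a ha).2
    have b2 := abs_lt.1 (hz b hb).2
    have e1 : |(q a : ℝ) * (((z b.1 : ℝ) / L - b.1) - ((z a.1 : ℝ) / L - a.1))|
        ≤ (|t a| + 1) * (2 * η) := by
      rw [abs_mul]
      refine mul_le_mul ?_ (abs_le.2 ⟨by linarith, by linarith⟩) (abs_nonneg _) (by positivity)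
      have := abs_sub_abs_le_abs_sub (q a : ℝ) (t a)
      rw [abs_sub_comm] at this
      linarith [hq a]
    have e2 : |((q a : ℝ) - t a) * (b.1 - a.1)| ≤ η * |b.1 - a.1| := by
      rw [abs_mul, abs_sub_comm]
      exact mul_le_mul_of_nonneg_right (hq a).le (abs_nonneg _)
    have e3 := le_abs_self ((q a : ℝ) * (((z b.1 : ℝ) / L - b.1) - ((z a.1 : ℝ) / L - a.1)))
    have e4 := le_abs_self (((q a : ℝ) - t a) * (b.1 - a.1))
    have key : (q a : ℝ) * ((z b.1 : ℝ) / L - z a.1 / L) < σ a * ((z b.2 : ℝ) / L - z a.2 / L) := by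
      rcases hσ a with hs | hs <;> rw [hs] at g ⊢ <;> nlinarith
    rwa [← sub_div, ← sub_div, ← mul_div_assoc, ← mul_div_assoc, div_lt_div_iff_of_pos_right hL] at key
  refine ⟨fun a ha b hb hab => ?_, fun x hx => ?_⟩
  · by_contra hne
    have := main b hb a ha hne
    obtain ⟨e1, e2⟩ := Prod.mk.inj hab
    rw [e1, e2] at this
    simp at this
  · obtain ⟨a, ha, rfl⟩ := mem_image.1 hx
    refine ⟨q a, ?_⟩
    rcases hσ a with hs | hs
    · refine Or.inl fun y hy hya => ?_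
      obtain ⟨b, hb, rfl⟩ := mem_image.1 hy
      have := main a ha b hb fun e => hya (by rw [e])
      rw [hs, one_mul] at this
      exact_mod_cast this
    · refine Or.inr fun y hy hya => ?_
      obtain ⟨b, hb, rfl⟩ := mem_image.1 hy
      have := main a ha b hb fun e => hya (by rw [e])
      rw [hs, neg_one_mul, neg_sub] at this
      exact_mod_cast this

/-- simultaneous approximation -/
theorem dirichlet (S : Finset ℝ) {δ : ℝ} (hδ : 0 < δ) (M : ℕ) :
    ∃ q : ℕ, M ≤ q ∧ ∀ s ∈ S, |(q : ℝ) * s - round ((q : ℝ) * s)| < δ := by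
  have h := mapClusterPt_zero_atTop_nsmul (fun s : S => ((s : ℝ) : UnitAddCircle))
  obtain ⟨q, h1, h2⟩ := ((mapClusterPt_iff_frequently.1 h _
    (Metric.ball_mem_nhds _ hδ)).and_eventually (eventually_ge_atTop M)).exists
  refine ⟨q, h2, fun s hs => ?_⟩
  rw [mem_ball_zero_iff, pi_norm_lt_iff hδ] at h1
  have := h1 ⟨s, hs⟩
  rwa [Pi.smul_apply, ← AddCircle.coe_nsmul, UnitAddCircle.norm_eq, nsmul_eq_mul] at this

/-- a bound for shifted averages bounds the integral over large squares -/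
theorem shift {Ω : Type} [Fintype Ω] [Nonempty Ω] (F : ℝ × ℝ → ℝ) (hF : Continuous F)
    (h0 : ∀ x, 0 ≤ F x) (u : Ω → ℝ × ℝ) {q B R : ℝ}
    (hu : ∀ g, u g ∈ Set.Icc 0 q ×ˢ Set.Icc 0 q) (hB : ∀ x, ∑ g, F (x + u g) ≤ B * Fintype.card Ω)
    (hq : 0 ≤ q) (hR : q ≤ R) :
    ∫ x in Set.Icc 0 R ×ˢ Set.Icc 0 R, F x ≤ 4 * B * R ^ 2 := by
  set T : Set (ℝ × ℝ) := Set.Icc (-R) R ×ˢ Set.Icc (-R) R with hT
  have cT : IsCompact T := isCompact_Icc.prod isCompact_Icc
  have hI : ∀ g, IntegrableOn (fun x => F (x + u g)) T := fun g =>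
    (hF.comp (continuous_add_const _)).continuousOn.integrableOn_compact cT
  have h1 : ∀ g, ∫ x in Set.Icc 0 R ×ˢ Set.Icc 0 R, F x ≤ ∫ x in T, F (x + u g) := by
    intro g
    rw [← (measurePreserving_add_right volume (u g)).setIntegral_preimage_emb
      (measurableEmbedding_addRight (u g))]
    refine setIntegral_mono_set (hI g) (Eventually.of_forall fun x => h0 _)
      (LE.le.eventuallyLE fun x hx => ?_)
    obtain ⟨⟨a1, a2⟩, a3, a4⟩ := hx
    obtain ⟨⟨b1, b2⟩, b3, b4⟩ := hu g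
    simp only [Prod.fst_add, Prod.snd_add] at a1 a2 a3 a4
    exact ⟨⟨by linarith, by linarith⟩, by linarith, by linarith⟩
  have hc : (0 : ℝ) < Fintype.card Ω := by exact_mod_cast Fintype.card_pos
  have hv : volume.real T = 4 * R ^ 2 := by
    rw [hT, Measure.volume_eq_prod, measureReal_prod_prod, Real.volume_real_Icc_of_le (by linarith)]
    ring
  refine le_of_mul_le_mul_right ?_ hc
  calc (∫ x in Set.Icc 0 R ×ˢ Set.Icc 0 R, F x) * Fintype.card Ω
      = ∑ _g : Ω, ∫ x in Set.Icc 0 R ×ˢ Set.Icc 0 R, F x := by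
        rw [sum_const, card_univ, nsmul_eq_mul, mul_comm]
    _ ≤ ∑ g, ∫ x in T, F (x + u g) := sum_le_sum fun g _ => h1 g
    _ = ∫ x in T, ∑ g, F (x + u g) := (integral_finsetSum _ fun g _ => hI g).symm
    _ ≤ ∫ _x in T, B * Fintype.card Ω :=
        setIntegral_mono (integrable_finsetSum _ fun g _ => hI g)
          (continuous_const.continuousOn.integrableOn_compact cT) hB
    _ = _ := by rw [setIntegral_const, hv, smul_eq_mul]; ring

theorem exp_close (u v : ℝ) : ‖Complex.exp (2 * Real.pi * Complex.I * u)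
    - Complex.exp (2 * Real.pi * Complex.I * v)‖ ≤ 8 * |u - v| := by
  have h1 : Complex.exp (2 * Real.pi * Complex.I * u) - Complex.exp (2 * Real.pi * Complex.I * v)
      = Complex.exp (Complex.I * (2 * Real.pi * v : ℝ)) *
        (Complex.exp (Complex.I * (2 * Real.pi * (u - v) : ℝ)) - 1) := by
    rw [mul_sub, ← Complex.exp_add, mul_one]
    congr 2 <;> push_cast <;> ring
  rw [h1, norm_mul, Complex.norm_exp_I_mul_ofReal, one_mul]
  refine Real.norm_exp_I_mul_ofReal_sub_one_le.trans ?_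
  rw [Real.norm_eq_abs, abs_mul, abs_of_pos Real.two_pi_pos]
  exact mul_le_mul_of_nonneg_right (by linarith [Real.pi_le_four]) (abs_nonneg _)

theorem main : ∃ C : ℝ, ∀ A : Finset (ℝ × ℝ), Sup A → ∃ R₀ : ℝ, ∀ R : ℝ, R₀ ≤ R →
    ∀ (c : ℝ × ℝ → ℂ) (p : ℝ), 0 < p → p < 6 →
      ∫ x in Set.Icc 0 R ×ˢ Set.Icc 0 R,
        ‖∑ a ∈ A, c a * Complex.exp (2 * Real.pi * Complex.I * (a.1 * x.1 + a.2 * x.2 : ℝ))‖ ^ p
        ≤ C / (6 - p) * (∑ a ∈ A, ‖c a‖ ^ 2) ^ (p / 2) * R ^ 2 := by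
  classical
  obtain ⟨K, hK, hw⟩ := weak
  refine ⟨4 * (64 * (12 + 512 * K)), fun A hA => ?_⟩
  obtain ⟨η, hη, hc⟩ := close A hA
  obtain ⟨M, hM⟩ := exists_nat_gt (1 / η)
  set δ : ℝ := 1 / (16 * (A.card + 1)) with hδ
  have δ0 : 0 < δ := by positivity
  have δ1 : 16 * δ * A.card + 16 * δ = 1 := by rw [hδ]; field_simp
  obtain ⟨q, hq, hd⟩ := dirichlet (A.image Prod.fst ∪ A.image Prod.snd) δ0 M
  have m1 : ∀ a ∈ A, a.1 ∈ A.image Prod.fst ∪ A.image Prod.snd := fun a ha =>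
    mem_union_left _ (mem_image_of_mem _ ha)
  have m2 : ∀ a ∈ A, a.2 ∈ A.image Prod.fst ∪ A.image Prod.snd := fun a ha =>
    mem_union_right _ (mem_image_of_mem _ ha)
  have q1 : 1 / η < q := hM.trans_le (by exact_mod_cast hq)
  have q0 : (0 : ℝ) < q := lt_trans (by positivity) q1
  have cl : ∀ s ∈ A.image Prod.fst ∪ A.image Prod.snd, |(round ((q : ℝ) * s) : ℝ) / q - s| < η := by
    intro s hs
    have h1 := hd s hs
    rw [div_sub' q0.ne', abs_div, abs_of_pos q0, div_lt_iff₀ q0, abs_sub_comm]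
    rw [div_lt_iff₀ hη] at q1
    nlinarith [mul_nonneg δ0.le (Nat.cast_nonneg (α := ℝ) A.card)]
  obtain ⟨hinj, hS⟩ := hc q q0 (fun s => round ((q : ℝ) * s)) fun a ha => ⟨cl _ (m1 a ha), cl _ (m2 a ha)⟩
  set γ : ℝ × ℝ → ℤ × ℤ := fun a => (round ((q : ℝ) * a.1), round ((q : ℝ) * a.2)) with hγ
  obtain ⟨P, hP, hW⟩ := hw _ hS
  have P0 : (0 : ℝ) < P := by exact_mod_cast hP.out.pos
  refine ⟨q, fun R hR c p p0 p6 => ?_⟩
  set n := ∑ a ∈ A, ‖c a‖ ^ 2 with hn
  have n0 : 0 ≤ n := sum_nonneg fun _ _ => sq_nonneg _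
  set r := √n with hr
  have r2 : r ^ 2 = n := Real.sq_sqrt n0
  have cr : ∀ a ∈ A, ‖c a‖ ≤ r := fun a ha =>
    Real.le_sqrt_of_sq_le (single_le_sum (f := fun a => ‖c a‖ ^ 2) (fun _ _ => sq_nonneg _) ha)
  have rp : n ^ (p / 2) = r ^ p := by
    rw [hr, Real.sqrt_eq_rpow, ← Real.rpow_mul n0]; congr 1; ring
  rw [rp]
  have s0 : 0 < 6 - p := by linarith
  rcases (Real.sqrt_nonneg n).eq_or_lt with r0 | r0
  · have : ∀ a ∈ A, c a = 0 := fun a ha => norm_le_zero_iff.1 ((cr a ha).trans r0.ge)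
    have z : ∀ k : ℝ × ℝ → ℂ, ∑ a ∈ A, c a * k a = 0 := fun k =>
      sum_eq_zero fun a ha => by rw [this a ha, zero_mul]
    simp only [z, norm_zero, Real.zero_rpow p0.ne', integral_zero]
    positivity
  rw [← hr] at r0
  set e : ℝ × ℝ → ℝ × ℝ → ℂ := fun a x =>
    Complex.exp (2 * Real.pi * Complex.I * (a.1 * x.1 + a.2 * x.2 : ℝ)) with he
  have ne : ∀ a x, ‖e a x‖ = 1 := fun a x => by
    rw [he, ← Complex.norm_exp_ofReal_mul_I (2 * Real.pi * (a.1 * x.1 + a.2 * x.2))]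
    simp only
    congr 2; push_cast; ring
  have vl : ∀ k : ZMod P, (0 : ℝ) ≤ k.val / P ∧ (k.val : ℝ) / P ≤ 1 := fun k =>
    ⟨by positivity, (div_le_one P0).2 (by exact_mod_cast k.val_lt.le)⟩
  refine (shift (Ω := ZMod P × ZMod P) (fun x => ‖∑ a ∈ A, c a * e a x‖ ^ p)
    (Continuous.rpow_const (by simp only [he]; fun_prop) fun _ => Or.inr p0.le)
    (fun _ => by positivity) (fun g => (q * (g.1.val / P), q * (g.2.val / P))) (q := q)
    (B := 64 * (12 + 512 * K) / (6 - p) * r ^ p) (fun g => ?_) (fun x => ?_) q0.le hR).trans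
    (le_of_eq (by ring))
  · exact ⟨⟨mul_nonneg q0.le (vl _).1, mul_le_of_le_one_right q0.le (vl _).2⟩,
      mul_nonneg q0.le (vl _).1, mul_le_of_le_one_right q0.le (vl _).2⟩
  have hl : ∀ a ∈ A, Function.invFunOn γ A (γ a) = a := fun a ha => hinj.leftInvOn_invFunOn ha
  have h1 := hW fun z => c (Function.invFunOn γ A z) * e (Function.invFunOn γ A z) x
  have s1 : ∀ g, ∑ z ∈ A.image γ, c (Function.invFunOn γ A z) * e (Function.invFunOn γ A z) x
      * ch P z g = ∑ a ∈ A, c a * e a x * ch P (γ a) g := fun g => by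
    rw [sum_image hinj]; exact sum_congr rfl fun a ha => by rw [hl a ha]
  have s2 : ∑ z ∈ A.image γ, ‖c (Function.invFunOn γ A z) * e (Function.invFunOn γ A z) x‖ ^ 2
      = n := by
    rw [sum_image hinj]; exact sum_congr rfl fun a ha => by rw [hl a ha, norm_mul, ne, mul_one]
  simp only [s1, s2] at h1
  have hcard : (Fintype.card (ZMod P × ZMod P) : ℝ) = (P : ℝ) ^ 2 := by simp [sq]
  have h2 := stepp (fun g => ‖∑ a ∈ A, c a * e a x * ch P (γ a) g‖) (fun _ => norm_nonneg _) r0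
    p0.le p6 hK fun b hb => by rw [hcard, show r ^ 6 = n ^ 3 by rw [← r2]; ring]; exact h1 b hb
  have pt : ∀ g : ZMod P × ZMod P,
      ‖∑ a ∈ A, c a * e a (x + ((q : ℝ) * (g.1.val / P), (q : ℝ) * (g.2.val / P)))‖ ^ p
      ≤ 64 * (‖∑ a ∈ A, c a * e a x * ch P (γ a) g‖ ^ p + r ^ p) := by
    intro g
    have d1 : ‖∑ a ∈ A, c a * e a (x + ((q : ℝ) * (g.1.val / P), (q : ℝ) * (g.2.val / P)))
        - ∑ a ∈ A, c a * e a x * ch P (γ a) g‖ ≤ r := by
      rw [← sum_sub_distrib]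
      refine (norm_sum_le _ _).trans ((sum_le_card_nsmul _ _ (r * (16 * δ)) fun a ha => ?_).trans ?_)
      · have e1 : e a (x + ((q : ℝ) * (g.1.val / P), (q : ℝ) * (g.2.val / P))) = e a x *
            Complex.exp (2 * Real.pi * Complex.I *
              (q * a.1 * (g.1.val / P) + q * a.2 * (g.2.val / P) : ℝ)) := by
          simp only [he, ← Complex.exp_add, Prod.fst_add, Prod.snd_add]
          congr 1; push_cast; ring
        have e2 : ch P (γ a) g = Complex.exp (2 * Real.pi * Complex.I *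
            ((γ a).1 * (g.1.val / P) + (γ a).2 * (g.2.val / P) : ℝ)) := by
          rw [ch, show ((γ a).1 : ZMod P) * g.1 + (γ a).2 * g.2
            = (((γ a).1 * g.1.val + (γ a).2 * g.2.val : ℤ) : ZMod P) by simp, ZMod.stdAddChar_coe]
          congr 1; push_cast; ring
        rw [e1, e2, ← mul_assoc, ← mul_sub, norm_mul, norm_mul, ne, mul_one]
        refine mul_le_mul (cr a ha) ((exp_close _ _).trans ?_) (norm_nonneg _) r0.le
        have a1 := abs_lt.1 (hd _ (m1 a ha))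
        have a2 := abs_lt.1 (hd _ (m2 a ha))
        obtain ⟨b1, b2⟩ := vl g.1
        obtain ⟨b3, b4⟩ := vl g.2
        have : |q * a.1 * (g.1.val / P) + q * a.2 * (g.2.val / P) -
            ((γ a).1 * (g.1.val / P) + (γ a).2 * (g.2.val / P) : ℝ)| ≤ 2 * δ := by
          simp only [hγ]
          rw [abs_le]; constructor <;> nlinarith
        linarith
      · rw [nsmul_eq_mul]; nlinarith [mul_pos r0 δ0]
    have d2 := (norm_le_insert' _ _).trans (add_le_add le_rfl d1)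
    set u := ‖∑ a ∈ A, c a * e a x * ch P (γ a) g‖ with hu
    have u0 : 0 ≤ u := norm_nonneg _
    have d3 : (2 : ℝ) ^ p ≤ 64 := (Real.rpow_le_rpow_of_exponent_le one_le_two p6.le).trans
      (by norm_num)
    have d4 : ∀ m : ℝ, 0 ≤ m → u + r ≤ 2 * m → (u + r) ^ p ≤ 64 * m ^ p := fun m hm h =>
      (Real.rpow_le_rpow (by positivity) h p0.le).trans (by
        rw [Real.mul_rpow two_pos.le hm]; exact mul_le_mul_of_nonneg_right d3 (by positivity))
    refine (Real.rpow_le_rpow (norm_nonneg _) d2 p0.le).trans ?_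
    rcases le_total u r with h | h
    · linarith [d4 r r0.le (by linarith), show 0 ≤ u ^ p by positivity]
    · linarith [d4 u u0 (by linarith), show 0 ≤ r ^ p by positivity]
  refine (sum_le_sum fun g _ => pt g).trans ?_
  rw [← mul_sum, sum_add_distrib, sum_const, card_univ, nsmul_eq_mul]
  have b1 : 1 ≤ 6 / (6 - p) := by rw [le_div_iff₀ s0]; linarith
  have b2 := mul_le_mul_of_nonneg_right b1
    (show 0 ≤ r ^ p * Fintype.card (ZMod P × ZMod P) by positivity)
  rw [show 64 * (12 + 512 * K) / (6 - p) = 64 * (6 / (6 - p) + (6 + 512 * K) / (6 - p)) by ring]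
  linarith

end E3R9
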